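import Pool.Agent.Z15.MH.Stm

set_option autoImplicit false

/-!
# Self maps of the plane of degree 4: statements

`F = dv f` is a ternary cubic (10 coordinates), `f₂ = part2 f` (35 coordinates). Two covariant matrices, linear in `f₂`:
`XX F f₂` (degree 2 in `F`, weight 3) and `YY F f₂` (degree 3 in `F`, weight 4), both with trace 0. They are independent at the
Fermat cubic. `Δ = tr(XY)/tr(X²)` has weight 1. The normalised matrices `X/Δ³`, `Y/Δ⁴` transform by conjugation, `H = Δ⁻¹` by `det`.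
Then frames and descent as in project MH (`k = 1`), in two steps: first `dv f̂` over `J = K(l, Ŷ)`, then `f̂` over `J(dv f̂)`, where the
linear relations `XX (dv f̂) f̂₂ = diag(l)`, `YY (dv f̂) f̂₂ = Ŷ` (16 independent ones) hold. Dimension: `7 + 10 + 19 = 36 = 45 - 9`.
-/

namespace Pool.Agent.Z15.MI

open MvPolynomial Matrix Pool.Agent.Z15.ME Pool.Agent.Z15.MH

/-! ## Covariant matrices -/

section
variable {R : Type} [CommRing R]

/-- the sign -/
def ep (a b c : Fin 3) : ℤ := (Matrix.of ![Pi.single a 1, Pi.single b 1, Pi.single c 1] : Matrix (Fin 3) (Fin 3) ℤ).det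

/-- third derivatives of a cubic -/
noncomputable def t3 (F : Mon 3 3 → R) (a b c : Fin 3) : R := eval 0 (pderiv a (pderiv b (pderiv c (pol F))))

/-- fourth derivatives of the component `n` -/
noncomputable def t4 (f : Fin 3 × Mon 3 4 → R) (n a b c d : Fin 3) : R :=
  eval 0 (pderiv a (pderiv b (pderiv c (pderiv d (cmp f n)))))

/-- the covariant matrix of weight 3 -/
noncomputable def XX (F : Mon 3 3 → R) (f : Fin 3 × Mon 3 4 → R) : Matrix (Fin 3) (Fin 3) R :=
  Matrix.of fun i j => ∑ a, ∑ b, ∑ c, ∑ d, ∑ e, ∑ g, ∑ h, ∑ k, ∑ n,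
    ((ep i a b * ep c d e * ep g h k : ℤ) : R) * t4 f n a c g j * t3 F n d h * t3 F b e k

/-- the covariant matrix of weight 4 -/
noncomputable def YY (F : Mon 3 3 → R) (f : Fin 3 × Mon 3 4 → R) : Matrix (Fin 3) (Fin 3) R :=
  Matrix.of fun i j => ∑ a, ∑ b, ∑ c, ∑ d, ∑ e, ∑ g, ∑ h, ∑ k, ∑ p, ∑ q, ∑ r, ∑ s,
    ((ep a b c * ep d e g * ep h k p * ep q r s : ℤ) : R) * t4 f i c g p j * t3 F a d q * t3 F b h r * t3 F e k s

end

/-- (EPS) contraction with `ep`. The first: multiplicativity of the determinant; the second from the first for `A'`, `A * A' = 1`. -/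
def S_EPS : Prop := ∀ (R : Type) [CommRing R],
  (∀ (A : Matrix (Fin 3) (Fin 3) R) (a' b' c' : Fin 3),
    ∑ a, ∑ b, ∑ c, ((ep a b c : ℤ) : R) * A a' a * A b' b * A c' c = ((ep a' b' c' : ℤ) : R) * A.det) ∧
  ∀ (A A' : Matrix (Fin 3) (Fin 3) R), A * A' = 1 → ∀ i b' c' : Fin 3,
    ∑ b, ∑ c, ((ep i b c : ℤ) : R) * A' b' b * A' c' c = A'.det * ∑ i', ((ep i' b' c' : ℤ) : R) * A i i'

/-- (T34) transformation of the derivatives (chain rule: `pol (act1 A F) = (pol F)(A x)`, `S_ACT`; induction over the derivatives). -/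
def S_T34 : Prop := ∀ (R : Type) [CommRing R],
  (∀ (A : Matrix (Fin 3) (Fin 3) R) (F : Mon 3 3 → R) (a b c : Fin 3),
    t3 (act1 A F) a b c = ∑ a', ∑ b', ∑ c', A a' a * A b' b * A c' c * t3 F a' b' c') ∧
  (∀ (A A' : Matrix (Fin 3) (Fin 3) R) (f : Fin 3 × Mon 3 4 → R) (n a b c d : Fin 3),
    t4 (act A A' f) n a b c d = ∑ n', ∑ a', ∑ b', ∑ c', ∑ d',
      A n n' * A' a' a * A' b' b * A' c' c * A' d' d * t4 f n' a' b' c' d') ∧
  (∀ (F : Mon 3 3 → R) (a b c : Fin 3), t3 F a b c = t3 F b a c ∧ t3 F a b c = t3 F a c b) ∧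
  (∀ (f : Fin 3 × Mon 3 4 → R) (n a b c d : Fin 3), t4 f n a b c d = t4 f n b a c d ∧ t4 f n a b c d = t4 f n a c b d ∧
    t4 f n a b c d = t4 f n a b d c) ∧
  (∀ (f : Fin 3 × Mon 3 4 → R), (∀ β, dv f β = 0) → ∀ a b c : Fin 3, ∑ n, t4 f n a b c n = 0)

/-- (TRX) `XX` transforms with weight 3, trace 0, linear, functorial.

Proof. T34 and EPS: in `XX (act1 A' F) (act A A' f)` there are three `ep`: two full ones give `det A'` each, the one with the free
index `i` gives `det A'` and `A i i'`; the index `n` of `t4` with `A`, the index `n` of `t3` with `A'`: cancel (`A' A = 1`); the index `j` gives `A' j' j`.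
Trace: the sum over `i = j` of `ep i a b * t4 f n a c g i` vanishes (symmetry of `t4` in `a`, `i`). -/
def S_TRX : Prop := ∀ (R : Type) [CommRing R],
  (∀ (A A' : Matrix (Fin 3) (Fin 3) R) (F : Mon 3 3 → R) (f : Fin 3 × Mon 3 4 → R), A * A' = 1 →
    XX (act1 A' F) (act A A' f) = A'.det ^ 3 • (A * XX F f * A')) ∧
  (∀ (F : Mon 3 3 → R) (f : Fin 3 × Mon 3 4 → R), (2 : R) • (XX F f).trace = 0) ∧
  (∀ (F : Mon 3 3 → R) (f f' : Fin 3 × Mon 3 4 → R) (a b : R),
    XX F (fun p => a * f p + b * f' p) = a • XX F f + b • XX F f') ∧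
  ∀ (S : Type) [CommRing S] (σ : R →+* S) (F : Mon 3 3 → R) (f : Fin 3 × Mon 3 4 → R),
    XX (fun β => σ (F β)) (fun p => σ (f p)) = (XX F f).map σ

/-- (TRY) the same for `YY` (weight 4); the trace vanishes if `dv f = 0` (T34). -/
def S_TRY : Prop := ∀ (R : Type) [CommRing R],
  (∀ (A A' : Matrix (Fin 3) (Fin 3) R) (F : Mon 3 3 → R) (f : Fin 3 × Mon 3 4 → R), A * A' = 1 →
    YY (act1 A' F) (act A A' f) = A'.det ^ 4 • (A * YY F f * A')) ∧
  (∀ (F : Mon 3 3 → R) (f : Fin 3 × Mon 3 4 → R), (∀ β, dv f β = 0) → (YY F f).trace = 0) ∧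
  (∀ (F : Mon 3 3 → R) (f f' : Fin 3 × Mon 3 4 → R) (a b : R),
    YY F (fun p => a * f p + b * f' p) = a • YY F f + b • YY F f') ∧
  ∀ (S : Type) [CommRing S] (σ : R →+* S) (F : Mon 3 3 → R) (f : Fin 3 × Mon 3 4 → R),
    YY (fun β => σ (F β)) (fun p => σ (f p)) = (YY F f).map σ

/-- (FER) the matrices at the Fermat cubic: surjective.

Proof. `F = x₀³ + x₁³ + x₂³`: `t3 F a b c = 6` if `a = b = c`, otherwise `0`. So (up to the factor 36) `XX F f i j` is the sum over `a ≠ i` (with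
`b` the third index) of `ep i a b * (t4 f i a a a j + t4 f a a i i j)`, and `YY F f i j = - 216 * 6 * t4 f i 0 1 2 j`. Given traceless `P`, `Q`: choose the
`t4 f i j j j j` (`j ≠ i`) for the entries `P i j`, `t4 f 0 0 1 1 1` and so on for the diagonal entries, `t4 f i 0 1 2 j` for `Q`; the other fourth
derivatives are `0`, except the `t4 f a a a a a` which are chosen such that `dv f = 0`. -/
def S_FER : Prop := ∀ (M : Type) [Field M] [CharZero M], ∃ F : Mon 3 3 → ℤ, ∀ P Q : Matrix (Fin 3) (Fin 3) M, P.trace = 0 →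
  Q.trace = 0 → ∃ f : Fin 3 × Mon 3 4 → M, (∀ β, dv f β = 0) ∧ XX (fun β => (F β : M)) f = P ∧ YY (fun β => (F β : M)) f = Q

/-- (SUR) surjectivity at the generic cubic.

Proof. The linear map `{f | dv f = 0} → {(P, Q) | traceless}` with the matrix depending polynomially on `F` has rank 16 at the Fermat
cubic (FER), so a minor of order 16 is a nonzero polynomial (over `ℤ` or `ℚ`) in the coefficients of `F`; it does not vanish at an
algebraically independent `F`. -/
def S_SUR : Prop := ∀ (K M : Type) [Field K] [CharZero K] [Field M] [Algebra K M] (F : Mon 3 3 → M), AlgebraicIndependent K F →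
  ∀ P Q : Matrix (Fin 3) (Fin 3) M, P.trace = 0 → Q.trace = 0 →
  ∃ f : Fin 3 × Mon 3 4 → M, (∀ β, dv f β = 0) ∧ XX F f = P ∧ YY F f = Q

/-- the index set of the entries of a traceless matrix -/
abbrev E8 : Type := {p : Fin 3 × Fin 3 // p ≠ (2, 2)}

/-- (AI4) the generic self map of degree 4: `M` is generated by `X` over a field `K₁` over which the entries of `X` are independent, and
the entries of `X` and `Y` are independent over `K`.

Proof. `F = dv f` and the coordinates `J2` of `part2 f` are algebraically independent and generate `M` (AIZ for `N = 2`, `m = 3`; `S_SEC`,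
`S_CRD`). `X`, `Y` are given by 16 linear forms in `part2 f` with coefficients in `K(F)`, linearly independent on `{dv = 0}` by SUR. Extend
them to a basis: `K(F)`-linear change of the 35 coordinates. `K₁ = K(F, the other 27 linear forms)`. -/
def S_AI4 : Prop := ∀ (K M : Type) [Field K] [CharZero K] [Field M] [Algebra K M] (f : Ix 2 3 → M),
  AlgebraicIndependent K f → IntermediateField.adjoin K (Set.range f) = ⊤ →
  AlgebraicIndependent K (dv f) ∧
  AlgebraicIndependent K (Sum.elim (fun p : E8 => XX (dv f) (part2 f) p.1.1 p.1.2) fun p : E8 => YY (dv f) (part2 f) p.1.1 p.1.2) ∧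
  ∃ K₁ : IntermediateField K M, AlgebraicIndependent K₁ (fun p : E8 => XX (dv f) (part2 f) p.1.1 p.1.2) ∧
    IntermediateField.adjoin K₁ (Set.range fun p : E8 => XX (dv f) (part2 f) p.1.1 p.1.2) = ⊤

/-- (IR4) copy of `T_IRD.lean` for a traceless matrix (both specialisations in that proof are traceless) and a scalar multiple of it
(the roots and `δ` are multiplied by `s`, `s³`). -/
def S_IR4 : Prop := ∀ (K₁ M : Type) [Field K₁] [CharZero K₁] [Field M] [Algebra K₁ M] (X : Matrix (Fin 3) (Fin 3) M),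
  X.trace = 0 → AlgebraicIndependent K₁ (fun p : E8 => X p.1.1 p.1.2) →
  IntermediateField.adjoin K₁ (Set.range fun p : E8 => X p.1.1 p.1.2) = ⊤ → ∀ s : M, s ≠ 0 →
  (∀ x : M, (s • X).charpoly.eval x ≠ 0) ∧ ∀ (Ω : Type) [Field Ω] [Algebra M Ω] (l : Fin 3 → Ω), Roots (s • X).charpoly l →
    (l 0 - l 1) * (l 1 - l 2) * (l 2 - l 0) ∉ Set.range (algebraMap M Ω)

/-- (FR4) existence of the frame: copy of `T_FRZ.lean` for traceless matrices `X`, `Y`, multiplied by scalars `s`, `s'`. (The entries of `Y`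
without `Y 2 2` are independent over `K(X)`, so over its algebraic closure, and so are the entries of `C⁻¹ Y C` without the last one: a linear
substitution of the traceless matrices.) -/
def S_FR4 : Prop := ∀ (K M Ω : Type) [Field K] [CharZero K] [Field M] [Algebra K M] [Field Ω] [Algebra M Ω] [IsAlgClosed Ω]
  (X Y : Matrix (Fin 3) (Fin 3) M) (H s s' : M) (k : ℕ), 1 ≤ k → H ≠ 0 → s ≠ 0 → s' ≠ 0 → X.trace = 0 → Y.trace = 0 →
  AlgebraicIndependent K (Sum.elim (fun p : E8 => X p.1.1 p.1.2) fun p : E8 => Y p.1.1 p.1.2) →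
  ∀ l : Fin 3 → Ω, Roots (s • X).charpoly l → (∀ i j, i ≠ j → l i ≠ l j) →
  ∃ B B' : Matrix (Fin 3) (Fin 3) Ω,
    Fr k l ((s • X).map (algebraMap M Ω)) ((s' • Y).map (algebraMap M Ω)) (algebraMap M Ω H) B B' ∧
    (B' * (s' • Y).map (algebraMap M Ω) * B) 1 2 * (B' * (s' • Y).map (algebraMap M Ω) * B) 2 1 +
      (B' * (s' • Y).map (algebraMap M Ω) * B) 2 0 * (B' * (s' • Y).map (algebraMap M Ω) * B) 0 2 +
      (B' * (s' • Y).map (algebraMap M Ω) * B) 0 1 * (B' * (s' • Y).map (algebraMap M Ω) * B) 1 0 ≠ 0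

/-! ## Frames and descent in general -/

/-- a field generated by the coefficients of a self map, with the action, two matrices and a scalar in it -/
structure DW (k : ℕ) (K M : Type) [Field K] [CharZero K] [Field M] [Algebra K M] where
  hk : 1 ≤ k
  f : Ix 2 (3 * k) → M
  X : Matrix (Fin 3) (Fin 3) M
  Y : Matrix (Fin 3) (Fin 3) M
  H : M
  H0 : H ≠ 0
  gen : IntermediateField.adjoin K (Set.range f) = ⊤
  φ : GP 2 K → M →ₐ[K] M
  hf : Acts 2 (3 * k + 1) φ f
  hX : ∀ g : GP 2 K, X.map (φ g) = ext M g.1.1 * X * ext M g.1.2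
  hY : ∀ g : GP 2 K, Y.map (φ g) = ext M g.1.1 * Y * ext M g.1.2
  hH : ∀ g : GP 2 K, φ g H = algebraMap K M g.1.1.det ^ k * H

/-- the eigenvalues and the frame for `D` -/
structure FW {k : ℕ} {K M : Type} [Field K] [CharZero K] [Field M] [Algebra K M] (D : DW k K M) (Ω : Type) [Field Ω]
    [Algebra M Ω] where
  l : Fin 3 → Ω
  hl : Roots D.X.charpoly l
  li : LinearIndependent M (mu l)
  ne : ∀ i j, i ≠ j → l i ≠ l j
  pe : ∀ π : Equiv.Perm (Fin 3), ∃ σ : Ω ≃ₐ[M] Ω, ∀ i, σ (l i) = l (π i)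
  B : Matrix (Fin 3) (Fin 3) Ω
  B' : Matrix (Fin 3) (Fin 3) Ω
  fr : Fr k l (D.X.map (algebraMap M Ω)) (D.Y.map (algebraMap M Ω)) (algebraMap M Ω D.H) B B'
  u0 : (B' * D.Y.map (algebraMap M Ω) * B) 1 2 * (B' * D.Y.map (algebraMap M Ω) * B) 2 1 +
      (B' * D.Y.map (algebraMap M Ω) * B) 2 0 * (B' * D.Y.map (algebraMap M Ω) * B) 0 2 +
      (B' * D.Y.map (algebraMap M Ω) * B) 0 1 * (B' * D.Y.map (algebraMap M Ω) * B) 1 0 ≠ 0

namespace FW

variable {k : ℕ} {K M : Type} [Field K] [CharZero K] [Field M] [Algebra K M] {D : DW k K M} {Ω : Type} [Field Ω]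
  [Algebra M Ω] [Algebra K Ω]

/-- `Ŷ` -/
noncomputable def Yh (F : FW D Ω) : Matrix (Fin 3) (Fin 3) Ω := F.B' * D.Y.map (algebraMap M Ω) * F.B

/-- `f̂` -/
noncomputable def fh (F : FW D Ω) : Ix 2 (3 * k) → Ω := act F.B' F.B fun p => algebraMap M Ω (D.f p)

/-- the field `K(l, Ŷ)` -/
noncomputable def J (F : FW D Ω) : IntermediateField K Ω :=
  IntermediateField.adjoin K (Set.range F.l ∪ Set.range fun p : Fin 3 × Fin 3 => F.Yh p.1 p.2)

end FW

/-- (ROW) the automorphisms over `M`: copy of `MH/T_ROT.lean` (with `F.ne`, `F.pe`, `D.H0` instead of SIX and `ind`), and the same for the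
divergence `dv f̂` (`S_DVA`: `dv (act T⁻¹ T f̂) = act1 T (dv f̂)`). -/
def S_ROW : Prop := ∀ (k : ℕ) (K M : Type) [Field K] [CharZero K] [Field M] [Algebra K M] (D : DW k K M)
  (Ω : Type) [Field Ω] [Algebra M Ω] [Algebra K Ω] [IsScalarTower K M Ω] [IsAlgClosed Ω] [Algebra.IsAlgebraic M Ω] (F : FW D Ω)
  (σ : Ω ≃ₐ[M] Ω), ∃ (π : Equiv.Perm (Fin 3)) (t : Fin 3 → Ω), (∀ i, σ (F.l i) = F.l (π i)) ∧
    (∀ j, t j ∈ F.J (K := K)) ∧ (∀ j, t j ≠ 0) ∧
    (∀ i j, σ (F.Yh i j) = (t i)⁻¹ * F.Yh (π i) (π j) * t j) ∧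
    (∀ p, σ (F.fh p) ∈ Submodule.span (F.J (K := K)) (Set.range F.fh)) ∧
    (∀ β, σ (dv F.fh β) ∈ Submodule.span (F.J (K := K)) (Set.range (dv F.fh))) ∧
    ((∀ i, σ (F.l i) = F.l i) → (∀ i j, σ (F.Yh i j) = F.Yh i j) ∧ ∀ p, σ (F.fh p) = F.fh p)

/-- (MEW) copy of `MH/T_MEM.lean`; `dv f̂` by linearity (`dv` is a linear combination with rational coefficients of the `f̂ p`: `S_DVA` for the
automorphisms, or directly). -/
def S_MEW : Prop := ∀ (k : ℕ) (K M : Type) [Field K] [CharZero K] [Field M] [Algebra K M] (D : DW k K M)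
  (Ω : Type) [Field Ω] [Algebra M Ω] [Algebra K Ω] [IsScalarTower K M Ω] [IsAlgClosed Ω] [Algebra.IsAlgebraic M Ω] (F : FW D Ω),
  (∀ i j, F.Yh i j ∈ IntermediateField.adjoin M (Set.range F.l)) ∧ (∀ p, F.fh p ∈ IntermediateField.adjoin M (Set.range F.l)) ∧
  ∀ β, dv F.fh β ∈ IntermediateField.adjoin M (Set.range F.l)

/-- (EXW) copy of `MH/T_EXT.lean` -/
def S_EXW : Prop := ∀ (k : ℕ) (K M : Type) [Field K] [CharZero K] [Field M] [Algebra K M] (D : DW k K M)
  (Ω : Type) [Field Ω] [Algebra M Ω] [Algebra K Ω] [IsScalarTower K M Ω] [IsAlgClosed Ω] [Algebra.IsAlgebraic M Ω] (F : FW D Ω)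
  (g : GP 2 K), ∃ ψ : Ω →+* Ω, (∀ x : M, ψ (algebraMap M Ω x) = algebraMap M Ω (D.φ g x)) ∧ (∀ i, ψ (F.l i) = F.l i) ∧
    (∀ i j, ψ (F.Yh i j) = F.Yh i j) ∧ (∀ p, ψ (F.fh p) = F.fh p) ∧ ∀ β, ψ (dv F.fh β) = dv F.fh β

/-- (FKW) seven invariants, if `X`, `Y` are traceless and `tr (X Y) = tr (X X)`: copies of `MH/T_FMA.lean` and `MH/T_FMK.lean` (`MH/FMKb.lean` is
general), with the ten `e` of FMK replaced by the seven: the lower two coefficients of the characteristic polynomial, `t 2`, and the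
four quotients (`t 0 = tr Y = 0`, `t 1 = tr (X Y) = tr (X X)` is a polynomial in the coefficients). -/
def S_FKW : Prop := ∀ (k : ℕ) (K M : Type) [Field K] [CharZero K] [Field M] [Algebra K M] (D : DW k K M),
  D.X.trace = 0 → D.Y.trace = 0 → (D.X * D.Y).trace = (D.X * D.X).trace →
  ∀ (Ω : Type) [Field Ω] [Algebra M Ω] [Algebra K Ω] [IsScalarTower K M Ω] [IsAlgClosed Ω] [Algebra.IsAlgebraic M Ω] (F : FW D Ω),
  ∃ e : Fin 7 → M, (∀ i g, D.φ g (e i) = e i) ∧ (∀ i, D.X.charpoly.coeff i ∈ IntermediateField.adjoin K (Set.range e)) ∧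
    (∀ i, algebraMap M Ω (e i) ∈ F.J (K := K)) ∧
    ∀ i j, F.Yh i j ∈ IntermediateField.adjoin K ((Set.range fun i => algebraMap M Ω (e i)) ∪ Set.range F.l)

/-- (DEW) descent, general form: the proof of `MH/T_DES.lean`.

Proof. `u i = ∑ w i a * mu l a` with `w i a ∈ M` (SPJ for `N = ⊤`), `w i a` invariant (the `ψ`'s and `F.li`), the `w i a` are in the span of `u` over
`J'` (COF with the `σ π` of `F.pe`; `J'` contains the `l i`), hence in the span of `z`; LAD. -/
def S_DEW : Prop := ∀ (k : ℕ) (K M : Type) [Field K] [CharZero K] [Field M] [Algebra K M] (D : DW k K M)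
  (Ω : Type) [Field Ω] [Algebra M Ω] [Algebra K Ω] [IsScalarTower K M Ω] [IsAlgClosed Ω] [Algebra.IsAlgebraic M Ω] (F : FW D Ω)
  (J' : IntermediateField K Ω) (N' : IntermediateField K M), (∀ i, F.l i ∈ J') →
  (∀ y ∈ J', ∃ n : Fin 3 × Fin 2 → N', y = ∑ a, algebraMap M Ω (n a) * mu F.l a) → (∀ x ∈ N', ∀ g, D.φ g x = x) →
  ∀ (I : Type) [Finite I] (u : I → Ω), (∀ i, u i ∈ IntermediateField.adjoin M (Set.range F.l)) →
  (∀ (σ : Ω ≃ₐ[M] Ω) (i : I), σ (u i) ∈ Submodule.span J' (Set.range u)) →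
  (∀ g, ∃ ψ : Ω →+* Ω, (∀ x : M, ψ (algebraMap M Ω x) = algebraMap M Ω (D.φ g x)) ∧ (∀ i, ψ (F.l i) = F.l i) ∧ ∀ i, ψ (u i) = u i) →
  ∀ (d : ℕ) (z : Fin d → Ω), (∀ i, u i ∈ Submodule.span J' (Set.range z)) →
  ∃ v : Fin d → M, (∀ i g, D.φ g (v i) = v i) ∧ ∀ i, u i ∈ Submodule.span J' (Set.range fun i => algebraMap M Ω (v i))

/-- (ON1) linear algebra: if `1` is in the span of the `d + 1` elements `v`, then one of them can be replaced by `1`. -/
def S_ON1 : Prop := ∀ (J Ω : Type) [Field J] [Field Ω] [Algebra J Ω] (d : ℕ) (v : Fin (d + 1) → Ω),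
  (1 : Ω) ∈ Submodule.span J (Set.range v) → ∃ τ : Fin d → Fin (d + 1),
    Submodule.span J (Set.range v) ≤ Submodule.span J (insert 1 (Set.range (v ∘ τ)))

/-- (INW) the invariants are in `K(f̂)`: copy of `MH/T_INZ.lean` (simpler: only `f`). -/
def S_INW : Prop := ∀ (k : ℕ) (K M : Type) [Field K] [CharZero K] [Field M] [Algebra K M] (D : DW k K M)
  (Ω : Type) [Field Ω] [Algebra M Ω] [Algebra K Ω] [IsScalarTower K M Ω] [IsAlgClosed Ω] [Algebra.IsAlgebraic M Ω] (F : FW D Ω)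
  (x : M), (∀ g, D.φ g x = x) → algebraMap M Ω x ∈ IntermediateField.adjoin K (Set.range F.fh)

/-! ## Degree 4 -/

/-- the data of degree 4 -/
structure D4 (K M : Type) [Field K] [CharZero K] [Field M] [Algebra K M] extends DW 1 K M where
  ind : AlgebraicIndependent K f
  s : M
  s0 : s ≠ 0
  hs : s * H = 1
  eX : s ^ 3 • X = XX (dv f) (part2 f)
  eY : s ^ 4 • Y = YY (dv f) (part2 f)
  tX : X.trace = 0
  tY : Y.trace = 0
  tXY : (X * Y).trace = (X * X).trace

/-- (NR4) the normalised data exist: `s = Δ = tr(XX * YY)/tr(XX * XX)`, `X = s⁻³ XX`, `Y = s⁻⁴ YY`, `H = s⁻¹`.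

Proof. `tr(XX * XX)` and `tr(XX * YY)` are nonzero polynomials in the independent entries (AI4). `φ g f = act g g' f`, so
`φ g (dv f) = act1 g' (dv f)`, `φ g (part2 f) = act g g' (part2 f)` (AIZ for `N = 2`, `m = 3`), and TRX, TRY (functoriality for `φ g`) give
`XX.map (φ g) = det(g')^3 • (g * XX * g')`, and so on; `det g * det g' = 1`. -/
def S_NR4 : Prop := ∀ (K M : Type) [Field K] [CharZero K] [Field M] [Algebra K M] (f : Ix 2 (3 * 1) → M),
  AlgebraicIndependent K f → IntermediateField.adjoin K (Set.range f) = ⊤ →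
  ∀ φ : GP 2 K → M →ₐ[K] M, Acts 2 (3 * 1 + 1) φ f → ∃ D : D4 K M, D.φ = φ

/-- (EX4) the eigenvalues and the frame exist: AI4, IR4, IN6, PRM, FR4 (`s⁻³`, `s⁻⁴` as scalars), compare `MH/T_SIX.lean`, `MH/T_EXF.lean`. -/
def S_EX4 : Prop := ∀ (K M : Type) [Field K] [CharZero K] [Field M] [Algebra K M] (D : D4 K M)
  (Ω : Type) [Field Ω] [Algebra M Ω] [IsAlgClosed Ω] [Algebra.IsAlgebraic M Ω], Nonempty (FW D.toDW Ω)

/-- (SP4) the self map `f̂` is in the span of `1` and 19 elements over `K(l, Ŷ, dv f̂)`.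

Proof. `XX (dv f̂) (part2 f̂) = diag(l)` and `YY (dv f̂) (part2 f̂) = Ŷ` (TRX, TRY for `B'`, `B` over `Ω`: the factor is `det(B)^3 = s⁻³`). The linear map
`c ↦ (XX (dv f̂) c, YY (dv f̂) c)` from `{dv c = 0}` onto the pairs of traceless matrices over `Ω` is surjective (SUR for `F = dv f` over `Ω` and the
transformation; `dv f` is algebraically independent). Its matrix has entries in `J' = K(l, Ŷ, dv f̂)`, so it is surjective over `J'` (the rank does
not change), its kernel over `J'` has dimension `35 - 16 = 19`, and there is a particular solution `c₀` over `J'`. So `part2 f̂ - c₀` is an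
`Ω`-combination of a basis of the kernel (19 coefficients `z`), and `f̂ = part2 f̂ + emb (dv f̂)/6`. -/
def S_SP4 : Prop := ∀ (K M : Type) [Field K] [CharZero K] [Field M] [Algebra K M] (D : D4 K M)
  (Ω : Type) [Field Ω] [Algebra M Ω] [Algebra K Ω] [IsScalarTower K M Ω] [IsAlgClosed Ω] [Algebra.IsAlgebraic M Ω]
  (F : FW D.toDW Ω), ∀ J' : IntermediateField K Ω, (∀ i, F.l i ∈ J') → (∀ i j, F.Yh i j ∈ J') → (∀ β, dv F.fh β ∈ J') →
  ∃ z : Fin 19 → Ω, ∀ p, F.fh p ∈ Submodule.span J' (insert 1 (Set.range z))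

/-- (DE4) the two descents.

Proof. FKW gives `e`. SPJ: `J = K(e, l)` consists of combinations of the `mu` over `K(e)`. DEW for `u = dv f̂`, `z` an enumeration of it
(`card (Mon 3 3) = 10`): `v : Fin 10 → M`, `dv f̂` in the span of `v` over `J`. Let `N' = K(e, v)`, `J' = K(e, v, l)` (SPJ): it contains `J`, `dv f̂`.
DEW for `u = ` (`1` and the `f̂ p`, index `Option (Ix 2 3)`), `z` the 20 elements `1`, `z` of SP4: 20 invariants; ON1: `1` and 19 of them. The hypotheses of DEW: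
ROW, MEW, EXW. -/
def S_DE4 : Prop := ∀ (K M : Type) [Field K] [CharZero K] [Field M] [Algebra K M] (D : D4 K M)
  (Ω : Type) [Field Ω] [Algebra M Ω] [Algebra K Ω] [IsScalarTower K M Ω] [IsAlgClosed Ω] [Algebra.IsAlgebraic M Ω]
  (F : FW D.toDW Ω), ∃ (e : Fin 7 → M) (v : Fin 10 → M) (w : Fin 19 → M),
  (∀ i g, D.φ g (e i) = e i) ∧ (∀ i g, D.φ g (v i) = v i) ∧ (∀ i g, D.φ g (w i) = w i) ∧
  (∀ i, D.X.charpoly.coeff i ∈ IntermediateField.adjoin K (Set.range e)) ∧
  (∀ i j, F.Yh i j ∈ IntermediateField.adjoin K ((Set.range fun i => algebraMap M Ω (e i)) ∪ Set.range F.l)) ∧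
  ∀ p, F.fh p ∈ IntermediateField.adjoin K ((algebraMap M Ω '' (Set.range e ∪ Set.range v ∪ Set.range w)) ∪ Set.range F.l)

/-- (TD4) algebraic independence, compare `MH/T_TDZ.lean`.

Proof. `l`, `f̂` are algebraic over `N = K(e, v, w)` (characteristic polynomial; last hypothesis). `f = act B B' f̂`, so `M` is in the field generated by
`f̂` and the 9 entries of `B`: `45 = card (Ix 2 3) ≤ trdeg N + 9 ≤ 36 + 9`. -/
def S_TD4 : Prop := ∀ (K M : Type) [Field K] [CharZero K] [Field M] [Algebra K M] (D : D4 K M)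
  (Ω : Type) [Field Ω] [Algebra M Ω] [Algebra K Ω] [IsScalarTower K M Ω] [IsAlgClosed Ω] [Algebra.IsAlgebraic M Ω]
  (F : FW D.toDW Ω) (e : Fin 7 → M) (v : Fin 10 → M) (w : Fin 19 → M),
  (∀ i, D.X.charpoly.coeff i ∈ IntermediateField.adjoin K (Set.range e)) →
  (∀ p, F.fh p ∈ IntermediateField.adjoin K ((algebraMap M Ω '' (Set.range e ∪ Set.range v ∪ Set.range w)) ∪ Set.range F.l)) →
  AlgebraicIndependent K (Sum.elim e (Sum.elim v w))

/-- (RA4) the invariant field is purely transcendental: INW, DE4, SPJ (`N = K(e, v, w)`, the coefficient of `mu (0, 0)`, `F.li`), TD4, EX4; compare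
`MH/T_GEZ.lean`, `MH/T_RAZ.lean`. -/
def S_RA4 : Prop := ∀ (K M : Type) [Field K] [CharZero K] [Field M] [Algebra K M] (D : D4 K M),
  ∃ (q : ℕ) (x : Fin q → M), AlgebraicIndependent K x ∧ ∀ y : M, (∀ g, D.φ g y = y) ↔ y ∈ IntermediateField.adjoin K (Set.range x)

end Pool.Agent.Z15.MI
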