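import Pool.Agent.Z15.MI.Stm

set_option autoImplicit false

/-! Project MI (helper15), task AI4: the entries of the two matrices are algebraically independent. -/

namespace Pool.Agent.Z15.MI

open MvPolynomial Matrix Pool.Agent.Z15.ME Pool.Agent.Z15.MH

namespace AI4

theorem emb_mem (hEMB : S_EMB) {N m : ℕ} {K M : Type} [Field K] [Field M] [Algebra K M]
    (E : IntermediateField K M) (F : Mon (N + 1) m → M) (hF : ∀ β, F β ∈ E) (p : Ix N m) :
    emb F p ∈ E := by
  have h := (hEMB (N + 1) m E).2.2.2 M (algebraMap E M) fun β => ⟨F β, hF β⟩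
  have h2 := congrFun h p
  have h3 : (fun β => algebraMap E M ((fun β => (⟨F β, hF β⟩ : E)) β)) = F := rfl
  rw [h3] at h2
  rw [h2]
  exact (emb (fun β => (⟨F β, hF β⟩ : E)) p).2

/-- linearity for finite sums -/
theorem lin_sum {R I : Type} [CommRing R] (Φ : (Fin 3 × Mon 3 4 → R) → Matrix (Fin 3) (Fin 3) R)
    (hΦ : ∀ (f f' : Fin 3 × Mon 3 4 → R) (a b : R), Φ (fun p => a * f p + b * f' p) = a • Φ f + b • Φ f')
    (s : Finset I) (c : I → R) (g : I → Fin 3 × Mon 3 4 → R) :
    Φ (fun p => ∑ i ∈ s, c i * g i p) = ∑ i ∈ s, c i • Φ (g i) := by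
  classical
  induction s using Finset.induction_on with
  | empty =>
    have h := hΦ (fun _ => 0) (fun _ => 0) 0 0
    simp only [zero_smul, add_zero, mul_zero] at h
    simp only [Finset.sum_empty]
    exact h
  | insert i s hi ih =>
    have h := hΦ (g i) (fun p => ∑ i ∈ s, c i * g i p) (c i) 1
    simp only [one_mul, one_smul] at h
    rw [Finset.sum_insert hi, ← ih, ← h]
    congr 1
    funext p
    rw [Finset.sum_insert hi]

/-- extension to a basis -/
theorem ext_basis {E V I : Type} [Field E] [AddCommGroup V] [Module E V] [FiniteDimensional E V]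
    (v : I → V) (hv : LinearIndependent E v) :
    ∃ (n : ℕ) (w : Fin n → V), LinearIndependent E (Sum.elim v w) ∧
      Submodule.span E (Set.range (Sum.elim v w)) = ⊤ := by
  obtain ⟨W, hW⟩ := Submodule.exists_isCompl (Submodule.span E (Set.range v))
  obtain ⟨b⟩ : Nonempty (Module.Basis (Fin (Module.finrank E W)) E W) := ⟨Module.finBasis E W⟩
  have hspan : Submodule.span E (Set.range fun i => (b i : V)) = W := by
    have h1 : (Set.range fun i => (b i : V)) = W.subtype '' Set.range b := by
      rw [← Set.range_comp]; rfl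
    rw [h1, Submodule.span_image, b.span_eq, Submodule.map_subtype_top]
  refine ⟨_, fun i => (b i : V), ?_, ?_⟩
  · refine LinearIndependent.sum_type hv (b.linearIndependent.map' W.subtype (Submodule.ker_subtype W)) ?_
    rw [hspan]
    exact hW.disjoint
  · rw [Set.Sum.elim_range, Submodule.span_union, hspan]
    exact hW.sup_eq_top

/-- a traceless matrix with one given entry -/
theorem tless {R : Type} [Field R] (q : E8) : ∃ P : Matrix (Fin 3) (Fin 3) R, P.trace = 0 ∧
    ∀ p : E8, P p.1.1 p.1.2 = if p = q then 1 else 0 := by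
  classical
  obtain ⟨⟨i, j⟩, hij⟩ := q
  refine ⟨Matrix.of fun a b => (if (a, b) = (i, j) then (1 : R) else 0) -
    (if (a, b) = ((2, 2) : Fin 3 × Fin 3) then (if i = j then (1 : R) else 0) else 0), ?_, ?_⟩
  · rw [Matrix.trace, Fin.sum_univ_three]
    simp only [Matrix.diag_apply, Matrix.of_apply, Prod.mk.injEq]
    fin_cases i <;> fin_cases j <;> simp at hij ⊢
  · rintro ⟨⟨a, b⟩, hab⟩
    have h1 : ¬ (a, b) = ((2, 2) : Fin 3 × Fin 3) := hab
    simp only [Matrix.of_apply, if_neg h1, sub_zero, Subtype.mk.injEq]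

end AI4

open AI4

theorem t_AI4 (hSUR : S_SUR) (_hAIZ : MH.S_AIZ) (hTRX : S_TRX) (hTRY : S_TRY) (hDVA : ME.S_DVA)
    (hEMB : ME.S_EMB) (hSEC : ME.S_SEC) (hCRD : ME.S_CRD) (hTRD : ME.S_TRD) (hAIL : ME.S_AIL) :
    S_AI4 := by
  intro K M _ _ _ _ f ind hgen
  classical
  have : CharZero M := charZero_of_injective_algebraMap (algebraMap K M).injective
  obtain ⟨s, hs⟩ : ∃ s : M, s = ((2 + 1 + 3 : ℕ) : M)⁻¹ := ⟨_, rfl⟩
  have hs0 : s * ((2 + 1 + 3 : ℕ) : M) = 1 := by
    rw [hs]
    refine inv_mul_cancel₀ ?_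
    exact Nat.cast_ne_zero.2 (by omega)
  have hp2 : part2 f = fun p => 1 * f p + (-s) * emb (dv f) p := by
    funext p
    unfold part2
    rw [← hs]
    ring
  have hdv : dv (part2 f) = 0 := by
    rw [hp2, (hDVA (2 + 1) 3 M).2.1, (hEMB (2 + 1) 3 M).1]
    funext β
    show 1 * dv f β + -s * (((2 + 1 + 3 : ℕ) : M) * dv f β) = 0
    have : -s * (((2 + 1 + 3 : ℕ) : M) * dv f β) = -(s * ((2 + 1 + 3 : ℕ) : M)) * dv f β := by
      ring
    rw [this, hs0]
    ring
  obtain ⟨T, -, hT⟩ := hSEC 2 3
  have hT1 : ∀ p, part2 f p = ∑ j, (T p j : M) * part2 f j.1 := (hT M (part2 f)).1 hdv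
  -- the field generated by the J2 coordinates
  have hFJ : IntermediateField.adjoin K (Set.range fun j : J2 2 3 => part2 f j.1) = IntermediateField.adjoin K (Set.range (part2 f)) := by
    apply le_antisymm
    · refine IntermediateField.adjoin_le_iff.2 ?_
      rintro _ ⟨j, rfl⟩
      exact IntermediateField.subset_adjoin K _ ⟨j.1, rfl⟩
    · refine IntermediateField.adjoin_le_iff.2 ?_
      rintro _ ⟨p, rfl⟩
      rw [hT1 p]
      refine sum_mem fun j _ => mul_mem ?_ (IntermediateField.subset_adjoin K _ ⟨j, rfl⟩)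
      have h1 : ((T p j : ℚ) : M) = algebraMap K M ((T p j : ℚ) : K) := by
        rw [map_ratCast]
      rw [h1]
      exact IntermediateField.algebraMap_mem _ _
  have hpf : ∀ p, f p = part2 f p + s * emb (dv f) p := by
    intro p
    rw [hp2]
    ring
  obtain ⟨x, hx⟩ : ∃ x : J2 2 3 ⊕ Mon (2 + 1) 3 → M,
      x = Sum.elim (fun j : J2 2 3 => part2 f j.1) (dv f) := ⟨_, rfl⟩
  have hx1 : ∀ β, dv f β ∈ IntermediateField.adjoin K (Set.range x) := fun β =>
    IntermediateField.subset_adjoin K _ ⟨Sum.inr β, by rw [hx]; rfl⟩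
  have hx2 : ∀ j : J2 2 3, part2 f j.1 ∈ IntermediateField.adjoin K (Set.range x) := fun j =>
    IntermediateField.subset_adjoin K _ ⟨Sum.inl j, by rw [hx]; rfl⟩
  have hx3 : ∀ p, part2 f p ∈ IntermediateField.adjoin K (Set.range x) := by
    have h1 : IntermediateField.adjoin K (Set.range (part2 f)) ≤ IntermediateField.adjoin K (Set.range x) := by
      rw [← hFJ]
      refine IntermediateField.adjoin_le_iff.2 ?_
      rintro _ ⟨j, rfl⟩
      exact hx2 j
    exact fun p => h1 (IntermediateField.subset_adjoin K _ ⟨p, rfl⟩)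
  have hf : ∀ p, f p ∈ IntermediateField.adjoin K (Set.range x) := by
    intro p
    rw [hpf]
    refine add_mem (hx3 p) (mul_mem ?_ (emb_mem hEMB _ _ hx1 p))
    rw [hs]
    exact inv_mem (natCast_mem _ _)
  have hcard : Nat.card (J2 2 3 ⊕ Mon (2 + 1) 3) ≤ Nat.card (Ix 2 3) := by
    rw [Nat.card_sum, hCRD.1 2 3]
  have hind := (hTRD K M (J2 2 3 ⊕ Mon (2 + 1) 3) (Ix 2 3) x f ind hf hcard).1
  rw [hx] at hind
  have hind2 := AlgebraicIndependent.sumElim_iff.1 hind
  -- the field generated by the divergence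
  obtain ⟨E, hE⟩ : ∃ E : IntermediateField K M, E = IntermediateField.adjoin K (Set.range (dv f)) :=
    ⟨_, rfl⟩
  have hindE : AlgebraicIndependent E (fun j : J2 2 3 => part2 f j.1) := by
    rw [hE]
    exact IntermediateField.algebraicIndependent_adjoin_iff.2 hind2.2
  have hdE : ∀ β, dv f β ∈ E := fun β => by
    rw [hE]
    exact IntermediateField.subset_adjoin K _ ⟨β, rfl⟩
  obtain ⟨c, hc⟩ : ∃ c : Mon 3 3 → E, ∀ β, (c β : M) = dv f β := ⟨fun β => ⟨dv f β, hdE β⟩, fun β => rfl⟩
  have hcM : (fun β => algebraMap E M (c β)) = dv f := funext hc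
  have hcind : AlgebraicIndependent K c := by
    refine AlgebraicIndependent.of_comp E.val ?_
    have : (E.val ∘ c) = dv f := funext hc
    rw [this]
    exact hind2.1
  have : CharZero E := charZero_of_injective_algebraMap (algebraMap K E).injective
  -- the linear forms
  obtain ⟨tj, htj⟩ : ∃ tj : J2 2 3 → Fin 3 × Mon 3 4 → E, ∀ j p, tj j p = ((T p j : ℚ) : E) :=
    ⟨fun j p => ((T p j : ℚ) : E), fun _ _ => rfl⟩
  have htM : ∀ j p, algebraMap E M (tj j p) = ((T p j : ℚ) : M) := fun j p => by
    rw [htj, map_ratCast]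
  have key : ∀ (Φ : ∀ (R : Type) [CommRing R], (Mon 3 3 → R) → (Fin 3 × Mon 3 4 → R) → Matrix (Fin 3) (Fin 3) R),
      (∀ (R : Type) [CommRing R] (F : Mon 3 3 → R) (f f' : Fin 3 × Mon 3 4 → R) (a b : R),
        Φ R F (fun p => a * f p + b * f' p) = a • Φ R F f + b • Φ R F f') →
      (∀ (R : Type) [CommRing R] (S : Type) [CommRing S] (σ : R →+* S) (F : Mon 3 3 → R) (f : Fin 3 × Mon 3 4 → R),
        Φ S (fun β => σ (F β)) (fun p => σ (f p)) = (Φ R F f).map σ) →
      (∀ i j, Φ M (dv f) (part2 f) i j = ∑ k, algebraMap E M (Φ E c (tj k) i j) * part2 f k.1) ∧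
      ∀ g : Fin 3 × Mon 3 4 → E, (∀ β, dv g β = 0) → ∀ i j,
        Φ E c g i j = ∑ k : J2 2 3, g k.1 * Φ E c (tj k) i j := by
    intro Φ h1 h2
    refine ⟨fun i j => ?_, fun g hg i j => ?_⟩
    · have e1 : part2 f = fun p => ∑ k, part2 f k.1 * (fun k p => algebraMap E M (tj k p)) k p := by
        funext p
        rw [hT1 p]
        refine Finset.sum_congr rfl fun k _ => ?_
        show ((T p k : ℚ) : M) * part2 f k.1 = part2 f k.1 * algebraMap E M (tj k p)
        rw [htM, mul_comm]
      have e2 := lin_sum (Φ M (dv f)) (h1 M (dv f)) Finset.univ (fun k : J2 2 3 => part2 f k.1)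
        (fun k p => algebraMap E M (tj k p))
      rw [← e1] at e2
      rw [e2, Matrix.sum_apply]
      refine Finset.sum_congr rfl fun k _ => ?_
      have e3 := h2 E M (algebraMap E M) c (tj k)
      rw [hcM] at e3
      rw [Matrix.smul_apply, e3, Matrix.map_apply, smul_eq_mul, mul_comm]
    · have hg0 : dv g = 0 := funext hg
      have e0 := (hT E g).1 hg0
      have e1 : g = fun p => ∑ k : J2 2 3, g k.1 * tj k p := by
        funext p
        rw [e0 p]
        refine Finset.sum_congr rfl fun k _ => ?_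
        rw [htj, mul_comm]
      have e2 := lin_sum (Φ E c) (h1 E c) Finset.univ (fun k : J2 2 3 => g k.1) tj
      rw [← e1] at e2
      rw [e2, Matrix.sum_apply]
      refine Finset.sum_congr rfl fun k _ => ?_
      rw [Matrix.smul_apply, smul_eq_mul]
  obtain ⟨kX1, kX2⟩ := key (fun R _ F f => XX F f) (fun R _ => (hTRX R).2.2.1) (fun R _ => (hTRX R).2.2.2)
  obtain ⟨kY1, kY2⟩ := key (fun R _ F f => YY F f) (fun R _ => (hTRY R).2.2.1) (fun R _ => (hTRY R).2.2.2)
  -- independence of the linear forms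
  obtain ⟨rX, hrX⟩ : ∃ rX : E8 → J2 2 3 → E, ∀ p k, rX p k = XX c (tj k) p.1.1 p.1.2 := ⟨_, fun _ _ => rfl⟩
  obtain ⟨rY, hrY⟩ : ∃ rY : E8 → J2 2 3 → E, ∀ p k, rY p k = YY c (tj k) p.1.1 p.1.2 := ⟨_, fun _ _ => rfl⟩
  have hr : LinearIndependent E (Sum.elim rX rY) := by
    rw [Fintype.linearIndependent_iff]
    intro g hg
    have hmain : ∀ P Q : Matrix (Fin 3) (Fin 3) E, P.trace = 0 → Q.trace = 0 →
        ∑ p : E8, g (Sum.inl p) * P p.1.1 p.1.2 + ∑ p : E8, g (Sum.inr p) * Q p.1.1 p.1.2 = 0 := by
      intro P Q hP hQ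
      obtain ⟨f', h1, h2, h3⟩ := hSUR K E c hcind P Q hP hQ
      have e1 : ∀ p : E8, P p.1.1 p.1.2 = ∑ k : J2 2 3, f' k.1 * rX p k := fun p => by
        rw [← h2]
        simp only [hrX]
        exact kX2 f' h1 _ _
      have e2 : ∀ p : E8, Q p.1.1 p.1.2 = ∑ k : J2 2 3, f' k.1 * rY p k := fun p => by
        rw [← h3]
        simp only [hrY]
        exact kY2 f' h1 _ _
      have e3 : ∀ k : J2 2 3, ∑ p : E8, g (Sum.inl p) * rX p k + ∑ p : E8, g (Sum.inr p) * rY p k = 0 := by
        intro k
        have := congrFun hg k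
        rw [Fintype.sum_sum_type] at this
        simpa [Finset.sum_apply] using this
      simp only [e1, e2, Finset.mul_sum]
      rw [Finset.sum_comm, Finset.sum_comm (s := (Finset.univ : Finset E8)) (f := fun p k => g (Sum.inr p) * (f' k.1 * rY p k)),
        ← Finset.sum_add_distrib]
      refine Finset.sum_eq_zero fun k _ => ?_
      have e4 := congrArg (fun z => f' k.1 * z) (e3 k)
      simp only [mul_add, Finset.mul_sum, mul_zero] at e4
      rw [← e4]
      congr 1
      · exact Finset.sum_congr rfl fun p _ => by ring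
      · exact Finset.sum_congr rfl fun p _ => by ring
    rintro (q | q)
    · obtain ⟨P, hP1, hP2⟩ := tless (R := E) q
      have := hmain P 0 hP1 (Matrix.trace_zero _ _)
      simpa [hP2] using this
    · obtain ⟨P, hP1, hP2⟩ := tless (R := E) q
      have := hmain 0 P (Matrix.trace_zero _ _) hP1
      simpa [hP2] using this
  have hXent : ∀ p : E8, XX (dv f) (part2 f) p.1.1 p.1.2 = ∑ k, algebraMap E M (rX p k) * part2 f k.1 := fun p => by
    simp only [hrX]
    exact kX1 _ _
  have hYent : ∀ p : E8, YY (dv f) (part2 f) p.1.1 p.1.2 = ∑ k, algebraMap E M (rY p k) * part2 f k.1 := fun p => by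
    simp only [hrY]
    exact kY1 _ _
  refine ⟨hind2.1, ?_, ?_⟩
  · have h1 := hAIL E M (J2 2 3) (E8 ⊕ E8) (fun j => part2 f j.1) (Sum.elim rX rY) hindE hr
    have h2 : (fun k : E8 ⊕ E8 => ∑ β : J2 2 3, algebraMap E M (Sum.elim rX rY k β) * part2 f β.1) =
        Sum.elim (fun p : E8 => XX (dv f) (part2 f) p.1.1 p.1.2) fun p : E8 => YY (dv f) (part2 f) p.1.1 p.1.2 := by
      funext k
      rcases k with p | p
      · exact (hXent p).symm
      · exact (hYent p).symm
    rw [h2] at h1
    exact h1.restrictScalars (algebraMap K E).injective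
  · have hrX' : LinearIndependent E rX := hr.comp Sum.inl Sum.inl_injective
    obtain ⟨n, w, hw1, hw2⟩ := ext_basis rX hrX'
    obtain ⟨z, hz⟩ : ∃ z : Fin n → M, ∀ i, z i = ∑ k : J2 2 3, algebraMap E M (w i k) * part2 f k.1 :=
      ⟨_, fun _ => rfl⟩
    have h1 := hAIL E M (J2 2 3) (E8 ⊕ Fin n) (fun j => part2 f j.1) (Sum.elim rX w) hindE hw1
    have h2 : (fun k : E8 ⊕ Fin n => ∑ β : J2 2 3, algebraMap E M (Sum.elim rX w k β) * part2 f β.1) =
        Sum.elim (fun p : E8 => XX (dv f) (part2 f) p.1.1 p.1.2) z := by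
      funext k
      rcases k with p | p
      · exact (hXent p).symm
      · exact (hz p).symm
    rw [h2, hE] at h1
    have h3 := AlgebraicIndependent.sumElim_iff.2
      ⟨hind2.1, IntermediateField.algebraicIndependent_adjoin_iff.1 h1⟩
    have h4 : AlgebraicIndependent K (Sum.elim (fun p : E8 => XX (dv f) (part2 f) p.1.1 p.1.2)
        (Sum.elim z (dv f))) := by
      have h5 := h3.comp (Equiv.sumAssoc E8 (Fin n) (Mon (2 + 1) 3)).symm
        (Equiv.sumAssoc E8 (Fin n) (Mon (2 + 1) 3)).symm.injective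
      convert h5 using 1
      funext k
      rcases k with p | p | p <;> rfl
    have h6 := AlgebraicIndependent.sumElim_iff.1 h4
    obtain ⟨K₁, hK₁⟩ : ∃ K₁ : IntermediateField K M,
        K₁ = IntermediateField.adjoin K (Set.range (Sum.elim z (dv f))) := ⟨_, rfl⟩
    refine ⟨K₁, ?_, ?_⟩
    · rw [hK₁]
      exact IntermediateField.algebraicIndependent_adjoin_iff.2 h6.2
    · obtain ⟨L, hL⟩ : ∃ L : IntermediateField K₁ M, L = IntermediateField.adjoin K₁
          (Set.range fun p : E8 => XX (dv f) (part2 f) p.1.1 p.1.2) := ⟨_, rfl⟩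
      rw [← hL]
      have hK1L : ∀ a ∈ K₁, a ∈ L := fun a ha => L.algebraMap_mem ⟨a, ha⟩
      have hdvL : ∀ β, dv f β ∈ L := fun β => hK1L _ (by
        rw [hK₁]
        exact IntermediateField.subset_adjoin K _ ⟨Sum.inr β, rfl⟩)
      have hzL : ∀ i, z i ∈ L := fun i => hK1L _ (by
        rw [hK₁]
        exact IntermediateField.subset_adjoin K _ ⟨Sum.inl i, rfl⟩)
      have hXL : ∀ p : E8, XX (dv f) (part2 f) p.1.1 p.1.2 ∈ L := fun p => by
        rw [hL]
        exact IntermediateField.subset_adjoin K₁ _ ⟨p, rfl⟩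
      have hEL : ∀ a : E, (a : M) ∈ L := by
        intro a
        have h7 : E ≤ K₁ := by
          rw [hE, hK₁, IntermediateField.adjoin_le_iff]
          rintro _ ⟨β, rfl⟩
          exact IntermediateField.subset_adjoin K _ ⟨Sum.inr β, rfl⟩
        exact hK1L _ (h7 a.2)
      have hspan : ∀ y : J2 2 3 → E, ∑ k : J2 2 3, algebraMap E M (y k) * part2 f k.1 ∈ L := by
        intro y
        have hy : y ∈ Submodule.span E (Set.range (Sum.elim rX w)) := by
          rw [hw2]; trivial
        induction hy using Submodule.span_induction with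
        | mem y hy =>
          obtain ⟨p | p, rfl⟩ := hy
          · have := hXL p
            rw [hXent] at this
            exact this
          · have := hzL p
            rw [hz] at this
            exact this
        | zero =>
          have : ∑ k : J2 2 3, algebraMap E M ((0 : J2 2 3 → E) k) * part2 f k.1 = 0 :=
            Finset.sum_eq_zero fun k _ => by rw [Pi.zero_apply, map_zero, zero_mul]
          rw [this]
          exact L.zero_mem
        | add y y' _ _ h1 h2 =>
          have : ∑ k : J2 2 3, algebraMap E M ((y + y') k) * part2 f k.1 =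
              (∑ k : J2 2 3, algebraMap E M (y k) * part2 f k.1) +
                ∑ k : J2 2 3, algebraMap E M (y' k) * part2 f k.1 := by
            rw [← Finset.sum_add_distrib]
            exact Finset.sum_congr rfl fun k _ => by rw [Pi.add_apply, map_add, add_mul]
          rw [this]
          exact L.add_mem h1 h2
        | smul a y _ h1 =>
          have : ∑ k : J2 2 3, algebraMap E M ((a • y) k) * part2 f k.1 =
              (a : M) * ∑ k : J2 2 3, algebraMap E M (y k) * part2 f k.1 := by
            rw [Finset.mul_sum]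
            refine Finset.sum_congr rfl fun k _ => ?_
            rw [Pi.smul_apply, smul_eq_mul, map_mul, mul_assoc]
            rfl
          rw [this]
          exact L.mul_mem (hEL a) h1
      have hu : ∀ j : J2 2 3, part2 f j.1 ∈ L := by
        intro j
        have h8 := hspan (Pi.single j 1)
        have h9 : ∑ k : J2 2 3, algebraMap E M ((Pi.single j 1 : J2 2 3 → E) k) * part2 f k.1 =
            part2 f j.1 := by
          rw [Finset.sum_eq_single j]
          · rw [Pi.single_eq_same, map_one, one_mul]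
          · intro k _ hk
            rw [Pi.single_eq_of_ne hk, map_zero, zero_mul]
          · intro h; exact absurd (Finset.mem_univ _) h
        rwa [h9] at h8
      have hall : IntermediateField.adjoin K (Set.range f) ≤ L.restrictScalars K := by
        rw [IntermediateField.adjoin_le_iff]
        rintro _ ⟨p, rfl⟩
        show f p ∈ L
        rw [hpf]
        refine L.add_mem ?_ (L.mul_mem ?_ ?_)
        · rw [hT1 p]
          refine sum_mem fun j _ => L.mul_mem ?_ (hu j)
          have h1 : ((T p j : ℚ) : M) = algebraMap E M (tj j p) := (htM j p).symm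
          rw [h1]
          exact hEL _
        · rw [hs]
          exact L.inv_mem (natCast_mem _ _)
        · have h10 := emb_mem hEMB (N := 2) (m := 3) E (dv f) hdE p
          exact hEL ⟨_, h10⟩
      rw [hgen] at hall
      rw [eq_top_iff]
      intro a _
      exact hall (IntermediateField.mem_top : a ∈ (⊤ : IntermediateField K M))

end Pool.Agent.Z15.MI
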