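import Pool.Agent.Z15.MI.Stm

/-! Project MI, task DE4: the two descents. -/

set_option autoImplicit false

namespace Pool.Agent.Z15.MI

open MvPolynomial Matrix Pool.Agent.Z15.ME Pool.Agent.Z15.MH

namespace DE4

section aux

variable {K M Ω : Type} [Field K] [Field M] [Field Ω] [Algebra K M] [Algebra M Ω] [Algebra K Ω]

theorem smul_mem' (J : IntermediateField K Ω) (S : Set Ω) (a x : Ω) (ha : a ∈ J)
    (hx : x ∈ Submodule.span J S) : a * x ∈ Submodule.span J S := by
  have := Submodule.smul_mem (Submodule.span J S) (⟨a, ha⟩ : J) hx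
  exact this

theorem span_mem (J L : IntermediateField K Ω) (h : J ≤ L) (S : Set Ω) (hS : ∀ x ∈ S, x ∈ L) (x : Ω)
    (hx : x ∈ Submodule.span J S) : x ∈ L := by
  induction hx using Submodule.span_induction with
  | mem x hx => exact hS x hx
  | zero => exact zero_mem _
  | add x y _ _ h1 h2 => exact add_mem h1 h2
  | smul a x _ h1 =>
    have h2 : a • x = (a : Ω) * x := rfl
    rw [h2]
    exact mul_mem (h a.2) h1

theorem span_le' (J J' : IntermediateField K Ω) (h : J ≤ J') (S S' : Set Ω) (hS : S ⊆ S') (x : Ω)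
    (hx : x ∈ Submodule.span J S) : x ∈ Submodule.span J' S' := by
  induction hx using Submodule.span_induction with
  | mem x hx => exact Submodule.subset_span (hS hx)
  | zero => exact Submodule.zero_mem _
  | add x y _ _ h1 h2 => exact Submodule.add_mem _ h1 h2
  | smul a x _ h1 =>
    have h2 : a • x = (a : Ω) * x := rfl
    rw [h2]
    exact smul_mem' J' _ _ _ (h a.2) h1

theorem fix_adjoin (φ : M →ₐ[K] M) (S : Set M) (hS : ∀ x ∈ S, φ x = x) (x : M)
    (hx : x ∈ IntermediateField.adjoin K S) : φ x = x := by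
  induction hx using IntermediateField.adjoin_induction with
  | mem x hx => exact hS x hx
  | algebraMap x => exact φ.commutes x
  | add x y _ _ h1 h2 => rw [map_add, h1, h2]
  | inv x _ h => rw [map_inv₀, h]
  | mul x y _ _ h1 h2 => rw [map_mul, h1, h2]

theorem map_adjoin [IsScalarTower K M Ω] (J : IntermediateField K Ω) (S : Set M) (hS : ∀ x ∈ S, algebraMap M Ω x ∈ J) (x : M)
    (hx : x ∈ IntermediateField.adjoin K S) : algebraMap M Ω x ∈ J := by
  induction hx using IntermediateField.adjoin_induction with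
  | mem x hx => exact hS x hx
  | algebraMap x =>
    rw [← IsScalarTower.algebraMap_apply]
    exact J.algebraMap_mem x
  | add x y _ _ h1 h2 => rw [map_add]; exact add_mem h1 h2
  | inv x _ h => rw [map_inv₀]; exact inv_mem h
  | mul x y _ _ h1 h2 => rw [map_mul]; exact mul_mem h1 h2

end aux

abbrev Q10 : Type := {p : Fin 4 × Fin 4 // p.1.1 + p.2.1 ≤ 3}

theorem card_Q10 : Fintype.card Q10 = Fintype.card (Fin 10) := by decide

theorem sum3 (β : Mon 3 3) : β.1 0 + β.1 1 + β.1 2 = 3 := by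
  have h := β.2
  rw [Finsupp.degree_eq_sum] at h
  simpa [Fin.sum_univ_three] using h

theorem exists_inj : ∃ ι : Mon 3 3 → Fin 10, Function.Injective ι := by
  let E : Q10 ≃ Fin 10 := Fintype.equivOfCardEq card_Q10
  let j : Mon 3 3 → Q10 := fun β => ⟨(⟨β.1 0, by have := sum3 β; omega⟩, ⟨β.1 1, by have := sum3 β; omega⟩), by
    have := sum3 β
    show β.1 0 + β.1 1 ≤ 3
    omega⟩
  refine ⟨fun β => E (j β), E.injective.comp ?_⟩
  intro β γ h
  have h1 : β.1 0 = γ.1 0 := congrArg (fun q : Q10 => q.1.1.1) h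
  have h2 : β.1 1 = γ.1 1 := congrArg (fun q : Q10 => q.1.2.1) h
  have h3 := sum3 β
  have h4 := sum3 γ
  apply Subtype.ext
  ext i
  fin_cases i
  · exact h1
  · exact h2
  · show β.1 2 = γ.1 2
    omega

theorem exists_enum {Ω : Type} [Zero Ω] (u : Mon 3 3 → Ω) : ∃ z : Fin 10 → Ω, ∀ β, u β ∈ Set.range z := by
  obtain ⟨ι, hι⟩ := exists_inj
  exact ⟨Function.extend ι u (fun _ => 0), fun β => ⟨ι β, hι.extend_apply u _ β⟩⟩

end DE4

open DE4 in
theorem t_DE4 (hFKW : S_FKW) (hDEW : S_DEW) (hON1 : S_ON1) (hSPJ : MH.S_SPJ) (hROW : S_ROW) (hMEW : S_MEW) (hEXW : S_EXW)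
    (hSP4 : S_SP4) : S_DE4 := by
  intro K M _ _ _ _ D Ω _ _ _ _ _ _ F
  obtain ⟨e, he1, he2, he3, he4⟩ := hFKW 1 K M D.toDW D.tX D.tY D.tXY Ω F
  obtain ⟨hM1, hM2, hM3⟩ := hMEW 1 K M D.toDW Ω F
  have hlJ : ∀ i, F.l i ∈ F.J (K := K) := fun i => IntermediateField.subset_adjoin _ _ (Or.inl ⟨i, rfl⟩)
  -- first descent
  have hJgen : ∀ N : IntermediateField K M, (∀ i, e i ∈ N) →
      F.J (K := K) ≤ IntermediateField.adjoin K (algebraMap M Ω '' (N : Set M) ∪ Set.range F.l) := by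
    intro N hN
    unfold FW.J
    rw [IntermediateField.adjoin_le_iff]
    rintro x (hx | ⟨p, rfl⟩)
    · exact IntermediateField.subset_adjoin _ _ (Or.inr hx)
    · refine IntermediateField.adjoin.mono K _ _ ?_ (he4 p.1 p.2)
      rintro x (⟨i, rfl⟩ | hx)
      · exact Or.inl ⟨e i, hN i, rfl⟩
      · exact Or.inr hx
  have hJ : ∀ y ∈ F.J (K := K), ∃ n : Fin 3 × Fin 2 → IntermediateField.adjoin K (Set.range e),
      y = ∑ a, algebraMap M Ω (n a) * mu F.l a := by
    intro y hy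
    exact hSPJ K M Ω D.X.charpoly F.l F.hl (IntermediateField.adjoin K (Set.range e)) he2 y
      (hJgen (IntermediateField.adjoin K (Set.range e)) (fun i => IntermediateField.subset_adjoin _ _ ⟨i, rfl⟩) hy)
  obtain ⟨z, hz⟩ := exists_enum (dv F.fh)
  obtain ⟨v, hv1, hv2⟩ := hDEW 1 K M D.toDW Ω F (F.J (K := K)) (IntermediateField.adjoin K (Set.range e)) hlJ hJ
    (fun x hx g => fix_adjoin (D.φ g) _ (by rintro _ ⟨i, rfl⟩; exact he1 i g) x hx)
    (Mon 3 (3 * 1)) (dv F.fh) hM3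
    (fun σ β => by
      obtain ⟨_, _, -, -, -, -, -, h, -⟩ := hROW 1 K M D.toDW Ω F σ
      exact h β)
    (fun g => by
      obtain ⟨ψ, h1, h2, -, -, h5⟩ := hEXW 1 K M D.toDW Ω F g
      exact ⟨ψ, h1, h2, h5⟩)
    10 z (fun β => Submodule.subset_span (hz β))
  -- second descent
  let N' : IntermediateField K M := IntermediateField.adjoin K (Set.range e ∪ Set.range v)
  let J' : IntermediateField K Ω := IntermediateField.adjoin K (algebraMap M Ω '' (N' : Set M) ∪ Set.range F.l)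
  have heN : ∀ i, e i ∈ N' := fun i => IntermediateField.subset_adjoin _ _ (Or.inl ⟨i, rfl⟩)
  have hvN : ∀ i, v i ∈ N' := fun i => IntermediateField.subset_adjoin _ _ (Or.inr ⟨i, rfl⟩)
  have hJJ : F.J (K := K) ≤ J' := hJgen N' heN
  have hNJ : ∀ x ∈ N', algebraMap M Ω x ∈ J' := fun x hx => IntermediateField.subset_adjoin _ _ (Or.inl ⟨x, hx, rfl⟩)
  have hlJ' : ∀ i, F.l i ∈ J' := fun i => hJJ (hlJ i)
  have hYJ' : ∀ i j, F.Yh i j ∈ J' := fun i j => hJJ (IntermediateField.subset_adjoin _ _ (Or.inr ⟨(i, j), rfl⟩))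
  have hdJ' : ∀ β, dv F.fh β ∈ J' := fun β => span_mem _ J' hJJ _ (by rintro _ ⟨i, rfl⟩; exact hNJ _ (hvN i)) _ (hv2 β)
  obtain ⟨z, hz⟩ := hSP4 K M D Ω F J' hlJ' hYJ' hdJ'
  have hJ' : ∀ y ∈ J', ∃ n : Fin 3 × Fin 2 → N', y = ∑ a, algebraMap M Ω (n a) * mu F.l a := by
    intro y hy
    exact hSPJ K M Ω D.X.charpoly F.l F.hl N' (fun i => IntermediateField.adjoin.mono K _ _ Set.subset_union_left (he2 i)) y hy
  let u : Option (Ix 2 (3 * 1)) → Ω := fun o => o.elim 1 F.fh
  have hu0 : u none = 1 := rfl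
  have hu1 : ∀ p, u (some p) = F.fh p := fun p => rfl
  obtain ⟨w', hw1, hw2⟩ := hDEW 1 K M D.toDW Ω F J' N' hlJ' hJ'
    (fun x hx g => fix_adjoin (D.φ g) _ (by
      rintro _ (⟨i, rfl⟩ | ⟨i, rfl⟩)
      · exact he1 i g
      · exact hv1 i g) x hx)
    (Option (Ix 2 (3 * 1))) u
    (fun i => by
      rcases i with _ | p
      · rw [hu0]; exact one_mem _
      · rw [hu1]; exact hM2 p)
    (fun σ i => by
      rcases i with _ | p
      · rw [hu0, map_one]; exact Submodule.subset_span ⟨none, rfl⟩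
      · rw [hu1]
        obtain ⟨_, _, -, -, -, -, h, -, -⟩ := hROW 1 K M D.toDW Ω F σ
        refine span_le' _ J' hJJ _ _ ?_ _ (h p)
        rintro _ ⟨q, rfl⟩
        exact ⟨some q, rfl⟩)
    (fun g => by
      obtain ⟨ψ, h1, h2, -, h4, -⟩ := hEXW 1 K M D.toDW Ω F g
      refine ⟨ψ, h1, h2, fun i => ?_⟩
      rcases i with _ | p
      · rw [hu0, map_one]
      · rw [hu1]; exact h4 p)
    (19 + 1) (Fin.cons 1 z)
    (fun i => by
      rw [Fin.range_cons]
      rcases i with _ | p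
      · rw [hu0]; exact Submodule.subset_span (Or.inl rfl)
      · rw [hu1]; exact hz p)
  obtain ⟨τ, hτ⟩ := hON1 J' Ω 19 (fun i => algebraMap M Ω (w' i)) (hw2 none)
  refine ⟨e, v, fun i => w' (τ i), he1, hv1, fun i g => hw1 (τ i) g, he2, he4, fun p => ?_⟩
  refine span_mem J' _ ?_ _ ?_ _ (hτ (hw2 (some p)))
  · rw [IntermediateField.adjoin_le_iff]
    rintro _ (⟨x, hx, rfl⟩ | hx)
    · refine map_adjoin _ _ ?_ x hx
      rintro y (hy | hy)
      · exact IntermediateField.subset_adjoin _ _ (Or.inl ⟨y, Or.inl (Or.inl hy), rfl⟩)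
      · exact IntermediateField.subset_adjoin _ _ (Or.inl ⟨y, Or.inl (Or.inr hy), rfl⟩)
    · exact IntermediateField.subset_adjoin _ _ (Or.inr hx)
  · rintro _ (rfl | ⟨i, rfl⟩)
    · exact one_mem _
    · exact IntermediateField.subset_adjoin _ _ (Or.inl ⟨w' (τ i), Or.inr ⟨i, rfl⟩, rfl⟩)

end Pool.Agent.Z15.MI
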