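import Pool.Agent.Z15.MI.Stm

set_option autoImplicit false

namespace Pool.Agent.Z15.MI

open MvPolynomial Matrix Pool.Agent.Z15.ME Pool.Agent.Z15.MH

namespace DEW

/-- multiplication by an element of `J` -/
theorem smul_mem' {K Ω : Type} [Field K] [Field Ω] [Algebra K Ω] (J : IntermediateField K Ω) (S : Set Ω) (a x : Ω)
    (ha : a ∈ J) (hx : x ∈ Submodule.span J S) : a * x ∈ Submodule.span J S := by
  have := Submodule.smul_mem (Submodule.span J S) (⟨a, ha⟩ : J) hx
  exact this

/-- extraction: a family in the span of `d` elements is in the span of `d` of its members (or zero) -/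
theorem extract {J Ω Q M : Type} [Field J] [Field Ω] [Algebra J Ω] [Zero M] (ι : M → Ω) (w : Q → M) (d : ℕ)
    (z : Fin d → Ω) (h : ∀ q, ι (w q) ∈ Submodule.span J (Set.range z)) :
    ∃ v : Fin d → M, (∀ i, v i = 0 ∨ ∃ q, v i = w q) ∧
      ∀ q, ι (w q) ∈ Submodule.span J (Set.range fun i => ι (v i)) := by
  classical
  obtain ⟨b, hb1, hb2, hb3⟩ := exists_linearIndependent J (Set.range fun q => ι (w q))
  have hfin : FiniteDimensional J (Submodule.span J (Set.range z)) := FiniteDimensional.span_of_finite J (Set.finite_range z)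
  have hbz : ∀ x ∈ b, x ∈ Submodule.span J (Set.range z) := by
    intro x hx
    obtain ⟨q, rfl⟩ := hb1 hx
    exact h q
  -- the family in the span
  have hli : LinearIndependent J (fun x : b => (⟨x.1, hbz x.1 x.2⟩ : Submodule.span J (Set.range z))) := by
    refine LinearIndependent.of_comp (Submodule.span J (Set.range z)).subtype ?_
    exact hb3
  haveI : Finite b := hli.finite
  haveI : Fintype b := Fintype.ofFinite b
  have hcard : Fintype.card b ≤ d := by
    have h1 := hli.fintype_card_le_finrank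
    have h2 : Module.finrank J (Submodule.span J (Set.range z)) ≤ Fintype.card (Fin d) := finrank_range_le_card z
    rw [Fintype.card_fin] at h2
    exact h1.trans h2
  have hch : ∀ x : b, ∃ q, ι (w q) = x.1 := fun x => hb1 x.2
  choose q hq using hch
  let e := Fintype.equivFin b
  refine ⟨fun i => if hi : i.1 < Fintype.card b then w (q (e.symm ⟨i.1, hi⟩)) else 0, fun i => ?_, fun p => ?_⟩
  · by_cases hi : i.1 < Fintype.card b
    · right
      exact ⟨q (e.symm ⟨i.1, hi⟩), dif_pos hi⟩
    · left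
      exact dif_neg hi
  · have h1 : ι (w p) ∈ Submodule.span J b := by
      rw [hb2]
      exact Submodule.subset_span ⟨p, rfl⟩
    refine (Submodule.span_le.2 ?_ : Submodule.span J b ≤ _) h1
    intro x hx
    have h2 : (e ⟨x, hx⟩).1 < Fintype.card b := (e ⟨x, hx⟩).2
    refine Submodule.subset_span ⟨⟨(e ⟨x, hx⟩).1, h2.trans_le hcard⟩, ?_⟩
    have h3 : (⟨(e ⟨x, hx⟩).1, h2⟩ : Fin (Fintype.card b)) = e ⟨x, hx⟩ := rfl
    simp only [dif_pos h2, h3, Equiv.symm_apply_apply]
    exact hq ⟨x, hx⟩

end DEW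

open DEW in
theorem t_DEW (hSPJ : Pool.Agent.Z15.MH.S_SPJ) (hCOF : Pool.Agent.Z15.MH.S_COF) (_hLAD : Pool.Agent.Z15.MH.S_LAD) :
    S_DEW := by
  intro k K M _ _ _ _ D Ω _ _ _ _ _ _ F J' N' hl _ _ I _ u hu hσu hψ d z hz
  haveI : CharZero M := charZero_of_injective_algebraMap (algebraMap K M).injective
  haveI : CharZero Ω := charZero_of_injective_algebraMap (algebraMap M Ω).injective
  have hli := F.li
  -- the coefficients
  have hw : ∀ i, ∃ w : Fin 3 × Fin 2 → M, u i = ∑ a, algebraMap M Ω (w a) * mu F.l a := by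
    intro i
    obtain ⟨n, hn⟩ := hSPJ M M Ω D.X.charpoly F.l F.hl ⊤ (fun _ => trivial) (u i)
      (IntermediateField.adjoin.mono M _ _ Set.subset_union_right (hu i))
    exact ⟨fun a => (n a : M), hn⟩
  choose w hw using hw
  -- invariance
  have hinv : ∀ i a g, D.φ g (w i a) = w i a := by
    intro i a g
    obtain ⟨ψ, h1, h2, h4⟩ := hψ g
    have hmu : ∀ a, ψ (mu F.l a) = mu F.l a := by
      intro a
      unfold mu
      rw [map_mul, map_pow, map_pow, h2, h2]
    have h5 := h4 i
    rw [hw i, map_sum] at h5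
    have h6 : ∑ a, (D.φ g (w i a) - w i a) • mu F.l a = 0 := by
      have : ∑ a, algebraMap M Ω (D.φ g (w i a)) * mu F.l a = ∑ a, algebraMap M Ω (w i a) * mu F.l a := by
        rw [← h5]
        refine Finset.sum_congr rfl fun a _ => ?_
        rw [map_mul, h1, hmu]
      rw [← sub_eq_zero, ← Finset.sum_sub_distrib] at this
      rw [← this]
      refine Finset.sum_congr rfl fun a _ => ?_
      rw [Algebra.smul_def, map_sub, sub_mul]
    exact sub_eq_zero.1 ((Fintype.linearIndependent_iff.1 hli) _ h6 a)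
  have hle : Submodule.span J' (Set.range u) ≤ Submodule.span J' (Set.range z) := by
    rw [Submodule.span_le]
    rintro _ ⟨p, rfl⟩
    exact hz p
  -- the coefficients are in the span
  choose σ hσ using F.pe
  have hwz : ∀ q : I × (Fin 3 × Fin 2), algebraMap M Ω (w q.1 q.2) ∈ Submodule.span J' (Set.range z) := by
    rintro ⟨i, a⟩
    have h1 := hCOF K M Ω D.X.charpoly F.l F.hl hli J' hl σ hσ (w i) a
    refine (Submodule.span_le.2 ?_ : _ ≤ Submodule.span J' (Set.range z)) h1
    rintro _ ⟨π, rfl⟩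
    have h2 : (fun π : Equiv.Perm (Fin 3) => σ π (∑ b, algebraMap M Ω (w i b) * mu F.l b)) π = σ π (u i) := by
      rw [hw i]
    rw [h2]
    exact hle (hσu (σ π) i)
  obtain ⟨v, hv1, hv2⟩ := extract (J := J') (fun x : M => algebraMap M Ω x) (fun q : I × (Fin 3 × Fin 2) => w q.1 q.2) d z hwz
  refine ⟨v, fun i g => ?_, fun i => ?_⟩
  · rcases hv1 i with h | ⟨q, h⟩
    · rw [h, map_zero]
    · rw [h, hinv]
  · rw [hw i]
    refine Submodule.sum_mem _ fun a _ => ?_
    rw [mul_comm (algebraMap M Ω (w i a))]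
    exact smul_mem' _ _ _ _ (mul_mem (pow_mem (hl 0) _) (pow_mem (hl 1) _)) (hv2 (i, a))

end Pool.Agent.Z15.MI
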