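import Pool.Agent.Z15.MI.Stm

set_option autoImplicit false

namespace Pool.Agent.Z15.MI

open MvPolynomial Matrix Pool.Agent.Z15.ME Pool.Agent.Z15.MH

namespace EPS

variable {R : Type} [CommRing R]

theorem ep_val : ∀ a b c : Fin 3, ep a b c = (Matrix.of ![![(0 : ℤ), 0, 0], ![0, 0, 1], ![0, -1, 0]] b c) * (if a = 0 then 1 else 0) +
    (Matrix.of ![![(0 : ℤ), 0, -1], ![0, 0, 0], ![1, 0, 0]] b c) * (if a = 1 then 1 else 0) +
    (Matrix.of ![![(0 : ℤ), 1, 0], ![-1, 0, 0], ![0, 0, 0]] b c) * (if a = 2 then 1 else 0) := by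
  intro a b c
  unfold ep
  rw [Matrix.det_fin_three]
  revert a b c
  decide

theorem sum_eq_det (x y z : Fin 3 → R) :
    ∑ a, ∑ b, ∑ c, ((ep a b c : ℤ) : R) * x a * y b * z c = (Matrix.of ![x, y, z]).det := by
  simp only [Fin.sum_univ_three, ep_val, Matrix.det_fin_three]
  simp
  ring

theorem rows (A : Matrix (Fin 3) (Fin 3) R) (a b c : Fin 3) :
    Matrix.of ![A a, A b, A c] =
      (Int.castRingHom R).mapMatrix (Matrix.of ![Pi.single a 1, Pi.single b 1, Pi.single c 1]) * A := by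
  ext i j
  rw [Matrix.mul_apply]
  fin_cases i
  · simp [Pi.single_apply]
  · simp [Pi.single_apply]
  · simp [Pi.single_apply]

theorem first (A : Matrix (Fin 3) (Fin 3) R) (a' b' c' : Fin 3) :
    ∑ a, ∑ b, ∑ c, ((ep a b c : ℤ) : R) * A a' a * A b' b * A c' c = ((ep a' b' c' : ℤ) : R) * A.det := by
  rw [sum_eq_det (A a') (A b') (A c'), rows, Matrix.det_mul, ← RingHom.map_det]
  rfl

theorem second (A A' : Matrix (Fin 3) (Fin 3) R) (h : A * A' = 1) (i b' c' : Fin 3) :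
    ∑ b, ∑ c, ((ep i b c : ℤ) : R) * A' b' b * A' c' c = A'.det * ∑ i', ((ep i' b' c' : ℤ) : R) * A i i' := by
  have h1 : ∀ a, ∑ i', A i i' * A' i' a = if i = a then 1 else 0 := by
    intro a
    rw [← Matrix.mul_apply, h, Matrix.one_apply]
  have h2 : ∀ i', ((ep i' b' c' : ℤ) : R) * A'.det =
      ∑ a, ∑ b, ∑ c, ((ep a b c : ℤ) : R) * A' i' a * A' b' b * A' c' c := fun i' => (first A' i' b' c').symm
  have h3 : A'.det * ∑ i', ((ep i' b' c' : ℤ) : R) * A i i' =
      ∑ i', A i i' * (((ep i' b' c' : ℤ) : R) * A'.det) := by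
    rw [Finset.mul_sum]
    exact Finset.sum_congr rfl fun i' _ => by ring
  rw [h3]
  simp only [h2]
  have h4 : ∑ i', A i i' * ∑ a, ∑ b, ∑ c, ((ep a b c : ℤ) : R) * A' i' a * A' b' b * A' c' c =
      ∑ a, ∑ b, ∑ c, ((ep a b c : ℤ) : R) * (∑ i', A i i' * A' i' a) * A' b' b * A' c' c := by
    simp only [Finset.mul_sum, Finset.sum_mul]
    rw [Finset.sum_comm]
    refine Finset.sum_congr rfl fun a _ => ?_
    rw [Finset.sum_comm]
    refine Finset.sum_congr rfl fun b _ => ?_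
    rw [Finset.sum_comm]
    refine Finset.sum_congr rfl fun c _ => Finset.sum_congr rfl fun i' _ => ?_
    ring
  rw [h4]
  simp only [h1]
  simp

end EPS

theorem t_EPS : S_EPS := fun _ _ => ⟨EPS.first, EPS.second⟩

end Pool.Agent.Z15.MI
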