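import Pool.Agent.Z15.MI.Stm
import Pool.Agent.Z15.MH.T_EXF

/-! Project MI, task EX4: the eigenvalues and the frame exist. -/

set_option autoImplicit false

namespace Pool.Agent.Z15.MI

open MvPolynomial Matrix Pool.Agent.Z15.ME Pool.Agent.Z15.MH

namespace EX4

lemma pair (Ω : Type) [Field Ω] (l : Fin 3 → Ω)
    (h5 : (l 0 - l 1) * (l 1 - l 2) * (l 2 - l 0) ≠ 0) : ∀ i j, i ≠ j → l i ≠ l j := by
  have h01 : l 0 ≠ l 1 := fun h => h5 (by rw [h]; ring)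
  have h12 : l 1 ≠ l 2 := fun h => h5 (by rw [h]; ring)
  have h20 : l 2 ≠ l 0 := fun h => h5 (by rw [h]; ring)
  intro i j
  match i, j with
  | 0, 0 => exact fun h => absurd rfl h
  | 0, 1 => exact fun _ => h01
  | 0, 2 => exact fun _ => h20.symm
  | 1, 0 => exact fun _ => h01.symm
  | 1, 1 => exact fun h => absurd rfl h
  | 1, 2 => exact fun _ => h12
  | 2, 0 => exact fun _ => h20
  | 2, 1 => exact fun _ => h12.symm
  | 2, 2 => exact fun h => absurd rfl h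

end EX4

theorem t_EX4 (hAI4 : S_AI4) (hIR4 : S_IR4) (hIN6 : MH.S_IN6) (hPRM : MH.S_PRM)
    (hFR4 : S_FR4) : S_EX4 := by
  intro K M _ _ _ _ D Ω _ _ _ _
  haveI : CharZero M := charZero_of_injective_algebraMap (algebraMap K M).injective
  obtain ⟨-, hi, K₁, hi1, hg1⟩ := hAI4 K M D.f D.ind D.gen
  haveI : CharZero K₁ := charZero_of_injective_algebraMap (algebraMap K K₁).injective
  obtain ⟨X, hX⟩ : ∃ X : Matrix (Fin 3) (Fin 3) M, X = XX (dv D.f) (part2 D.f) := ⟨_, rfl⟩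
  obtain ⟨Y, hY⟩ : ∃ Y : Matrix (Fin 3) (Fin 3) M, Y = YY (dv D.f) (part2 D.f) := ⟨_, rfl⟩
  have eX : D.s ^ 3 • D.X = X := D.eX.trans hX.symm
  have eY : D.s ^ 4 • D.Y = Y := D.eY.trans hY.symm
  have hi' : AlgebraicIndependent K (Sum.elim (fun p : E8 => X p.1.1 p.1.2)
      fun p : E8 => Y p.1.1 p.1.2) := by
    rw [hX, hY]
    exact hi
  have hi1' : AlgebraicIndependent K₁ (fun p : E8 => X p.1.1 p.1.2) := by
    rw [hX]
    exact hi1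
  have hg1' : IntermediateField.adjoin K₁ (Set.range fun p : E8 => X p.1.1 p.1.2) = ⊤ := by
    rw [hX]
    exact hg1
  have hs3 : D.s ^ 3 ≠ 0 := pow_ne_zero _ D.s0
  have hs4 : D.s ^ 4 ≠ 0 := pow_ne_zero _ D.s0
  have fX : (D.s ^ 3)⁻¹ • X = D.X := by
    rw [← eX, smul_smul, inv_mul_cancel₀ hs3, one_smul]
  have fY : (D.s ^ 4)⁻¹ • Y = D.Y := by
    rw [← eY, smul_smul, inv_mul_cancel₀ hs4, one_smul]
  have tX : X.trace = 0 := by
    rw [← eX, Matrix.trace_smul, D.tX, smul_zero]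
  have tY : Y.trace = 0 := by
    rw [← eY, Matrix.trace_smul, D.tY, smul_zero]
  obtain ⟨l, hl⟩ := EXF.roots (Ω := Ω) D.X
  obtain ⟨h1, h2⟩ := hIR4 K₁ M X tX hi1' hg1' (D.s ^ 3)⁻¹ (inv_ne_zero hs3)
  rw [fX] at h1 h2
  have h3 := h2 Ω l hl
  have h4 := hIN6 M Ω D.X.charpoly l hl h1 h3
  have h5 : (l 0 - l 1) * (l 1 - l 2) * (l 2 - l 0) ≠ 0 := by
    intro h
    exact h3 ⟨0, by rw [map_zero, h]⟩
  have h6 := EX4.pair Ω l h5
  obtain ⟨B, B', hB, hu⟩ := hFR4 K M Ω X Y D.H (D.s ^ 3)⁻¹ (D.s ^ 4)⁻¹ 1 le_rfl D.H0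
    (inv_ne_zero hs3) (inv_ne_zero hs4) tX tY hi' l (by rw [fX]; exact hl) h6
  rw [fX, fY] at hB
  rw [fY] at hu
  exact ⟨⟨l, hl, h4, h6, hPRM M Ω D.X.charpoly l hl h4, B, B', hB, hu⟩⟩

end Pool.Agent.Z15.MI
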