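import Pool.Agent.Z15.MI.Stm

/-!
# Project MI, task FER (helper26): the matrices at the Fermat cubic
-/

set_option autoImplicit false

namespace Pool.Agent.Z15.MI

namespace FER

open MvPolynomial Matrix Pool.Agent.Z15.ME Pool.Agent.Z15.MH

/-- the values of `ep` -/
def tab (a b c : Fin 3) : ℤ := ![![![0, 0, 0], ![0, 0, 1], ![0, -1, 0]], ![![0, 0, -1], ![0, 0, 0], ![1, 0, 0]],
  ![![0, 1, 0], ![-1, 0, 0], ![0, 0, 0]]] a b c

theorem ep_tab (a b c : Fin 3) : ep a b c = tab a b c := by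
  unfold ep
  rw [Matrix.det_fin_three]
  fin_cases a <;> fin_cases b <;> fin_cases c <;> simp [tab]

section
variable {M : Type} [Field M]

theorem e20 (G : Fin 3 → Fin 3 → M) : ∑ a, ∑ b, ((ep 0 a b : ℤ) : M) * G a b = G 1 2 - G 2 1 := by
  simp only [ep_tab]
  simp [Fin.sum_univ_three, tab]
  ring

theorem e21 (G : Fin 3 → Fin 3 → M) : ∑ a, ∑ b, ((ep 1 a b : ℤ) : M) * G a b = G 2 0 - G 0 2 := by
  simp only [ep_tab]
  simp [Fin.sum_univ_three, tab]
  ring

theorem e22 (G : Fin 3 → Fin 3 → M) : ∑ a, ∑ b, ((ep 2 a b : ℤ) : M) * G a b = G 0 1 - G 1 0 := by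
  simp only [ep_tab]
  simp [Fin.sum_univ_three, tab]
  ring

theorem e3 (G : Fin 3 → Fin 3 → Fin 3 → M) : ∑ a, ∑ b, ∑ e, ((ep a b e : ℤ) : M) * G a b e =
    G 0 1 2 + G 1 2 0 + G 2 0 1 - G 0 2 1 - G 1 0 2 - G 2 1 0 := by
  simp only [ep_tab]
  simp [Fin.sum_univ_three, tab]
  ring

theorem XXc (F : Mon 3 3 → M) (f : Fin 3 × Mon 3 4 → M) (i j : Fin 3)
    (ht : ∀ a b c, t3 F a b c = if a = b ∧ b = c then 6 else 0) :
    XX F f i j = ∑ a, ∑ b, ((ep i a b : ℤ) : M) *
      (∑ c, ∑ d, ∑ g, ((ep c d b * ep g d b : ℤ) : M) * t4 f d a c g j * 36) := by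
  unfold XX
  simp only [Matrix.of_apply, ht]
  refine Finset.sum_congr rfl fun a _ => Finset.sum_congr rfl fun b _ => ?_
  rw [Finset.mul_sum]
  refine Finset.sum_congr rfl fun c _ => ?_
  rw [Finset.mul_sum]
  refine Finset.sum_congr rfl fun d _ => ?_
  rw [Finset.sum_eq_single b (fun e _ he => by simp [Ne.symm he]) (fun h => absurd (Finset.mem_univ _) h),
    Finset.mul_sum]
  refine Finset.sum_congr rfl fun g _ => ?_
  rw [Finset.sum_eq_single d (fun e _ he => by simp [Ne.symm he]) (fun h => absurd (Finset.mem_univ _) h),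
    Finset.sum_eq_single b (fun e _ he => by simp [Ne.symm he]) (fun h => absurd (Finset.mem_univ _) h),
    Finset.sum_eq_single d (fun e _ he => by simp [he]) (fun h => absurd (Finset.mem_univ _) h)]
  simp only [and_self, if_true]
  push_cast
  ring

theorem YYc (F : Mon 3 3 → M) (f : Fin 3 × Mon 3 4 → M) (i j : Fin 3)
    (ht : ∀ a b c, t3 F a b c = if a = b ∧ b = c then 6 else 0) :
    YY F f i j = ∑ a, ∑ b, ∑ e, ((ep a b e : ℤ) : M) *
      (∑ c, ∑ g, ∑ p, ((ep a b c * ep a e g * ep b e p : ℤ) : M) * t4 f i c g p j * 216) := by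
  have hF : t3 F = fun a b c => if a = b ∧ b = c then 6 else 0 := by
    funext a b c
    exact ht a b c
  unfold YY
  rw [Matrix.of_apply, hF]
  beta_reduce
  refine Finset.sum_congr rfl fun a _ => Finset.sum_congr rfl fun b _ => ?_
  refine Eq.trans (Finset.sum_congr rfl fun c _ => Finset.sum_eq_single a (fun d _ hd => by
    simp only [Ne.symm hd, false_and, if_false, mul_zero, zero_mul, Finset.sum_const_zero])
    (fun h => absurd (Finset.mem_univ _) h)) ?_
  rw [Finset.sum_comm]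
  refine Finset.sum_congr rfl fun e _ => ?_
  rw [Finset.mul_sum]
  refine Finset.sum_congr rfl fun c _ => ?_
  rw [Finset.mul_sum]
  refine Finset.sum_congr rfl fun g _ => ?_
  rw [Finset.sum_eq_single b (fun e _ he => by
      simp only [Ne.symm he, and_false, false_and, if_false, mul_zero, zero_mul, Finset.sum_const_zero]) (fun h => absurd (Finset.mem_univ _) h),
    Finset.sum_eq_single e (fun e _ he => by
      simp only [Ne.symm he, and_false, false_and, if_false, mul_zero, zero_mul, Finset.sum_const_zero]) (fun h => absurd (Finset.mem_univ _) h),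
    Finset.mul_sum]
  refine Finset.sum_congr rfl fun p _ => ?_
  rw [Finset.sum_eq_single a (fun e _ he => by
      simp only [Ne.symm he, and_false, false_and, if_false, mul_zero, zero_mul, Finset.sum_const_zero]) (fun h => absurd (Finset.mem_univ _) h),
    Finset.sum_eq_single b (fun e _ he => by
      simp only [Ne.symm he, and_false, false_and, if_false, mul_zero, zero_mul, Finset.sum_const_zero]) (fun h => absurd (Finset.mem_univ _) h),
    Finset.sum_eq_single e (fun e _ he => by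
      simp only [Ne.symm he, and_false, false_and, if_false, mul_zero, zero_mul, Finset.sum_const_zero]) (fun h => absurd (Finset.mem_univ _) h)]
  simp only [and_self, if_true]
  push_cast
  ring

/-- the fourth derivatives -/
def U (P Q : Matrix (Fin 3) (Fin 3) M) (n : Fin 3) (x y z : ℕ) : M :=
  if n = 0 then
    (if (x, y, z) = (0, 4, 0) then P 0 1 / 36 - Q 2 0 / 1296 else
    if (x, y, z) = (0, 0, 4) then -P 0 2 / 36 - Q 1 0 / 1296 else
    if (x, y, z) = (1, 3, 0) then -P 1 1 / 36 else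
    if (x, y, z) = (1, 0, 3) then P 2 2 / 36 else
    if (x, y, z) = (3, 1, 0) then Q 2 0 / 1296 else
    if (x, y, z) = (3, 0, 1) then Q 1 0 / 1296 else
    if (x, y, z) = (2, 1, 1) then -Q 0 0 / 1296 else
    if (x, y, z) = (1, 2, 1) then -Q 0 1 / 1296 else
    if (x, y, z) = (1, 1, 2) then -Q 0 2 / 1296 else 0)
  else if n = 1 then
    (if (x, y, z) = (0, 4, 0) then P 1 1 / 36 else
    if (x, y, z) = (4, 0, 0) then -P 1 0 / 36 - Q 2 1 / 1296 else
    if (x, y, z) = (0, 0, 4) then P 1 2 / 36 - Q 0 1 / 1296 else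
    if (x, y, z) = (1, 3, 0) then Q 2 1 / 1296 else
    if (x, y, z) = (0, 3, 1) then Q 0 1 / 1296 else
    if (x, y, z) = (2, 1, 1) then -Q 1 0 / 1296 else
    if (x, y, z) = (1, 2, 1) then -Q 1 1 / 1296 else
    if (x, y, z) = (1, 1, 2) then -Q 1 2 / 1296 else 0)
  else
    (if (x, y, z) = (0, 0, 4) then -P 2 2 / 36 else
    if (x, y, z) = (4, 0, 0) then P 2 0 / 36 - Q 1 2 / 1296 else
    if (x, y, z) = (0, 4, 0) then -P 2 1 / 36 - Q 0 2 / 1296 else
    if (x, y, z) = (1, 0, 3) then Q 1 2 / 1296 else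
    if (x, y, z) = (0, 1, 3) then Q 0 2 / 1296 else
    if (x, y, z) = (2, 1, 1) then -Q 2 0 / 1296 else
    if (x, y, z) = (1, 2, 1) then -Q 2 1 / 1296 else
    if (x, y, z) = (1, 1, 2) then -Q 2 2 / 1296 else 0)

/-- the self map -/
noncomputable def ff (P Q : Matrix (Fin 3) (Fin 3) M) : Fin 3 × Mon 3 4 → M := fun p =>
  U P Q p.1 (p.2.1 0) (p.2.1 1) (p.2.1 2) / ((p.2.1 0).factorial * (p.2.1 1).factorial * (p.2.1 2).factorial : ℕ)

/-- the number of the indices equal to `k` -/
def cnt (a b c d k : Fin 3) : ℕ := (if a = k then 1 else 0) + (if b = k then 1 else 0) + (if c = k then 1 else 0) +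
  (if d = k then 1 else 0)

/-- the factor -/
def W (a b c d : Fin 3) : ℕ := ((if a = b then 1 else 0) + 1) * ((if a = c then 1 else 0) + (if b = c then 1 else 0) + 1) *
  ((if a = d then 1 else 0) + (if b = d then 1 else 0) + (if c = d then 1 else 0) + 1)

theorem W_eq : ∀ a b c d : Fin 3, W a b c d =
    (cnt a b c d 0).factorial * (cnt a b c d 1).factorial * (cnt a b c d 2).factorial := by
  decide

theorem coeff_pol' {n d : ℕ} {R : Type} [CommRing R] (c : Mon n d → R) (β : Mon n d) : coeff β.1 (pol c) = c β := by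
  classical
  unfold pol
  rw [coeff_sum]
  simp only [coeff_monomial]
  rw [Finset.sum_eq_single β]
  · simp
  · intro α _ h
    rw [if_neg fun h' => h (Subtype.ext h')]
  · intro h
    exact absurd (Finset.mem_univ _) h

theorem eval0 (p : MvPolynomial (Fin 3) M) : eval (0 : Fin 3 → M) p = coeff 0 p := by
  rw [← MvPolynomial.constantCoeff_eq, MvPolynomial.eval_zero]

theorem t4_ff [CharZero M] (P Q : Matrix (Fin 3) (Fin 3) M) (n a b c d : Fin 3) :
    t4 (ff P Q) n a b c d = U P Q n (cnt a b c d 0) (cnt a b c d 1) (cnt a b c d 2) := by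
  classical
  unfold t4
  rw [eval0, coeff_pderiv, coeff_pderiv, coeff_pderiv, coeff_pderiv]
  have hdeg : (0 + Finsupp.single a 1 + Finsupp.single b 1 + Finsupp.single c 1 + Finsupp.single d 1 :
      Fin 3 →₀ ℕ).degree = 4 := by
    simp [map_add, Finsupp.degree_single]
  have h1 : coeff (0 + Finsupp.single a 1 + Finsupp.single b 1 + Finsupp.single c 1 + Finsupp.single d 1)
      (cmp (ff P Q) n) = ff P Q (n, ⟨_, hdeg⟩) := coeff_pol' _ ⟨_, hdeg⟩
  rw [h1]
  have hc : ∀ k : Fin 3, (0 + Finsupp.single a 1 + Finsupp.single b 1 + Finsupp.single c 1 + Finsupp.single d 1 :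
      Fin 3 →₀ ℕ) k = cnt a b c d k := by
    intro k
    simp [cnt, Finsupp.single_apply]
  unfold ff
  simp only [hc]
  have hW := W_eq a b c d
  have hW' : ((W a b c d : ℕ) : M) = ((cnt a b c d 0).factorial * (cnt a b c d 1).factorial *
      (cnt a b c d 2).factorial : ℕ) := by rw [hW]
  have hne : (((cnt a b c d 0).factorial * (cnt a b c d 1).factorial * (cnt a b c d 2).factorial : ℕ) : M) ≠ 0 := by
    rw [Nat.cast_ne_zero]
    positivity
  rw [div_mul_eq_mul_div, div_mul_eq_mul_div, div_mul_eq_mul_div, div_mul_eq_mul_div, div_eq_iff hne, ← hW']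
  unfold W
  simp only [Finsupp.add_apply, Finsupp.single_apply, Finsupp.coe_zero, Pi.zero_apply]
  push_cast
  ring


theorem t3_fermat {F : Mon 3 3 → M} (hF : pol F = X 0 ^ 3 + X 1 ^ 3 + X 2 ^ 3) (a b c : Fin 3) :
    t3 F a b c = if a = b ∧ b = c then 6 else 0 := by
  unfold t3
  rw [hF]
  fin_cases a <;> fin_cases b <;> fin_cases c <;>
    simp [Derivation.leibniz_pow, pderiv_X] <;> rw [map_ofNat, map_ofNat] <;> norm_num

theorem dv_ff [CharZero M] (P Q : Matrix (Fin 3) (Fin 3) M) (hQ : Q.trace = 0) (β : Mon 3 3) : dv (ff P Q) β = 0 := by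
  classical
  rw [Matrix.trace_fin_three] at hQ
  have hd : β.1 0 + β.1 1 + β.1 2 = 3 := by
    have h := β.2
    rw [Finsupp.degree_eq_sum, Fin.sum_univ_three] at h
    exact h
  have hk : ∀ k : Fin 3, (β.1 + Finsupp.single k 1).degree = 4 := by
    intro k
    rw [map_add, β.2, Finsupp.degree_single]
  have h1 : dv (ff P Q) β = ∑ k : Fin 3, ff P Q (k, ⟨β.1 + Finsupp.single k 1, hk k⟩) * ((β.1 k : M) + 1) := by
    unfold dv cf
    rw [coeff_sum]
    refine Finset.sum_congr rfl fun k _ => ?_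
    rw [coeff_pderiv]
    congr 1
    exact coeff_pol' _ ⟨β.1 + Finsupp.single k 1, hk k⟩
  rw [h1, Fin.sum_univ_three]
  unfold ff
  simp only [Finsupp.add_apply, Finsupp.single_apply]
  generalize β.1 0 = x at *
  generalize β.1 1 = y at *
  generalize β.1 2 = z at *
  have hx : x ≤ 3 := by omega
  have hy : y ≤ 3 := by omega
  obtain rfl : z = 3 - x - y := by omega
  interval_cases x <;> interval_cases y <;> first
    | (exfalso; omega)
    | (simp [U, Nat.factorial]; done)
    | (simp [U, Nat.factorial]; linear_combination (-(1 : M) / 1296) * hQ)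
    | (simp [U, Nat.factorial]; ring)

end

end FER

open MvPolynomial Matrix Pool.Agent.Z15.ME Pool.Agent.Z15.MH FER

theorem t_FER (hPOL : ME.S_POL) : S_FER := by
  intro M _ _
  set p : MvPolynomial (Fin 3) ℤ := X 0 ^ 3 + X 1 ^ 3 + X 2 ^ 3 with hp
  have hhom : p.IsHomogeneous 3 := by
    have h : ∀ i : Fin 3, (X i ^ 3 : MvPolynomial (Fin 3) ℤ).IsHomogeneous 3 := by
      intro i
      simpa using (isHomogeneous_X ℤ i).pow 3
    exact ((h 0).add (h 1)).add (h 2)
  refine ⟨cf 3 p, fun P Q hP hQ => ⟨ff P Q, dv_ff P Q hQ, ?_, ?_⟩⟩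
  all_goals
    have hpol : pol (fun β => ((cf 3 p β : ℤ) : M)) = X 0 ^ 3 + X 1 ^ 3 + X 2 ^ 3 := by
      have h1 := (hPOL 3 3 ℤ).2.2.2 M (Int.castRingHom M) (cf 3 p)
      rw [(hPOL 3 3 ℤ).2.1 p hhom] at h1
      rw [show (fun β => ((cf 3 p β : ℤ) : M)) = fun α => Int.castRingHom M (cf 3 p α) from rfl, h1, hp]
      simp
    rw [Matrix.trace_fin_three] at hP hQ
  · ext i j
    rw [XXc _ _ _ _ (t3_fermat hpol)]
    simp only [t4_ff]
    fin_cases i
    · show ∑ a, ∑ b, ((ep 0 a b : ℤ) : M) * _ = _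
      rw [e20]
      fin_cases j <;> simp [Fin.sum_univ_three, ep_tab, tab, cnt, U] <;>
        first | ring1 | linear_combination -hP
    · show ∑ a, ∑ b, ((ep 1 a b : ℤ) : M) * _ = _
      rw [e21]
      fin_cases j <;> simp [Fin.sum_univ_three, ep_tab, tab, cnt, U] <;>
        ring
    · show ∑ a, ∑ b, ((ep 2 a b : ℤ) : M) * _ = _
      rw [e22]
      fin_cases j <;> simp [Fin.sum_univ_three, ep_tab, tab, cnt, U] <;>
        ring
  · ext i j
    rw [YYc _ _ _ _ (t3_fermat hpol), e3]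
    simp only [t4_ff]
    fin_cases i <;> fin_cases j <;> simp [Fin.sum_univ_three, ep_tab, tab, cnt, U] <;> ring

end Pool.Agent.Z15.MI
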