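import Pool.Agent.Z15.MI.Stm

set_option autoImplicit false

/-!
# FKW: seven invariants (copies of `MH/T_FMA.lean` and `MH/T_FMK.lean`)
-/

namespace Pool.Agent.Z15.MI

open MvPolynomial Matrix Pool.Agent.Z15.ME Pool.Agent.Z15.MH

namespace FKWx

theorem perm_cases (P : Fin 3 → Fin 3 → Fin 3 → Prop) (h1 : P 0 1 2) (h2 : P 0 2 1) (h3 : P 1 0 2)
    (h4 : P 1 2 0) (h5 : P 2 0 1) (h6 : P 2 1 0) (π : Equiv.Perm (Fin 3)) : P (π 0) (π 1) (π 2) := by
  have key : ∀ a b c : Fin 3, a ≠ b → a ≠ c → b ≠ c → P a b c := by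
    intro a b c h12 h13 h23
    fin_cases a <;> fin_cases b <;> fin_cases c <;>
      first
        | exact absurd rfl h12
        | exact absurd rfl h13
        | exact absurd rfl h23
        | exact h1
        | exact h2
        | exact h3
        | exact h4
        | exact h5
        | exact h6
  exact key _ _ _ (fun h => absurd (π.injective h) (by decide)) (fun h => absurd (π.injective h) (by decide))
    (fun h => absurd (π.injective h) (by decide))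

theorem desc (hEXW : S_EXW) (hGAL : ME.S_GAL) {k : ℕ} {K M : Type} [Field K] [CharZero K] [Field M]
    [Algebra K M] (D : DW k K M) (Ω : Type) [Field Ω] [Algebra M Ω] [Algebra K Ω] [IsScalarTower K M Ω]
    [IsAlgClosed Ω] [Algebra.IsAlgebraic M Ω] (F : FW D Ω) (w : Ω) (hσ : ∀ σ : Ω ≃ₐ[M] Ω, σ w = w)
    (hψ : ∀ ψ : Ω →+* Ω, (∀ i, ψ (F.l i) = F.l i) → (∀ i j, ψ (F.Yh i j) = F.Yh i j) → ψ w = w) :
    ∃ x : M, algebraMap M Ω x = w ∧ ∀ g, D.φ g x = x := by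
  have : CharZero M := charZero_of_injective_algebraMap (algebraMap K M).injective
  obtain ⟨x, hx⟩ := hGAL M Ω w hσ
  refine ⟨x, hx, fun g => ?_⟩
  obtain ⟨ψ, h1, h2, h3, h4, h5⟩ := hEXW k K M D Ω F g
  apply (algebraMap M Ω).injective
  rw [← h1, hx, hψ ψ h2 h3]

end FKWx

theorem FKWx.fma (hROW : S_ROW) (hEXW : S_EXW) (hGAL : ME.S_GAL) {k : ℕ} {K M : Type} [Field K] [CharZero K] [Field M]
    [Algebra K M] (D : DW k K M) (Ω : Type) [Field Ω] [Algebra M Ω] [Algebra K Ω] [IsScalarTower K M Ω]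
    [IsAlgClosed Ω] [Algebra.IsAlgebraic M Ω] (F : FW D Ω) :
    ∃ (t U : Fin 3 → M) (W : Fin 2 → M), (∀ i g, D.φ g (t i) = t i) ∧ (∀ i g, D.φ g (U i) = U i) ∧
    (∀ i g, D.φ g (W i) = W i) ∧ (∀ a : Fin 3, algebraMap M Ω (t a) = ∑ i, F.l i ^ (a : ℕ) * F.Yh i i) ∧
    (∀ a : Fin 3, algebraMap M Ω (U a) = F.l 0 ^ (a : ℕ) * (F.Yh 1 2 * F.Yh 2 1) +
      F.l 1 ^ (a : ℕ) * (F.Yh 2 0 * F.Yh 0 2) + F.l 2 ^ (a : ℕ) * (F.Yh 0 1 * F.Yh 1 0)) ∧
    algebraMap M Ω (W 0) = F.Yh 0 1 * F.Yh 1 2 * F.Yh 2 0 + F.Yh 0 2 * F.Yh 2 1 * F.Yh 1 0 ∧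
    algebraMap M Ω (W 1) * ((F.l 0 - F.l 1) * (F.l 1 - F.l 2) * (F.l 2 - F.l 0)) =
      F.Yh 0 1 * F.Yh 1 2 * F.Yh 2 0 - F.Yh 0 2 * F.Yh 2 1 * F.Yh 1 0 := by
  have hne := F.ne
  have hact : ∀ σ : Ω ≃ₐ[M] Ω, ∃ π : Equiv.Perm (Fin 3), (∀ i, σ (F.l i) = F.l (π i)) ∧
      (∀ i, σ (F.Yh i i) = F.Yh (π i) (π i)) ∧
      (∀ i j, σ (F.Yh i j) * σ (F.Yh j i) = F.Yh (π i) (π j) * F.Yh (π j) (π i)) ∧
      (∀ i j m, σ (F.Yh i j) * σ (F.Yh j m) * σ (F.Yh m i) =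
        F.Yh (π i) (π j) * F.Yh (π j) (π m) * F.Yh (π m) (π i)) := by
    intro σ
    obtain ⟨π, t, h1, -, ht, h2, -⟩ := hROW k K M D Ω F σ
    refine ⟨π, h1, fun i => ?_, fun i j => ?_, fun i j m => ?_⟩
    · have := ht i
      rw [h2]; field_simp
    · have := ht i
      have := ht j
      rw [h2, h2]; field_simp
    · have := ht i
      have := ht j
      have := ht m
      rw [h2, h2, h2]; field_simp
  have hT : ∀ a : ℕ, ∃ x : M, algebraMap M Ω x = ∑ i, F.l i ^ a * F.Yh i i ∧ ∀ g, D.φ g x = x := by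
    intro a
    apply FKWx.desc hEXW hGAL D Ω F
    · intro σ
      obtain ⟨π, h1, h2, -, -⟩ := hact σ
      rw [map_sum]
      simp only [map_mul, map_pow, h1, h2]
      exact Equiv.sum_comp π (fun i => F.l i ^ a * F.Yh i i)
    · intro ψ h1 h2
      simp only [map_sum, map_mul, map_pow, h1, h2]
  have hU : ∀ a : ℕ, ∃ x : M, algebraMap M Ω x = F.l 0 ^ a * (F.Yh 1 2 * F.Yh 2 1) +
      F.l 1 ^ a * (F.Yh 2 0 * F.Yh 0 2) + F.l 2 ^ a * (F.Yh 0 1 * F.Yh 1 0) ∧ ∀ g, D.φ g x = x := by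
    intro a
    apply FKWx.desc hEXW hGAL D Ω F
    · intro σ
      obtain ⟨π, h1, -, h2, -⟩ := hact σ
      simp only [map_add, map_mul, map_pow, h1, h2]
      refine FKWx.perm_cases (fun x y z => F.l x ^ a * (F.Yh y z * F.Yh z y) +
        F.l y ^ a * (F.Yh z x * F.Yh x z) + F.l z ^ a * (F.Yh x y * F.Yh y x) =
        F.l 0 ^ a * (F.Yh 1 2 * F.Yh 2 1) + F.l 1 ^ a * (F.Yh 2 0 * F.Yh 0 2) +
        F.l 2 ^ a * (F.Yh 0 1 * F.Yh 1 0)) ?_ ?_ ?_ ?_ ?_ ?_ π <;> (beta_reduce; ring)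
    · intro ψ h1 h2
      simp only [map_add, map_mul, map_pow, h1, h2]
  have hW0 : ∃ x : M, algebraMap M Ω x = F.Yh 0 1 * F.Yh 1 2 * F.Yh 2 0 + F.Yh 0 2 * F.Yh 2 1 * F.Yh 1 0 ∧
      ∀ g, D.φ g x = x := by
    apply FKWx.desc hEXW hGAL D Ω F
    · intro σ
      obtain ⟨π, -, -, -, h2⟩ := hact σ
      simp only [map_add, map_mul, h2]
      refine FKWx.perm_cases (fun x y z => F.Yh x y * F.Yh y z * F.Yh z x + F.Yh x z * F.Yh z y * F.Yh y x =
        F.Yh 0 1 * F.Yh 1 2 * F.Yh 2 0 + F.Yh 0 2 * F.Yh 2 1 * F.Yh 1 0) ?_ ?_ ?_ ?_ ?_ ?_ π <;>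
        (beta_reduce; ring)
    · intro ψ h1 h2
      simp only [map_add, map_mul, h2]
  have hW1 : ∃ x : M, algebraMap M Ω x = (F.Yh 0 1 * F.Yh 1 2 * F.Yh 2 0 - F.Yh 0 2 * F.Yh 2 1 * F.Yh 1 0) /
      ((F.l 0 - F.l 1) * (F.l 1 - F.l 2) * (F.l 2 - F.l 0)) ∧ ∀ g, D.φ g x = x := by
    apply FKWx.desc hEXW hGAL D Ω F
    · intro σ
      obtain ⟨π, h1, -, -, h2⟩ := hact σ
      simp only [map_div₀, map_sub, map_mul, h1, h2]
      have hd : ∀ i j : Fin 3, i ≠ j → F.l i - F.l j ≠ 0 := fun i j h => sub_ne_zero.2 (hne i j h)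
      refine FKWx.perm_cases (fun x y z => (F.Yh x y * F.Yh y z * F.Yh z x - F.Yh x z * F.Yh z y * F.Yh y x) /
        ((F.l x - F.l y) * (F.l y - F.l z) * (F.l z - F.l x)) =
        (F.Yh 0 1 * F.Yh 1 2 * F.Yh 2 0 - F.Yh 0 2 * F.Yh 2 1 * F.Yh 1 0) /
          ((F.l 0 - F.l 1) * (F.l 1 - F.l 2) * (F.l 2 - F.l 0))) ?_ ?_ ?_ ?_ ?_ ?_ π <;>
        (beta_reduce
         rw [div_eq_div_iff (mul_ne_zero (mul_ne_zero (hd _ _ (by decide)) (hd _ _ (by decide))) (hd _ _ (by decide)))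
          (mul_ne_zero (mul_ne_zero (hd _ _ (by decide)) (hd _ _ (by decide))) (hd _ _ (by decide)))]
         try ring)
    · intro ψ h1 h2
      simp only [map_div₀, map_sub, map_mul, h1, h2]
  choose T hT1 hT2 using hT
  choose U hU1 hU2 using hU
  obtain ⟨W0, hW01, hW02⟩ := hW0
  obtain ⟨W1, hW11, hW12⟩ := hW1
  refine ⟨fun a => T a, fun a => U a, ![W0, W1], fun a g => hT2 a g, fun a g => hU2 a g, ?_, fun a => hT1 a,
    fun a => hU1 a, ?_, ?_⟩
  · intro a g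
    fin_cases a
    · exact hW02 g
    · exact hW12 g
  · exact hW01
  · have h0 : (F.l 0 - F.l 1) * (F.l 1 - F.l 2) * (F.l 2 - F.l 0) ≠ 0 :=
      mul_ne_zero (mul_ne_zero (sub_ne_zero.2 (hne _ _ (by decide))) (sub_ne_zero.2 (hne _ _ (by decide))))
        (sub_ne_zero.2 (hne _ _ (by decide)))
    have : algebraMap M Ω (![W0, W1] 1) = (F.Yh 0 1 * F.Yh 1 2 * F.Yh 2 0 - F.Yh 0 2 * F.Yh 2 1 * F.Yh 1 0) /
      ((F.l 0 - F.l 1) * (F.l 1 - F.l 2) * (F.l 2 - F.l 0)) := hW11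
    rw [this, div_mul_cancel₀ _ h0]


namespace FKWx

/-- the coefficients of a cubic polynomial with given roots -/
lemma coeffs {Ω : Type} [Field Ω] (l : Fin 3 → Ω) :
    (∏ i, (Polynomial.X - Polynomial.C (l i)) : Polynomial Ω) =
      Polynomial.X ^ 3 + Polynomial.C (-(l 0 + l 1 + l 2)) * Polynomial.X ^ 2 +
        Polynomial.C (l 0 * l 1 + l 1 * l 2 + l 0 * l 2) * Polynomial.X + Polynomial.C (-(l 0 * l 1 * l 2)) := by
  rw [Fin.prod_univ_three]
  simp only [map_neg, map_add, map_mul]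
  ring

lemma coeff0 {Ω : Type} [Field Ω] (l : Fin 3 → Ω) :
    (∏ i, (Polynomial.X - Polynomial.C (l i)) : Polynomial Ω).coeff 0 = -(l 0 * l 1 * l 2) := by
  rw [coeffs]
  simp [Polynomial.coeff_X]

lemma coeff1 {Ω : Type} [Field Ω] (l : Fin 3 → Ω) :
    (∏ i, (Polynomial.X - Polynomial.C (l i)) : Polynomial Ω).coeff 1 = l 0 * l 1 + l 1 * l 2 + l 0 * l 2 := by
  rw [coeffs]
  simp only [Polynomial.coeff_add, Polynomial.coeff_C_mul, Polynomial.coeff_X_pow, Polynomial.coeff_C, Polynomial.coeff_X]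
  norm_num

lemma coeff2 {Ω : Type} [Field Ω] (l : Fin 3 → Ω) :
    (∏ i, (Polynomial.X - Polynomial.C (l i)) : Polynomial Ω).coeff 2 = -(l 0 + l 1 + l 2) := by
  rw [coeffs]
  simp only [Polynomial.coeff_add, Polynomial.coeff_C_mul, Polynomial.coeff_X_pow, Polynomial.coeff_C, Polynomial.coeff_X]
  norm_num

/-- the coefficients of the characteristic polynomial are invariant -/
lemma inv {k : ℕ} {K M : Type} [Field K] [CharZero K] [Field M] [Algebra K M] (D : DW k K M) (g : GP 2 K) (i : ℕ) :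
    D.φ g (D.X.charpoly.coeff i) = D.X.charpoly.coeff i := by
  have h1 : (D.X.map (D.φ g)).charpoly = D.X.charpoly.map (D.φ g : M →+* M) :=
    Matrix.charpoly_map D.X (D.φ g : M →+* M)
  have h2 : ext M g.1.1 * ext M g.1.2 = 1 := by
    rw [← Matrix.map_mul, g.2]
    simp
  have h3 : ext M g.1.2 * ext M g.1.1 = 1 := _root_.mul_eq_one_comm.1 h2
  have h4 : (D.X.map (D.φ g)).charpoly = D.X.charpoly := by
    rw [D.hX g, Matrix.charpoly_mul_comm, ← Matrix.mul_assoc, h3, Matrix.one_mul]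
  rw [h1] at h4
  calc D.φ g (D.X.charpoly.coeff i) = (D.X.charpoly.map (D.φ g : M →+* M)).coeff i := by
        rw [Polynomial.coeff_map]; rfl
    _ = _ := by rw [h4]

/-- solution of a Vandermonde system -/
lemma vand {Ω : Type} [Field Ω] {S : Type} [SetLike S Ω] [SubfieldClass S Ω] (E : S) (a b c x y z : Ω)
    (ha : a ∈ E) (hb : b ∈ E) (hc : c ∈ E) (h0 : x + y + z ∈ E) (h1 : a * x + b * y + c * z ∈ E)
    (h2 : a ^ 2 * x + b ^ 2 * y + c ^ 2 * z ∈ E) (hab : a ≠ b) (hac : a ≠ c) : x ∈ E := by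
  have h3 : x = ((a ^ 2 * x + b ^ 2 * y + c ^ 2 * z) - (b + c) * (a * x + b * y + c * z) + b * c * (x + y + z)) /
      ((a - b) * (a - c)) := by
    have e1 : a - b ≠ 0 := sub_ne_zero.2 hab
    have e2 : a - c ≠ 0 := sub_ne_zero.2 hac
    field_simp
    ring
  rw [h3]
  exact div_mem (add_mem (sub_mem h2 (mul_mem (add_mem hb hc) h1)) (mul_mem (mul_mem hb hc) h0))
    (mul_mem (sub_mem ha hb) (sub_mem ha hc))

lemma tr1 {Ω : Type} [Field Ω] {B B' : Matrix (Fin 3) (Fin 3) Ω} (h : B * B' = 1) (P : Matrix (Fin 3) (Fin 3) Ω) :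
    (B' * P * B).trace = P.trace := by
  rw [Matrix.trace_mul_comm, ← Matrix.mul_assoc, h, Matrix.one_mul]

lemma tr2 {Ω : Type} [Field Ω] {B B' : Matrix (Fin 3) (Fin 3) Ω} (h : B * B' = 1) (P Q : Matrix (Fin 3) (Fin 3) Ω) :
    (B' * P * B * (B' * Q * B)).trace = (P * Q).trace := by
  have h1 : B' * P * B * (B' * Q * B) = B' * (P * Q) * B := by
    calc B' * P * B * (B' * Q * B) = B' * P * (B * B') * Q * B := by simp only [Matrix.mul_assoc]
      _ = _ := by rw [h, Matrix.mul_one]; simp only [Matrix.mul_assoc]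
  rw [h1, tr1 h]

lemma trm {M Ω : Type} [Field M] [Field Ω] [Algebra M Ω] (P : Matrix (Fin 3) (Fin 3) M) :
    (P.map (algebraMap M Ω)).trace = algebraMap M Ω P.trace := by
  rw [Matrix.trace_fin_three, Matrix.trace_fin_three]
  simp only [Matrix.map_apply, map_add]

end FKWx

open FKWx

theorem t_FKW (hROW : S_ROW) (hEXW : S_EXW) (hGAL : ME.S_GAL) : S_FKW := by
  intro k K M _ _ _ _ D hX0 hY0 hXY Ω _ _ _ _ _ _ F
  obtain ⟨t, U, W, ht, hU, hW, et, eU, eW0, eW1⟩ := FKWx.fma hROW hEXW hGAL D Ω F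
  have hl := F.ne
  haveI : CharZero Ω := charZero_of_injective_algebraMap (algebraMap K Ω).injective
  have h01 : F.l 0 ≠ F.l 1 := hl 0 1 (by decide)
  have h02 : F.l 0 ≠ F.l 2 := hl 0 2 (by decide)
  have h12 : F.l 1 ≠ F.l 2 := hl 1 2 (by decide)
  obtain ⟨hBB, -, hXd, y10, y20, yne⟩ := F.fr
  have htr0 : F.Yh 0 0 + F.Yh 1 1 + F.Yh 2 2 = 0 := by
    have h1 := tr1 hBB (D.Y.map (algebraMap M Ω))
    rw [trm, hY0, map_zero, Matrix.trace_fin_three] at h1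
    exact h1
  have htr1 : F.l 0 * F.Yh 0 0 + F.l 1 * F.Yh 1 1 + F.l 2 * F.Yh 2 2 = F.l 0 ^ 2 + F.l 1 ^ 2 + F.l 2 ^ 2 := by
    have h1 := tr2 hBB (D.X.map (algebraMap M Ω)) (D.Y.map (algebraMap M Ω))
    have h2 := tr2 hBB (D.X.map (algebraMap M Ω)) (D.X.map (algebraMap M Ω))
    rw [← Matrix.map_mul, trm, hXY, ← trm, Matrix.map_mul, ← h2, hXd] at h1
    change (Matrix.diagonal F.l * F.Yh).trace = (Matrix.diagonal F.l * Matrix.diagonal F.l).trace at h1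
    rw [Matrix.trace_fin_three, Matrix.trace_fin_three] at h1
    simp only [Matrix.diagonal_mul, Matrix.diagonal_apply_eq] at h1
    rw [h1]
    ring
  change F.Yh 1 0 = 1 at y10
  change F.Yh 2 0 = 1 at y20
  change ∀ i j, i ≠ j → F.Yh i j ≠ 0 at yne
  have hu0 : F.Yh 1 2 * F.Yh 2 1 + F.Yh 2 0 * F.Yh 0 2 + F.Yh 0 1 * F.Yh 1 0 ≠ 0 := F.u0
  -- the coefficients
  have hroots : D.X.charpoly.map (algebraMap M Ω) = ∏ i, (Polynomial.X - Polynomial.C (F.l i)) := F.hl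
  have c0 : algebraMap M Ω (D.X.charpoly.coeff 0) = -(F.l 0 * F.l 1 * F.l 2) := by
    rw [← Polynomial.coeff_map, hroots, coeff0]
  have c1 : algebraMap M Ω (D.X.charpoly.coeff 1) = F.l 0 * F.l 1 + F.l 1 * F.l 2 + F.l 0 * F.l 2 := by
    rw [← Polynomial.coeff_map, hroots, coeff1]
  have c2 : D.X.charpoly.coeff 2 = 0 := by
    have h := Matrix.trace_eq_neg_charpoly_coeff D.X
    rw [hX0] at h
    exact neg_eq_zero.1 h.symm
  have eU0 : algebraMap M Ω (U 0) = F.Yh 1 2 * F.Yh 2 1 + F.Yh 2 0 * F.Yh 0 2 + F.Yh 0 1 * F.Yh 1 0 := by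
    rw [eU 0]; simp
  have hU0 : algebraMap M Ω (U 0) ≠ 0 := by rw [eU0]; exact hu0
  obtain ⟨e, he⟩ : ∃ e : Fin 7 → M, e = ![D.X.charpoly.coeff 0, D.X.charpoly.coeff 1,
    t 2, U 1 / U 0, U 2 / U 0, W 0 / U 0, W 1 / U 0] := ⟨_, rfl⟩
  have e0 : e 0 = D.X.charpoly.coeff 0 := by rw [he]; rfl
  have e1 : e 1 = D.X.charpoly.coeff 1 := by rw [he]; rfl
  have e5 : e 2 = t 2 := by rw [he]; rfl
  have e6 : e 3 = U 1 / U 0 := by rw [he]; rfl
  have e7 : e 4 = U 2 / U 0 := by rw [he]; rfl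
  have e8 : e 5 = W 0 / U 0 := by rw [he]; rfl
  have e9 : e 6 = W 1 / U 0 := by rw [he]; rfl
  have hall : ∀ P : M → Prop, P (D.X.charpoly.coeff 0) → P (D.X.charpoly.coeff 1) →
      P (t 2) → P (U 1 / U 0) → P (U 2 / U 0) → P (W 0 / U 0) → P (W 1 / U 0) → ∀ i, P (e i) := by
    intro P p0 p1 p5 p6 p7 p8 p9 i
    fin_cases i
    · exact e0 ▸ p0
    · exact e1 ▸ p1
    · exact e5 ▸ p5
    · exact e6 ▸ p6
    · exact e7 ▸ p7
    · exact e8 ▸ p8
    · exact e9 ▸ p9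
  refine ⟨e, ?_, ?_, ?_, ?_⟩
  · intro i g
    refine hall (fun x => D.φ g x = x) (inv D g 0) (inv D g 1) (ht 2 g) ?_ ?_ ?_ ?_ i
    · simp only [map_div₀, hU]
    · simp only [map_div₀, hU]
    · simp only [map_div₀, hU, hW]
    · simp only [map_div₀, hU, hW]
  · intro i
    have hmem : ∀ j, e j ∈ IntermediateField.adjoin K (Set.range e) := fun j =>
      IntermediateField.subset_adjoin K _ ⟨j, rfl⟩
    have hdeg : D.X.charpoly.natDegree = 3 := by
      rw [Matrix.charpoly_natDegree_eq_dim]; rfl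
    rcases Nat.lt_or_ge i 3 with h | h
    · interval_cases i
      · rw [← e0]; exact hmem 0
      · rw [← e1]; exact hmem 1
      · rw [c2]; exact zero_mem _
    · rcases Nat.eq_or_lt_of_le h with h | h
      · have h5 : D.X.charpoly.coeff 3 = 1 := by
          have h6 := (Matrix.charpoly_monic D.X).coeff_natDegree
          rwa [hdeg] at h6
        rw [← h, h5]
        exact one_mem _
      · rw [Polynomial.coeff_eq_zero_of_natDegree_lt (by omega)]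
        exact zero_mem _
  · have ml : ∀ i, F.l i ∈ F.J (K := K) := fun i =>
      IntermediateField.subset_adjoin K _ (Or.inl ⟨i, rfl⟩)
    have my : ∀ i j, F.Yh i j ∈ F.J (K := K) := fun i j =>
      IntermediateField.subset_adjoin K _ (Or.inr ⟨(i, j), rfl⟩)
    have mt : ∀ a, algebraMap M Ω (t a) ∈ F.J (K := K) := by
      intro a
      rw [et a]
      exact sum_mem fun i _ => mul_mem (pow_mem (ml i) _) (my i i)
    have mU : ∀ a, algebraMap M Ω (U a) ∈ F.J (K := K) := by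
      intro a
      rw [eU a]
      exact add_mem (add_mem (mul_mem (pow_mem (ml 0) _) (mul_mem (my _ _) (my _ _)))
        (mul_mem (pow_mem (ml 1) _) (mul_mem (my _ _) (my _ _)))) (mul_mem (pow_mem (ml 2) _) (mul_mem (my _ _) (my _ _)))
    have mW0 : algebraMap M Ω (W 0) ∈ F.J (K := K) := by
      rw [eW0]
      exact add_mem (mul_mem (mul_mem (my _ _) (my _ _)) (my _ _)) (mul_mem (mul_mem (my _ _) (my _ _)) (my _ _))
    have mδ : (F.l 0 - F.l 1) * (F.l 1 - F.l 2) * (F.l 2 - F.l 0) ∈ F.J (K := K) :=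
      mul_mem (mul_mem (sub_mem (ml _) (ml _)) (sub_mem (ml _) (ml _))) (sub_mem (ml _) (ml _))
    have hδ : (F.l 0 - F.l 1) * (F.l 1 - F.l 2) * (F.l 2 - F.l 0) ≠ 0 :=
      mul_ne_zero (mul_ne_zero (sub_ne_zero.2 h01) (sub_ne_zero.2 h12)) (sub_ne_zero.2 h02.symm)
    have mW1 : algebraMap M Ω (W 1) ∈ F.J (K := K) := by
      rw [eq_div_of_mul_eq hδ eW1]
      exact div_mem (sub_mem (mul_mem (mul_mem (my _ _) (my _ _)) (my _ _))
        (mul_mem (mul_mem (my _ _) (my _ _)) (my _ _))) mδ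
    intro i
    refine hall (fun x => algebraMap M Ω x ∈ F.J (K := K)) ?_ ?_ (mt 2) ?_ ?_ ?_ ?_ i
    · simp only [c0]
      exact neg_mem (mul_mem (mul_mem (ml _) (ml _)) (ml _))
    · simp only [c1]
      exact add_mem (add_mem (mul_mem (ml _) (ml _)) (mul_mem (ml _) (ml _))) (mul_mem (ml _) (ml _))
    · simp only [map_div₀]
      exact div_mem (mU _) (mU _)
    · simp only [map_div₀]
      exact div_mem (mU _) (mU _)
    · simp only [map_div₀]
      exact div_mem mW0 (mU _)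
    · simp only [map_div₀]
      exact div_mem mW1 (mU _)
  · obtain ⟨E, hE⟩ : ∃ E : IntermediateField K Ω,
      E = IntermediateField.adjoin K ((Set.range fun i => algebraMap M Ω (e i)) ∪ Set.range F.l) := ⟨_, rfl⟩
    rw [← hE]
    have me : ∀ i, algebraMap M Ω (e i) ∈ E := by
      intro i; rw [hE]
      exact IntermediateField.subset_adjoin K _ (Or.inl ⟨i, rfl⟩)
    have ml : ∀ i, F.l i ∈ E := by
      intro i; rw [hE]
      exact IntermediateField.subset_adjoin K _ (Or.inr ⟨i, rfl⟩)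
    -- the diagonal
    have mt0 : F.Yh 0 0 + F.Yh 1 1 + F.Yh 2 2 ∈ E := by
      rw [htr0]
      exact zero_mem _
    have mt1 : F.l 0 * F.Yh 0 0 + F.l 1 * F.Yh 1 1 + F.l 2 * F.Yh 2 2 ∈ E := by
      rw [htr1]
      exact add_mem (add_mem (pow_mem (ml 0) 2) (pow_mem (ml 1) 2)) (pow_mem (ml 2) 2)
    have mt2 : F.l 0 ^ 2 * F.Yh 0 0 + F.l 1 ^ 2 * F.Yh 1 1 + F.l 2 ^ 2 * F.Yh 2 2 ∈ E := by
      have h := me 2
      rw [e5, et 2, Fin.sum_univ_three] at h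
      simpa using h
    have y00 : F.Yh 0 0 ∈ E := vand E _ _ _ _ _ _ (ml 0) (ml 1) (ml 2) mt0 mt1 mt2 h01 h02
    have y11 : F.Yh 1 1 ∈ E := by
      refine vand E (F.l 1) (F.l 0) (F.l 2) _ (F.Yh 0 0) (F.Yh 2 2) (ml 1) (ml 0) (ml 2) ?_ ?_ ?_ h01.symm h12
      · convert mt0 using 1; ring
      · convert mt1 using 1; ring
      · convert mt2 using 1; ring
    have y22 : F.Yh 2 2 ∈ E := by
      refine vand E (F.l 2) (F.l 0) (F.l 1) _ (F.Yh 0 0) (F.Yh 1 1) (ml 2) (ml 0) (ml 1) ?_ ?_ ?_ h02.symm h12.symm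
      · convert mt0 using 1; ring
      · convert mt1 using 1; ring
      · convert mt2 using 1; ring
    -- the products
    obtain ⟨V, hV⟩ : ∃ V, V = algebraMap M Ω (U 0) := ⟨_, rfl⟩
    have hV0 : V ≠ 0 := by rw [hV]; exact hU0
    have s0 : F.Yh 1 2 * F.Yh 2 1 / V + F.Yh 2 0 * F.Yh 0 2 / V + F.Yh 0 1 * F.Yh 1 0 / V ∈ E := by
      have h : F.Yh 1 2 * F.Yh 2 1 / V + F.Yh 2 0 * F.Yh 0 2 / V + F.Yh 0 1 * F.Yh 1 0 / V = 1 := by
        rw [← add_div, ← add_div, ← eU0, ← hV, div_self hV0]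
      rw [h]
      exact one_mem _
    have s1 : F.l 0 * (F.Yh 1 2 * F.Yh 2 1 / V) + F.l 1 * (F.Yh 2 0 * F.Yh 0 2 / V) +
        F.l 2 * (F.Yh 0 1 * F.Yh 1 0 / V) ∈ E := by
      have h := me 3
      rw [e6, map_div₀, eU 1, ← hV] at h
      convert h using 1
      simp only [Fin.val_one, pow_one]
      ring
    have s2 : F.l 0 ^ 2 * (F.Yh 1 2 * F.Yh 2 1 / V) + F.l 1 ^ 2 * (F.Yh 2 0 * F.Yh 0 2 / V) +
        F.l 2 ^ 2 * (F.Yh 0 1 * F.Yh 1 0 / V) ∈ E := by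
      have h := me 4
      rw [e7, map_div₀, eU 2, ← hV] at h
      convert h using 1
      simp only [Fin.val_two]
      ring
    have u0 : F.Yh 1 2 * F.Yh 2 1 / V ∈ E := vand E _ _ _ _ _ _ (ml 0) (ml 1) (ml 2) s0 s1 s2 h01 h02
    have u1 : F.Yh 2 0 * F.Yh 0 2 / V ∈ E := by
      refine vand E (F.l 1) (F.l 0) (F.l 2) _ (F.Yh 1 2 * F.Yh 2 1 / V) (F.Yh 0 1 * F.Yh 1 0 / V)
        (ml 1) (ml 0) (ml 2) ?_ ?_ ?_ h01.symm h12
      · convert s0 using 1; ring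
      · convert s1 using 1; ring
      · convert s2 using 1; ring
    have u2 : F.Yh 0 1 * F.Yh 1 0 / V ∈ E := by
      refine vand E (F.l 2) (F.l 0) (F.l 1) _ (F.Yh 1 2 * F.Yh 2 1 / V) (F.Yh 2 0 * F.Yh 0 2 / V)
        (ml 2) (ml 0) (ml 1) ?_ ?_ ?_ h02.symm h12.symm
      · convert s0 using 1; ring
      · convert s1 using 1; ring
      · convert s2 using 1; ring
    -- the products of three
    have w8 : (F.Yh 0 1 * F.Yh 1 2 * F.Yh 2 0 + F.Yh 0 2 * F.Yh 2 1 * F.Yh 1 0) / V ∈ E := by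
      have h := me 5
      rwa [e8, map_div₀, eW0, ← hV] at h
    have mδ : (F.l 0 - F.l 1) * (F.l 1 - F.l 2) * (F.l 2 - F.l 0) ∈ E :=
      mul_mem (mul_mem (sub_mem (ml _) (ml _)) (sub_mem (ml _) (ml _))) (sub_mem (ml _) (ml _))
    have w9 : (F.Yh 0 1 * F.Yh 1 2 * F.Yh 2 0 - F.Yh 0 2 * F.Yh 2 1 * F.Yh 1 0) / V ∈ E := by
      have h := mul_mem (me 6) mδ
      rw [e9, map_div₀, ← hV] at h
      rw [← eW1]
      convert h using 1
      ring
    have two : (2 : Ω) ∈ E := by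
      have h : (1 : Ω) + 1 ∈ E := add_mem (one_mem _) (one_mem _)
      rwa [one_add_one_eq_two] at h
    have w1 : F.Yh 0 1 * F.Yh 1 2 * F.Yh 2 0 / V ∈ E := by
      have h := div_mem (add_mem w8 w9) two
      convert h using 1
      field_simp
      ring
    have w2 : F.Yh 0 2 * F.Yh 2 1 * F.Yh 1 0 / V ∈ E := by
      have h := div_mem (sub_mem w8 w9) two
      convert h using 1
      field_simp
      ring
    have n01 := yne 0 1 (by decide)
    have n02 := yne 0 2 (by decide)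
    have n10 := yne 1 0 (by decide)
    have n12 := yne 1 2 (by decide)
    have n20 := yne 2 0 (by decide)
    have n21 := yne 2 1 (by decide)
    have mV : V ∈ E := by
      have h := div_mem (mul_mem w1 w2) (mul_mem (mul_mem u0 u1) u2)
      convert h using 1
      field_simp
    have y01 : F.Yh 0 1 ∈ E := by
      have h := mul_mem u2 mV
      rwa [div_mul_cancel₀ _ hV0, y10, mul_one] at h
    have y02 : F.Yh 0 2 ∈ E := by
      have h := mul_mem u1 mV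
      rwa [div_mul_cancel₀ _ hV0, y20, one_mul] at h
    have y12 : F.Yh 1 2 ∈ E := by
      have h := div_mem (mul_mem w1 mV) y01
      rw [div_mul_cancel₀ _ hV0, y20, mul_one] at h
      convert h using 1
      field_simp
    have y21 : F.Yh 2 1 ∈ E := by
      have h := div_mem (mul_mem w2 mV) y02
      rw [div_mul_cancel₀ _ hV0, y10, mul_one] at h
      convert h using 1
      field_simp
    have m10 : F.Yh 1 0 ∈ E := by rw [y10]; exact one_mem _
    have m20 : F.Yh 2 0 ∈ E := by rw [y20]; exact one_mem _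
    intro i j
    fin_cases i <;> fin_cases j <;> assumption

end Pool.Agent.Z15.MI
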