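import Pool.Agent.Z15.MI.Stm

set_option autoImplicit false

namespace Pool.Agent.Z15.MI

open MvPolynomial Matrix Pool.Agent.Z15.ME Pool.Agent.Z15.MH

namespace FR4

/-- a matrix with three different eigenvalues can be diagonalised -/
theorem diag {E : Type} [Field E] (A : Matrix (Fin 3) (Fin 3) E) (l : Fin 3 → E)
    (hl : ∀ i j, i ≠ j → l i ≠ l j) (h : ∀ i, (Matrix.scalar (Fin 3) (l i) - A).det = 0) :
    ∃ B B' : Matrix (Fin 3) (Fin 3) E, B * B' = 1 ∧ A * B = B * Matrix.diagonal l := by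
  have h1 : ∀ i, ∃ v : Fin 3 → E, v ≠ 0 ∧ (Matrix.scalar (Fin 3) (l i) - A) *ᵥ v = 0 := fun i =>
    Matrix.exists_mulVec_eq_zero_iff.2 (h i)
  choose v hv hv2 using h1
  have h2 : ∀ i, A *ᵥ v i = l i • v i := by
    intro i
    have h3 := hv2 i
    rw [Matrix.sub_mulVec, sub_eq_zero] at h3
    rw [← h3, Matrix.scalar_apply]
    ext a
    rw [Matrix.mulVec_diagonal]
    rfl
  have hli : LinearIndependent E v := by
    refine Module.End.eigenvectors_linearIndependent' (Matrix.toLin' A) l ?_ v ?_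
    · intro i j hij
      by_contra hne
      exact hl i j hne hij
    · intro i
      refine ⟨Module.End.mem_eigenspace_iff.2 ?_, hv i⟩
      rw [Matrix.toLin'_apply, h2]
  have hu : IsUnit (Matrix.of v : Matrix (Fin 3) (Fin 3) E) :=
    Matrix.linearIndependent_rows_iff_isUnit.1 hli
  have hdet : IsUnit (Matrix.of v : Matrix (Fin 3) (Fin 3) E).det :=
    (Matrix.isUnit_iff_isUnit_det _).1 hu
  refine ⟨(Matrix.of v)ᵀ, ((Matrix.of v)⁻¹)ᵀ, ?_, ?_⟩
  · rw [← Matrix.transpose_mul, Matrix.nonsing_inv_mul _ hdet, Matrix.transpose_one]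
  · ext a i
    rw [Matrix.mul_diagonal]
    have h3 := congrFun (h2 i) a
    rw [Pi.smul_apply, smul_eq_mul] at h3
    rw [Matrix.transpose_apply, Matrix.of_apply, mul_comm, ← h3]
    rfl

/-- the generic traceless matrix -/
noncomputable def gen (S : Type) [CommRing S] : Matrix (Fin 3) (Fin 3) (MvPolynomial E8 S) :=
  Matrix.of fun i j => if h : (i, j) ≠ ((2 : Fin 3), (2 : Fin 3)) then MvPolynomial.X ⟨(i, j), h⟩ else
    -(MvPolynomial.X ⟨(0, 0), by decide⟩ + MvPolynomial.X ⟨(1, 1), by decide⟩)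

theorem gen_map {S T : Type} [CommRing S] [CommRing T] (A : Matrix (Fin 3) (Fin 3) T) (hA : A.trace = 0)
    (σ : MvPolynomial E8 S →+* T) (hσ : ∀ p : E8, σ (MvPolynomial.X p) = A p.1.1 p.1.2) :
    (gen S).map σ = A := by
  ext i j
  rw [Matrix.map_apply, gen, Matrix.of_apply]
  by_cases h : (i, j) ≠ ((2 : Fin 3), (2 : Fin 3))
  · rw [dif_pos h, hσ]
  · rw [dif_neg h, map_neg, map_add, hσ, hσ]
    have h1 : (i, j) = ((2 : Fin 3), (2 : Fin 3)) := not_not.1 h
    have h2 : i = 2 := congrArg Prod.fst h1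
    have h3 : j = 2 := congrArg Prod.snd h1
    subst h2
    subst h3
    rw [Matrix.trace_fin_three] at hA
    change -(A 0 0 + A 1 1) = A 2 2
    linear_combination -hA

/-- nonvanishing of the entries of a conjugate of a generic traceless matrix -/
theorem nonvan {S Ω : Type} [CommRing S] [Nontrivial S] [Field Ω] [Algebra S Ω]
    (Y : Matrix (Fin 3) (Fin 3) Ω) (hY : Y.trace = 0)
    (hy : AlgebraicIndependent S (fun p : E8 => Y p.1.1 p.1.2))
    (c c' : Matrix (Fin 3) (Fin 3) S) (h : c' * c = 1) (h3 : (3 : S) ≠ 0)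
    (Z : Matrix (Fin 3) (Fin 3) Ω)
    (hZ : Z = c'.map (algebraMap S Ω) * Y * c.map (algebraMap S Ω)) :
    (∀ i j, i ≠ j → Z i j ≠ 0) ∧ Z 1 2 * Z 2 1 + Z 2 0 * Z 0 2 + Z 0 1 * Z 1 0 ≠ 0 := by
  obtain ⟨P, hP⟩ : ∃ P : Matrix (Fin 3) (Fin 3) (MvPolynomial E8 S),
      P = c'.map MvPolynomial.C * gen S * c.map MvPolynomial.C := ⟨_, rfl⟩
  have h1 : P.map (aeval (fun p : E8 => Y p.1.1 p.1.2)) = Z := by
    rw [hP, hZ, Matrix.map_mul, Matrix.map_mul]
    congr 1
    · congr 1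
      · ext i j
        simp
      · exact gen_map Y hY (aeval (fun p : E8 => Y p.1.1 p.1.2)).toRingHom (fun p => aeval_X _ _)
    · ext i j
      simp
  obtain ⟨N, hN⟩ : ∃ N : Matrix (Fin 3) (Fin 3) S, N = Matrix.of (fun i j => if i = j then 0 else 1) :=
    ⟨_, rfl⟩
  obtain ⟨W, hW⟩ : ∃ W : Matrix (Fin 3) (Fin 3) S, W = c * N * c' :=
    ⟨_, rfl⟩
  have hWt : W.trace = 0 := by
    rw [hW, Matrix.trace_mul_comm, ← Matrix.mul_assoc, h, Matrix.one_mul, hN, Matrix.trace_fin_three]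
    simp
  have h2 : P.map (eval (fun p : E8 => W p.1.1 p.1.2)) = N := by
    have h4 : P.map (eval (fun p : E8 => W p.1.1 p.1.2)) = c' * W * c := by
      rw [hP, Matrix.map_mul, Matrix.map_mul]
      congr 1
      · congr 1
        · ext i j
          simp
        · exact gen_map W hWt (eval (fun p : E8 => W p.1.1 p.1.2)) (fun p => eval_X _)
      · ext i j
        simp
    rw [h4, hW]
    calc c' * (c * N * c') * c
        = (c' * c) * N * (c' * c) := by simp only [Matrix.mul_assoc]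
      _ = N := by rw [h, Matrix.one_mul, Matrix.mul_one]
  have key : ∀ Q : MvPolynomial E8 S, eval (fun p : E8 => W p.1.1 p.1.2) Q ≠ 0 →
      aeval (fun p : E8 => Y p.1.1 p.1.2) Q ≠ 0 := by
    intro Q hQ h0
    apply hQ
    rw [algebraicIndependent_iff.1 hy Q h0, map_zero]
  have e1 : ∀ i j, aeval (fun p : E8 => Y p.1.1 p.1.2) (P i j) = Z i j := fun i j =>
    congrFun (congrFun h1 i) j
  have e2 : ∀ i j, i ≠ j → eval (fun p : E8 => W p.1.1 p.1.2) (P i j) = 1 := by
    intro i j hij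
    have h5 : eval (fun p : E8 => W p.1.1 p.1.2) (P i j) = N i j := congrFun (congrFun h2 i) j
    rw [h5, hN, Matrix.of_apply, if_neg hij]
  refine ⟨fun i j hij => ?_, ?_⟩
  · rw [← e1]
    exact key _ (by rw [e2 i j hij]; exact one_ne_zero)
  · have h5 := key (P 1 2 * P 2 1 + P 2 0 * P 0 2 + P 0 1 * P 1 0) (by
      simp only [map_add, map_mul, e2 1 2 (by decide), e2 2 1 (by decide), e2 2 0 (by decide), e2 0 2 (by decide),
        e2 0 1 (by decide), e2 1 0 (by decide)]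
      have h6 : (1 * 1 + 1 * 1 + 1 * 1 : S) = 3 := by norm_num
      rw [h6]
      exact h3)
    simpa only [map_add, map_mul, e1] using h5

end FR4

theorem t_FR4 : S_FR4 := by
  intro K₁ M Ω _ _ _ _ _ _ _ X Y H r r' k hk hH hr hr' hXt hYt hind l hl hne
  letI : Algebra K₁ Ω := ((algebraMap M Ω).comp (algebraMap K₁ M)).toAlgebra
  haveI : IsScalarTower K₁ M Ω := IsScalarTower.of_algebraMap_eq (fun _ => rfl)
  have hinj : Function.Injective (algebraMap M Ω) := (algebraMap M Ω).injective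
  haveI : CharZero Ω := charZero_of_injective_algebraMap (algebraMap K₁ Ω).injective
  have h1 : AlgebraicIndependent K₁ (Sum.elim
      (fun p : E8 => (Y.map (algebraMap M Ω)) p.1.1 p.1.2)
      (fun p : E8 => (X.map (algebraMap M Ω)) p.1.1 p.1.2)) := by
    have h2 := hind.map' (f := IsScalarTower.toAlgHom K₁ M Ω) hinj
    refine (algebraicIndependent_equiv' (Equiv.sumComm _ _) ?_).2 h2
    ext (p | p) <;> rfl
  have h2 := (AlgebraicIndependent.sumElim_iff.1 h1).2
  have h3 := h2.subalgebraAlgebraicClosure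
  obtain ⟨E, hE⟩ : ∃ E : Subfield Ω, ∀ x, x ∈ E ↔ x ∈ Subalgebra.algebraicClosure
      (Algebra.adjoin K₁ (Set.range fun p : E8 => (X.map (algebraMap M Ω)) p.1.1 p.1.2))
      Ω := by
    refine ⟨Subring.toSubfield (Subalgebra.algebraicClosure (Algebra.adjoin K₁ (Set.range
      fun p : E8 => (X.map (algebraMap M Ω)) p.1.1 p.1.2)) Ω).toSubring ?_,
      fun x => Iff.rfl⟩
    intro x hx
    exact (Subalgebra.mem_algebraicClosure _ _).2
      ((Subalgebra.mem_algebraicClosure _ _).1 hx).inv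
  have hXt' : (X.map (algebraMap M Ω)).trace = 0 := by
    rw [Matrix.trace_fin_three] at hXt ⊢
    simp only [Matrix.map_apply, ← map_add, hXt, map_zero]
  have hYt' : (Y.map (algebraMap M Ω)).trace = 0 := by
    rw [Matrix.trace_fin_three] at hYt ⊢
    simp only [Matrix.map_apply, ← map_add, hYt, map_zero]
  have hX1 : ∀ i j, (X.map (algebraMap M Ω)) i j ∈ Algebra.adjoin K₁ (Set.range
      fun p : E8 => (X.map (algebraMap M Ω)) p.1.1 p.1.2) := by
    intro i j
    by_cases h : (i, j) ≠ ((2 : Fin 3), (2 : Fin 3))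
    · exact Algebra.subset_adjoin ⟨⟨(i, j), h⟩, rfl⟩
    · have h1 : (i, j) = ((2 : Fin 3), (2 : Fin 3)) := not_not.1 h
      have h2 : i = 2 := congrArg Prod.fst h1
      have h3 : j = 2 := congrArg Prod.snd h1
      subst h2
      subst h3
      have h4 : (X.map (algebraMap M Ω)) 2 2 =
          -((X.map (algebraMap M Ω)) 0 0 + (X.map (algebraMap M Ω)) 1 1) := by
        rw [Matrix.trace_fin_three] at hXt'
        linear_combination hXt'
      rw [h4]
      exact neg_mem (add_mem (Algebra.subset_adjoin ⟨⟨(0, 0), by decide⟩, rfl⟩)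
        (Algebra.subset_adjoin ⟨⟨(1, 1), by decide⟩, rfl⟩))
  have hX : ∀ i j, (X.map (algebraMap M Ω)) i j ∈ E := by
    intro i j
    rw [hE, Subalgebra.mem_algebraicClosure]
    exact isAlgebraic_algebraMap (⟨_, hX1 i j⟩ : Algebra.adjoin K₁ (Set.range
      fun p : E8 => (X.map (algebraMap M Ω)) p.1.1 p.1.2))
  have hr0 : algebraMap M Ω r ≠ 0 := by
    rw [Ne, map_eq_zero_iff _ hinj]
    exact hr
  have hr0' : algebraMap M Ω r' ≠ 0 := by
    rw [Ne, map_eq_zero_iff _ hinj]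
    exact hr'
  have hsX : (r • X).map (algebraMap M Ω) = algebraMap M Ω r • X.map (algebraMap M Ω) := by
    ext i j
    simp
  have hsY : (r' • Y).map (algebraMap M Ω) = algebraMap M Ω r' • Y.map (algebraMap M Ω) := by
    ext i j
    simp
  obtain ⟨l', hl'⟩ : ∃ l' : Fin 3 → Ω, ∀ i, l i = algebraMap M Ω r * l' i :=
    ⟨fun i => (algebraMap M Ω r)⁻¹ * l i, fun i => by rw [mul_inv_cancel_left₀ hr0]⟩
  have hroot : ∀ i, Polynomial.eval (l' i) (X.map (algebraMap M Ω)).charpoly = 0 := by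
    intro i
    have h3 : Polynomial.eval (l i) ((r • X).map (algebraMap M Ω)).charpoly = 0 := by
      rw [Matrix.charpoly_map]
      have h4 : (r • X).charpoly.map (algebraMap M Ω) = ∏ i, (Polynomial.X - Polynomial.C (l i)) := hl
      rw [h4, Polynomial.eval_prod]
      exact Finset.prod_eq_zero (Finset.mem_univ i) (by simp)
    rw [Matrix.eval_charpoly] at h3 ⊢
    have h4 : Matrix.scalar (Fin 3) (l i) - (r • X).map (algebraMap M Ω) =
        algebraMap M Ω r • (Matrix.scalar (Fin 3) (l' i) - X.map (algebraMap M Ω)) := by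
      rw [hsX, smul_sub, hl']
      congr 1
      ext a b
      by_cases hab : a = b
      · subst hab
        simp [Matrix.scalar_apply]
      · simp [Matrix.scalar_apply, Matrix.diagonal_apply, hab]
    rw [h4, Matrix.det_smul] at h3
    exact (mul_eq_zero.1 h3).resolve_left (pow_ne_zero _ hr0)
  have hlE : ∀ i, l' i ∈ E := by
    intro i
    rw [hE, Subalgebra.mem_algebraicClosure]
    obtain ⟨X₁, hX₁⟩ : ∃ X₁ : Matrix (Fin 3) (Fin 3) (Algebra.adjoin K₁ (Set.range
        fun p : E8 => (X.map (algebraMap M Ω)) p.1.1 p.1.2)),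
        X₁.map (algebraMap _ Ω) = X.map (algebraMap M Ω) :=
      ⟨fun i j => ⟨_, hX1 i j⟩, by ext i j; rfl⟩
    refine ⟨X₁.charpoly, (Matrix.charpoly_monic X₁).ne_zero, ?_⟩
    rw [Polynomial.aeval_def, Polynomial.eval₂_eq_eval_map, ← Matrix.charpoly_map, hX₁]
    exact hroot i
  obtain ⟨XE, hXE⟩ : ∃ XE : Matrix (Fin 3) (Fin 3) E,
      XE.map E.subtype = X.map (algebraMap M Ω) :=
    ⟨Matrix.of fun i j => ⟨_, hX i j⟩, by ext i j; rfl⟩
  obtain ⟨lE, hlE2⟩ : ∃ lE : Fin 3 → E, ∀ i, E.subtype (lE i) = l' i :=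
    ⟨fun i => ⟨l' i, hlE i⟩, fun _ => rfl⟩
  obtain ⟨CE, CE', hC1, hC2⟩ := FR4.diag XE lE (by
      intro i j hij h4
      apply hne i j hij
      rw [hl', hl', ← hlE2, ← hlE2, h4]) (by
      intro i
      have h4 := hroot i
      rw [Matrix.eval_charpoly] at h4
      apply E.subtype_injective
      rw [map_zero, RingHom.map_det, ← h4]
      congr 1
      ext a b
      rw [← hXE]
      by_cases hab : a = b
      · subst hab
        simp [Matrix.scalar_apply, ← hlE2]
      · simp [Matrix.scalar_apply, Matrix.diagonal_apply, hab])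
  obtain ⟨j, hj⟩ : ∃ j : E →+* Subalgebra.algebraicClosure (Algebra.adjoin K₁ (Set.range
      fun p : E8 => (X.map (algebraMap M Ω)) p.1.1 p.1.2)) Ω, ∀ e, (j e : Ω) = e :=
    ⟨{ toFun := fun e => ⟨e.1, (hE _).1 e.2⟩
       map_one' := rfl
       map_mul' := fun _ _ => rfl
       map_zero' := rfl
       map_add' := fun _ _ => rfl }, fun _ => rfl⟩
  obtain ⟨c, hc⟩ : ∃ c : Matrix (Fin 3) (Fin 3) Ω, c = CE.map E.subtype := ⟨_, rfl⟩
  obtain ⟨c', hc'⟩ : ∃ c' : Matrix (Fin 3) (Fin 3) Ω, c' = CE'.map E.subtype := ⟨_, rfl⟩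
  have hcc : c * c' = 1 := by
    rw [hc, hc', ← Matrix.map_mul, hC1]
    exact Matrix.map_one _ (map_zero _) (map_one _)
  have hcc' : c' * c = 1 := mul_eq_one_comm.1 hcc
  have hXc0 : X.map (algebraMap M Ω) * c = c * Matrix.diagonal l' := by
    have h4 := congrArg (fun m : Matrix (Fin 3) (Fin 3) E => m.map E.subtype) hC2
    simp only [Matrix.map_mul] at h4
    rw [hXE, ← hc, Matrix.diagonal_map (map_zero _)] at h4
    rw [h4]
    congr 2
    funext i
    exact hlE2 i
  have hXc : (r • X).map (algebraMap M Ω) * c = c * Matrix.diagonal l := by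
    rw [hsX, Matrix.smul_mul, hXc0]
    ext a b
    rw [Matrix.smul_apply, Matrix.mul_diagonal, Matrix.mul_diagonal, hl', smul_eq_mul]
    ring
  obtain ⟨Z0, hZ0⟩ : ∃ Z0 : Matrix (Fin 3) (Fin 3) Ω, Z0 = c' * Y.map (algebraMap M Ω) * c := ⟨_, rfl⟩
  obtain ⟨hZ3, hZ4⟩ := FR4.nonvan (Y.map (algebraMap M Ω)) hYt' h3 (CE.map j) (CE'.map j) (by
      rw [← Matrix.map_mul, mul_eq_one_comm.1 hC1]
      exact Matrix.map_one _ (map_zero _) (map_one _)) (by
      intro h4
      have h5 := congrArg (algebraMap _ Ω) h4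
      rw [map_zero, map_ofNat] at h5
      exact three_ne_zero h5) Z0 (by
      rw [hZ0, hc, hc']
      congr 1
      · congr 1
        ext a b
        exact (hj _).symm
      · ext a b
        exact (hj _).symm)
  obtain ⟨Z, hZ⟩ : ∃ Z : Matrix (Fin 3) (Fin 3) Ω, Z = c' * (r' • Y).map (algebraMap M Ω) * c := ⟨_, rfl⟩
  have hZZ : ∀ a b, Z a b = algebraMap M Ω r' * Z0 a b := by
    intro a b
    rw [hZ, hZ0, hsY, Matrix.mul_smul, Matrix.smul_mul, Matrix.smul_apply, smul_eq_mul]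
  have hZ1 : ∀ a b, a ≠ b → Z a b ≠ 0 := by
    intro a b hab
    rw [hZZ]
    exact mul_ne_zero hr0' (hZ3 a b hab)
  have hZ2 : Z 1 2 * Z 2 1 + Z 2 0 * Z 0 2 + Z 0 1 * Z 1 0 ≠ 0 := by
    have h4 : Z 1 2 * Z 2 1 + Z 2 0 * Z 0 2 + Z 0 1 * Z 1 0 = algebraMap M Ω r' ^ 2 *
        (Z0 1 2 * Z0 2 1 + Z0 2 0 * Z0 0 2 + Z0 0 1 * Z0 1 0) := by
      simp only [hZZ]
      ring
    rw [h4]
    exact mul_ne_zero (pow_ne_zero _ hr0') hZ4
  have hz10 := hZ1 1 0 (by decide)
  have hz20 := hZ1 2 0 (by decide)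
  have hH' : algebraMap M Ω H ≠ 0 := by
    rw [Ne, map_eq_zero_iff _ hinj]
    exact hH
  obtain ⟨h, hh⟩ := IsAlgClosed.exists_pow_nat_eq (algebraMap M Ω H) (show 0 < k by omega)
  have hh0 : h ≠ 0 := by
    rintro rfl
    rw [zero_pow (by omega)] at hh
    exact hH' hh.symm
  have hdc : c.det ≠ 0 := by
    intro h4
    have h5 := congrArg Matrix.det hcc
    rw [Matrix.det_mul, h4, zero_mul, Matrix.det_one] at h5
    exact zero_ne_one h5
  obtain ⟨κ, hκ⟩ := IsAlgClosed.exists_pow_nat_eq (h / (c.det * Z 1 0 * Z 2 0)) (show 0 < 3 by omega)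
  have hκ0 : κ ≠ 0 := by
    rintro rfl
    rw [zero_pow (by omega)] at hκ
    exact div_ne_zero hh0 (mul_ne_zero (mul_ne_zero hdc hz10) hz20) hκ.symm
  obtain ⟨s, hs⟩ : ∃ s : Fin 3 → Ω, s = ![κ, κ * Z 1 0, κ * Z 2 0] := ⟨_, rfl⟩
  have hs0 : ∀ i, s i ≠ 0 := by
    intro i
    rw [hs]
    fin_cases i
    · exact hκ0
    · exact mul_ne_zero hκ0 hz10
    · exact mul_ne_zero hκ0 hz20
  have hss : Matrix.diagonal s * Matrix.diagonal (fun i => (s i)⁻¹) = 1 := by
    rw [Matrix.diagonal_mul_diagonal, ← Matrix.diagonal_one]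
    congr 1
    funext i
    exact mul_inv_cancel₀ (hs0 i)
  have hss' : Matrix.diagonal (fun i => (s i)⁻¹) * Matrix.diagonal s = 1 := mul_eq_one_comm.1 hss
  have hent : ∀ a b, (Matrix.diagonal (fun i => (s i)⁻¹) * c' * (r' • Y).map (algebraMap M Ω) *
      (c * Matrix.diagonal s)) a b = (s a)⁻¹ * Z a b * s b := by
    intro a b
    have h4 : Matrix.diagonal (fun i => (s i)⁻¹) * c' * (r' • Y).map (algebraMap M Ω) *
      (c * Matrix.diagonal s) = Matrix.diagonal (fun i => (s i)⁻¹) * Z * Matrix.diagonal s := by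
      rw [hZ]
      simp only [Matrix.mul_assoc]
    rw [h4, Matrix.mul_diagonal, Matrix.diagonal_mul]
  refine ⟨c * Matrix.diagonal s, Matrix.diagonal (fun i => (s i)⁻¹) * c', ⟨?_, ?_, ?_, ?_, ?_, ?_⟩, ?_⟩
  · calc c * Matrix.diagonal s * (Matrix.diagonal (fun i => (s i)⁻¹) * c')
        = c * (Matrix.diagonal s * Matrix.diagonal (fun i => (s i)⁻¹)) * c' := by
          simp only [Matrix.mul_assoc]
      _ = 1 := by rw [hss, Matrix.mul_one, hcc]
  · rw [Matrix.det_mul, Matrix.det_diagonal, Fin.prod_univ_three, hs]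
    simp only [Matrix.cons_val_zero, Matrix.cons_val_one, Matrix.cons_val]
    rw [← hh]
    congr 1
    have h4 : c.det * (κ * (κ * Z 1 0) * (κ * Z 2 0)) = κ ^ 3 * (c.det * Z 1 0 * Z 2 0) := by ring
    rw [h4, hκ]
    exact div_mul_cancel₀ _ (mul_ne_zero (mul_ne_zero hdc hz10) hz20)
  · calc Matrix.diagonal (fun i => (s i)⁻¹) * c' * (r • X).map (algebraMap M Ω) *
          (c * Matrix.diagonal s)
        = Matrix.diagonal (fun i => (s i)⁻¹) * (c' * ((r • X).map (algebraMap M Ω) * c)) *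
          Matrix.diagonal s := by simp only [Matrix.mul_assoc]
      _ = Matrix.diagonal (fun i => (s i)⁻¹) * ((c' * c) * Matrix.diagonal l) *
          Matrix.diagonal s := by rw [hXc]; simp only [Matrix.mul_assoc]
      _ = Matrix.diagonal l := by
          rw [hcc', Matrix.one_mul, Matrix.diagonal_mul_diagonal, Matrix.diagonal_mul_diagonal]
          congr 1
          funext i
          have := hs0 i
          field_simp
  · rw [hent, hs]
    simp only [Matrix.cons_val_zero, Matrix.cons_val_one, Matrix.cons_val]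
    field_simp
  · rw [hent, hs]
    simp only [Matrix.cons_val_zero, Matrix.cons_val_one, Matrix.cons_val]
    field_simp
  · intro a b hab
    rw [hent]
    exact mul_ne_zero (mul_ne_zero (inv_ne_zero (hs0 a)) (hZ1 a b hab)) (hs0 b)
  · simp only [hent]
    have g0 := hs0 0
    have g1 := hs0 1
    have g2 := hs0 2
    have h4 : (s 1)⁻¹ * Z 1 2 * s 2 * ((s 2)⁻¹ * Z 2 1 * s 1) +
        (s 2)⁻¹ * Z 2 0 * s 0 * ((s 0)⁻¹ * Z 0 2 * s 2) +
        (s 0)⁻¹ * Z 0 1 * s 1 * ((s 1)⁻¹ * Z 1 0 * s 0) =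
        Z 1 2 * Z 2 1 + Z 2 0 * Z 0 2 + Z 0 1 * Z 1 0 := by
      field_simp
    rw [h4]
    exact hZ2

end Pool.Agent.Z15.MI
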