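import Pool.Agent.Z15.MI.Stm

set_option autoImplicit false

/-! IR4 (helper5), after `MH/T_IRD.lean`. -/

namespace Pool.Agent.Z15.MI

open MvPolynomial Matrix Pool.Agent.Z15.ME Pool.Agent.Z15.MH

namespace IR4

lemma no_cube {K : Type} [Field K] (b : Polynomial K) (h : b ^ 3 = Polynomial.X) : False := by
  have h1 := congrArg Polynomial.natDegree h
  rw [Polynomial.natDegree_pow, Polynomial.natDegree_X] at h1
  omega

lemma no_sq {K : Type} [Field K] [CharZero K] (b : Polynomial K)
    (h : b ^ 2 = 4 * Polynomial.X ^ 3) : False := by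
  have h1 := congrArg Polynomial.natDegree h
  have h2 : (4 * Polynomial.X ^ 3 : Polynomial K) = Polynomial.C 4 * Polynomial.X ^ 3 := by
    rw [map_ofNat]
  rw [Polynomial.natDegree_pow, h2, Polynomial.natDegree_C_mul_X_pow 3 (4 : K) (by norm_num)] at h1
  omega

/-- discriminant of `T³ + b T² + c T + e` -/
def dsc {R : Type} [CommRing R] (b c e : R) : R :=
  b ^ 2 * c ^ 2 - 4 * c ^ 3 - 4 * b ^ 3 * e - 27 * e ^ 2 + 18 * b * c * e

lemma dsc_map {R S : Type} [CommRing R] [CommRing S] (f : R →+* S) (b c e : R) :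
    f (dsc b c e) = dsc (f b) (f c) (f e) := by
  simp only [dsc, map_add, map_sub, map_mul, map_pow, map_ofNat]

lemma coeffs {R : Type} [CommRing R] (x y z : R) :
    ((Polynomial.X - Polynomial.C x) * (Polynomial.X - Polynomial.C y) *
      (Polynomial.X - Polynomial.C z)).coeff 2 = -(x + y + z) ∧
    ((Polynomial.X - Polynomial.C x) * (Polynomial.X - Polynomial.C y) *
      (Polynomial.X - Polynomial.C z)).coeff 1 = x * y + x * z + y * z ∧
    ((Polynomial.X - Polynomial.C x) * (Polynomial.X - Polynomial.C y) *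
      (Polynomial.X - Polynomial.C z)).coeff 0 = -(x * y * z) := by
  have h := Cubic.prod_X_sub_C_eq (x := x) (y := y) (z := z)
  rw [h]
  refine ⟨?_, ?_, ?_⟩
  · rw [Cubic.coeff_eq_b]
  · rw [Cubic.coeff_eq_c]
  · rw [Cubic.coeff_eq_d]

/-- the generic traceless matrix -/
noncomputable def Gm (K₁ : Type) [Field K₁] : Matrix (Fin 3) (Fin 3) (MvPolynomial E8 K₁) :=
  Matrix.of fun i j => if h : (i, j) ≠ (2, 2) then MvPolynomial.X ⟨(i, j), h⟩
    else -(MvPolynomial.X ⟨(0, 0), by decide⟩ + MvPolynomial.X ⟨(1, 1), by decide⟩)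

lemma Gm_map {K₁ : Type} [Field K₁] {R : Type} [CommRing R] (φ : MvPolynomial E8 K₁ →+* R)
    (S : Matrix (Fin 3) (Fin 3) R) (hS : S.trace = 0)
    (h : ∀ p : E8, φ (MvPolynomial.X p) = S p.1.1 p.1.2) : (Gm K₁).map φ = S := by
  ext1 i j
  rw [Matrix.map_apply]
  unfold Gm
  rw [Matrix.of_apply]
  by_cases hij : (i, j) ≠ (2, 2)
  · rw [dif_pos hij, h]
  · rw [dif_neg hij, map_neg, map_add, h, h]
    push Not at hij
    obtain ⟨rfl, rfl⟩ := Prod.mk.inj hij
    rw [Matrix.trace_fin_three] at hS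
    linear_combination -hS

/-- the case `s = 1` -/
theorem base (K₁ M : Type) [Field K₁] [CharZero K₁] [Field M] [Algebra K₁ M] (X : Matrix (Fin 3) (Fin 3) M)
    (htr : X.trace = 0) (hX : AlgebraicIndependent K₁ (fun p : E8 => X p.1.1 p.1.2))
    (hgen : IntermediateField.adjoin K₁ (Set.range fun p : E8 => X p.1.1 p.1.2) = ⊤) :
    (∀ x : M, X.charpoly.eval x ≠ 0) ∧ ∀ (Ω : Type) [Field Ω] [Algebra M Ω] (l : Fin 3 → Ω), Roots X.charpoly l →
      (l 0 - l 1) * (l 1 - l 2) * (l 2 - l 0) ∉ Set.range (algebraMap M Ω) := by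
  let f : MvPolynomial E8 K₁ →ₐ[K₁] M := aeval fun p : E8 => X p.1.1 p.1.2
  have hf : Function.Injective f := hX
  letI : Algebra (MvPolynomial E8 K₁) M := f.toRingHom.toAlgebra
  have hfa : ∀ a, algebraMap (MvPolynomial E8 K₁) M a = f a := fun a => rfl
  have hfs : FaithfulSMul (MvPolynomial E8 K₁) M :=
    (faithfulSMul_iff_algebraMap_injective _ _).2 hf
  haveI : IsFractionRing (MvPolynomial E8 K₁) M := by
    refine IsFractionRing.of_field _ _ fun z => ?_
    have hz : z ∈ IntermediateField.adjoin K₁ (Set.range fun p : E8 => X p.1.1 p.1.2) := by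
      rw [hgen]
      exact IntermediateField.mem_top
    obtain ⟨r, s, h⟩ := (IntermediateField.mem_adjoin_range_iff _ _ _).1 hz
    exact ⟨r, s, h⟩
  haveI : IsIntegrallyClosed (MvPolynomial E8 K₁) := inferInstance
  have hGX : (Gm K₁).map (algebraMap (MvPolynomial E8 K₁) M) = X := by
    refine Gm_map _ X htr fun p => ?_
    change f (MvPolynomial.X p) = X p.1.1 p.1.2
    simp [f]
  have hchar : X.charpoly = (Gm K₁).charpoly.map (algebraMap (MvPolynomial E8 K₁) M) := by
    rw [← Matrix.charpoly_map, hGX]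
  -- specialisations
  have hspec : ∀ (S : Matrix (Fin 3) (Fin 3) (Polynomial K₁)), S.trace = 0 →
      ∃ φ : MvPolynomial E8 K₁ →+* Polynomial K₁,
        S.charpoly = (Gm K₁).charpoly.map φ := by
    intro S hS
    let φ : MvPolynomial E8 K₁ →ₐ[K₁] Polynomial K₁ :=
      aeval fun p : E8 => S p.1.1 p.1.2
    refine ⟨φ.toRingHom, ?_⟩
    have h1 : (Gm K₁).map φ.toRingHom = S := by
      refine Gm_map _ S hS fun p => ?_
      change φ (MvPolynomial.X p) = S p.1.1 p.1.2
      simp [φ]
    rw [← Matrix.charpoly_map, h1]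
  refine ⟨fun x hx => ?_, fun Ω _ _ l hl => ?_⟩
  · have hint : IsIntegral (MvPolynomial E8 K₁) x := by
      refine ⟨(Gm K₁).charpoly, Matrix.charpoly_monic _, ?_⟩
      rw [hchar, Polynomial.eval_map] at hx
      exact hx
    obtain ⟨y, hy⟩ := IsIntegrallyClosed.algebraMap_eq_of_integral hint
    have hy0 : (Gm K₁).charpoly.eval y = 0 := by
      apply hf
      rw [map_zero, ← hfa, ← hx, hchar, Polynomial.eval_map, ← hy]
      exact (Polynomial.eval₂_at_apply _ _).symm
    obtain ⟨φ, hφ⟩ := hspec !![0, 0, Polynomial.X; 1, 0, 0; 0, 1, 0] (by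
      rw [Matrix.trace_fin_three]
      simp)
    have h1 : (!![0, 0, Polynomial.X; 1, 0, 0; 0, 1, 0] :
        Matrix (Fin 3) (Fin 3) (Polynomial K₁)).charpoly.eval (φ y) = 0 := by
      rw [hφ, Polynomial.eval_map, Polynomial.eval₂_at_apply, hy0, map_zero]
    refine no_cube (φ y) ?_
    rw [Matrix.eval_charpoly, Matrix.det_fin_three] at h1
    simp at h1
    linear_combination h1
  · rintro ⟨d, hd⟩
    have hl' : (Gm K₁).charpoly.map ((algebraMap M Ω).comp (algebraMap _ M)) =
        (Polynomial.X - Polynomial.C (l 0)) * (Polynomial.X - Polynomial.C (l 1)) *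
          (Polynomial.X - Polynomial.C (l 2)) := by
      rw [← Polynomial.map_map, ← hchar, hl, Fin.prod_univ_three]
    set F := (algebraMap M Ω).comp (algebraMap (MvPolynomial E8 K₁) M) with hF
    obtain ⟨c2, c1, c0⟩ := coeffs (l 0) (l 1) (l 2)
    rw [← hl', Polynomial.coeff_map] at c2 c1 c0
    set D0 := dsc ((Gm K₁).charpoly.coeff 2) ((Gm K₁).charpoly.coeff 1) ((Gm K₁).charpoly.coeff 0) with hD0
    have hdd : F D0 = algebraMap M Ω (d ^ 2) := by
      rw [hD0, dsc_map, c2, c1, c0, map_pow, hd]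
      simp only [dsc]
      ring
    have hd2 : algebraMap (MvPolynomial E8 K₁) M D0 = d ^ 2 :=
      (algebraMap M Ω).injective hdd
    have hint : IsIntegral (MvPolynomial E8 K₁) d := by
      refine IsIntegral.of_pow (n := 2) (by norm_num) ?_
      rw [← hd2]
      exact isIntegral_algebraMap
    obtain ⟨y, hy⟩ := IsIntegrallyClosed.algebraMap_eq_of_integral hint
    have hy2 : y ^ 2 = D0 := by
      apply hf
      rw [← hfa, ← hfa, hd2, map_pow, hy]
    obtain ⟨φ, hφ⟩ := hspec !![0, 0, 0; 0, 0, Polynomial.X; 0, 1, 0] (by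
      rw [Matrix.trace_fin_three]
      simp)
    have hS : (!![0, 0, 0; 0, 0, Polynomial.X; 0, 1, 0] :
        Matrix (Fin 3) (Fin 3) (Polynomial K₁)).charpoly =
        Polynomial.X ^ 3 + Polynomial.C (-Polynomial.X) * Polynomial.X := by
      rw [Matrix.charpoly, Matrix.det_fin_three]
      simp
      ring
    rw [hS] at hφ
    have e2 := congrArg (fun q => q.coeff 2) hφ
    have e1 := congrArg (fun q => q.coeff 1) hφ
    have e0 := congrArg (fun q => q.coeff 0) hφ
    simp only [Polynomial.coeff_map, Polynomial.coeff_add, Polynomial.coeff_X_pow,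
      Polynomial.coeff_C_mul, Polynomial.coeff_X] at e2 e1 e0
    norm_num at e2 e1 e0
    refine no_sq (φ y) ?_
    rw [← map_pow, hy2, hD0, dsc_map, ← e2, ← e1, ← e0]
    simp only [dsc]
    ring

/-- the characteristic polynomial of a scalar multiple -/
theorem eval_smul {M : Type} [Field M] (X : Matrix (Fin 3) (Fin 3) M) (s x : M) :
    (s • X).charpoly.eval (s * x) = s ^ 3 * X.charpoly.eval x := by
  rw [Matrix.eval_charpoly, Matrix.eval_charpoly]
  have e : Matrix.scalar (Fin 3) (s * x) - s • X = s • (Matrix.scalar (Fin 3) x - X) := by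
    ext i j
    simp [Matrix.smul_apply, Matrix.sub_apply, Matrix.scalar_apply, Matrix.diagonal_apply, mul_sub]
  rw [e, Matrix.det_smul]
  simp

end IR4

open IR4

theorem t_IR4 : S_IR4 := by
  intro K₁ M _ _ _ _ X htr hX hgen s hs
  obtain ⟨h1, h2⟩ := base K₁ M X htr hX hgen
  refine ⟨fun x hx => ?_, fun Ω _ _ l hl => ?_⟩
  · have e := eval_smul X s (s⁻¹ * x)
    rw [mul_inv_cancel_left₀ hs, hx] at e
    exact h1 _ ((mul_eq_zero.1 e.symm).resolve_left (pow_ne_zero 3 hs))
  · rintro ⟨d, hd⟩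
    set t : Ω := algebraMap M Ω s with ht
    have ht0 : t ≠ 0 := by
      rw [ht]
      exact (map_ne_zero _).2 hs
    have hroots : Roots X.charpoly fun i => t⁻¹ * l i := by
      haveI hM : CharZero M := charZero_of_injective_algebraMap (algebraMap K₁ M).injective
      haveI hΩ : CharZero Ω := charZero_of_injective_algebraMap (algebraMap M Ω).injective
      unfold Roots at hl ⊢
      apply Polynomial.funext
      intro z
      have e := eval_smul (X.map (algebraMap M Ω)) t z
      have e2 : t • X.map (algebraMap M Ω) = (s • X).map (algebraMap M Ω) := by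
        ext i j
        simp [Matrix.map_apply, Matrix.smul_apply, ht]
      rw [e2, Matrix.charpoly_map, Matrix.charpoly_map, hl, Polynomial.eval_prod] at e
      rw [Polynomial.eval_prod]
      simp only [Fin.prod_univ_three, Polynomial.eval_sub, Polynomial.eval_X, Polynomial.eval_C] at e ⊢
      apply mul_left_cancel₀ (pow_ne_zero 3 ht0)
      rw [← e]
      field_simp
    refine h2 Ω (fun i => t⁻¹ * l i) hroots ⟨(s⁻¹) ^ 3 * d, ?_⟩
    rw [map_mul, map_pow, map_inv₀, hd, ← ht]
    ring

end Pool.Agent.Z15.MI
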