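import Pool.Agent.Z15.MI.Stm

set_option autoImplicit false

/-!
# (MEW): `Ŷ` and `f̂` are in `M(l)`
-/

namespace Pool.Agent.Z15.MI

open MvPolynomial Matrix Pool.Agent.Z15.ME Pool.Agent.Z15.MH

theorem t_MEW (hROW : S_ROW) (hGAL : ME.S_GAL) (hDVA : ME.S_DVA) : S_MEW := by
  intro k K M _ _ _ _ D Ω _ _ _ _ _ _ F
  have hc : CharZero M := charZero_of_injective_algebraMap (algebraMap K M).injective
  have key : ∀ σ : Ω ≃ₐ[IntermediateField.adjoin M (Set.range F.l)] Ω,
      (∀ i j, σ (F.Yh i j) = F.Yh i j) ∧ ∀ p, σ (F.fh p) = F.fh p := by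
    intro σ
    obtain ⟨π, t, -, -, -, -, -, -, h⟩ := hROW k K M D Ω F (AlgEquiv.restrictScalars M σ)
    exact h (fun i => σ.commutes (⟨F.l i, IntermediateField.subset_adjoin M _ ⟨i, rfl⟩⟩ :
      IntermediateField.adjoin M (Set.range F.l)))
  have hal : Algebra.IsAlgebraic (IntermediateField.adjoin M (Set.range F.l)) Ω :=
    Algebra.IsAlgebraic.tower_top (K := M) _
  have hcL : CharZero (IntermediateField.adjoin M (Set.range F.l)) :=
    charZero_of_injective_algebraMap (algebraMap M (IntermediateField.adjoin M (Set.range F.l))).injective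
  refine ⟨fun i j => ?_, fun p => ?_, fun β => ?_⟩
  · obtain ⟨e, he⟩ := hGAL (IntermediateField.adjoin M (Set.range F.l)) Ω (F.Yh i j) fun σ => (key σ).1 i j
    rw [← he]
    exact e.2
  · obtain ⟨e, he⟩ := hGAL (IntermediateField.adjoin M (Set.range F.l)) Ω (F.fh p) fun σ => (key σ).2 p
    rw [← he]
    exact e.2
  · obtain ⟨e, he⟩ := hGAL (IntermediateField.adjoin M (Set.range F.l)) Ω (dv F.fh β) fun σ => by
      have h1 := congrFun ((hDVA 3 (3 * k) Ω).2.2 Ω (σ : Ω →+* Ω) F.fh) β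
      have h2 : (fun p => (σ : Ω →+* Ω) (F.fh p)) = F.fh := funext fun p => (key σ).2 p
      rw [h2] at h1
      exact h1.symm
    rw [← he]
    exact e.2

end Pool.Agent.Z15.MI
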