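import Pool.Agent.Z15.MI.Stm

set_option autoImplicit false

/-!
# The normalised data of degree 4 (NR4)
-/

namespace Pool.Agent.Z15.MI

open MvPolynomial Matrix Pool.Agent.Z15.ME Pool.Agent.Z15.MH

namespace NR4

/-- the traceless matrix with the given entries -/
def mt {R : Type} [CommRing R] (v : E8 → R) : Matrix (Fin 3) (Fin 3) R :=
  Matrix.of fun i j => if h : (i, j) ≠ ((2 : Fin 3), (2 : Fin 3)) then v ⟨(i, j), h⟩ else
    -(v ⟨(0, 0), by decide⟩ + v ⟨(1, 1), by decide⟩)

theorem mt_map {R S : Type} [CommRing R] [CommRing S] (σ : R →+* S) (v : E8 → R) :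
    (mt v).map σ = mt (fun e => σ (v e)) := by
  ext i j
  unfold mt
  rw [Matrix.map_apply, Matrix.of_apply, Matrix.of_apply]
  split_ifs with h
  · rfl
  · rw [map_neg, map_add]

theorem eq_mt {R : Type} [CommRing R] {A : Matrix (Fin 3) (Fin 3) R} (h : A.trace = 0) :
    A = mt fun p : E8 => A p.1.1 p.1.2 := by
  ext i j
  unfold mt
  rw [Matrix.of_apply]
  split_ifs with h1
  · rfl
  · have h2 : (i, j) = ((2 : Fin 3), (2 : Fin 3)) := not_not.1 h1
    have hi : i = 2 := (Prod.mk.inj h2).1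
    have hj : j = 2 := (Prod.mk.inj h2).2
    subst hi hj
    rw [Matrix.trace_fin_three] at h
    show A 2 2 = -(A 0 0 + A 1 1)
    linear_combination h

theorem trace_map {R S : Type} [CommRing R] [CommRing S] (σ : R →+* S) (A B : Matrix (Fin 3) (Fin 3) R) :
    σ (A * B).trace = (A.map σ * B.map σ).trace := by
  rw [← Matrix.map_mul, Matrix.trace, Matrix.trace, map_sum]
  rfl

theorem trace_ne {K M : Type} [Field K] [Field M] [Algebra K M] {ι : Type} {v : ι → M} (hv : AlgebraicIndependent K v)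
    (a b : E8 → ι) (w : ι → K) (hw : (mt (fun e => w (a e)) * mt (fun e => w (b e))).trace ≠ 0) :
    (mt (fun e => v (a e)) * mt (fun e => v (b e))).trace ≠ 0 := by
  intro h0
  set p : MvPolynomial ι K := (mt (fun e => (X (a e) : MvPolynomial ι K)) * mt (fun e => X (b e))).trace with hp
  have h1 : aeval v p = 0 := by
    rw [hp]
    have h2 := trace_map ((aeval v : MvPolynomial ι K →ₐ[K] M) : MvPolynomial ι K →+* M)
      (mt (fun e => (X (a e) : MvPolynomial ι K))) (mt (fun e => X (b e)))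
    rw [mt_map, mt_map] at h2
    simp only [RingHom.coe_coe, aeval_X] at h2
    rw [h2, h0]
  have h2 : p = 0 := algebraicIndependent_iff.1 hv p h1
  apply hw
  have h3 := trace_map (eval w : MvPolynomial ι K →+* K)
      (mt (fun e => (X (a e) : MvPolynomial ι K))) (mt (fun e => X (b e)))
  rw [mt_map, mt_map, ← hp, h2, map_zero] at h3
  simp only [eval_X] at h3
  exact h3.symm

theorem traces {K M : Type} [Field K] [CharZero K] [Field M] [Algebra K M] {A B : Matrix (Fin 3) (Fin 3) M} (hA : A.trace = 0)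
    (hB : B.trace = 0)
    (h : AlgebraicIndependent K (Sum.elim (fun p : E8 => A p.1.1 p.1.2) fun p : E8 => B p.1.1 p.1.2)) :
    (A * A).trace ≠ 0 ∧ (A * B).trace ≠ 0 := by
  have h1 := trace_ne h Sum.inl Sum.inl (Sum.elim
    (fun p : E8 => if p.1 = (0, 1) ∨ p.1 = (1, 0) then (1 : K) else 0) fun _ => 0) (by
      simp [mt, Matrix.trace_fin_three, Matrix.mul_apply])
  have h2 := trace_ne h Sum.inl Sum.inr (Sum.elim
    (fun p : E8 => if p.1 = (0, 1) then (1 : K) else 0) fun p : E8 => if p.1 = (1, 0) then (1 : K) else 0) (by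
      simp [mt, Matrix.trace_fin_three, Matrix.mul_apply])
  simp only [Sum.elim_inl, Sum.elim_inr] at h1 h2
  rw [← eq_mt hA] at h1 h2
  rw [← eq_mt hB] at h2
  exact ⟨h1, h2⟩

end NR4

theorem t_NR4 (hAI4 : S_AI4) (hTRX : S_TRX) (hTRY : S_TRY) (hAIZ : MH.S_AIZ) (_hDVA : ME.S_DVA) : S_NR4 := by
  intro K M _ _ _ _ f hf hgen φ hφ
  have hM : CharZero M := charZero_of_injective_algebraMap (algebraMap K M).injective
  obtain ⟨_, hXY, _⟩ := hAI4 K M f hf hgen
  obtain ⟨⟨hdv, _⟩, _, hact2, hactd⟩ := hAIZ 2 3 (by norm_num) (by norm_num) K M f hf φ hφ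
  obtain ⟨tx1, tx2, tx3, tx4⟩ := hTRX M
  obtain ⟨ty1, ty2, ty3, ty4⟩ := hTRY M
  set P := XX (dv f) (part2 f) with hP
  set Q := YY (dv f) (part2 f) with hQ
  have hPt : P.trace = 0 := by
    have h1 := tx2 (dv f) (part2 f)
    rw [smul_eq_mul] at h1
    rcases mul_eq_zero.1 h1 with h2 | h2
    · exact absurd h2 two_ne_zero
    · exact h2
  have hQt : Q.trace = 0 := ty2 (dv f) (part2 f) (fun β => congrFun hdv β)
  obtain ⟨hPP, hPQ⟩ := NR4.traces hPt hQt hXY
  set s : M := (P * Q).trace / (P * P).trace with hs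
  have s0 : s ≠ 0 := div_ne_zero hPQ hPP
  -- the transformation
  have hgg : ∀ g : GP 2 K, ext M g.1.1 * ext M g.1.2 = 1 := by
    intro g
    show (g.1.1).map (algebraMap K M) * (g.1.2).map (algebraMap K M) = 1
    rw [← Matrix.map_mul, g.2, Matrix.map_one _ (map_zero _) (map_one _)]
  have hdet : ∀ g : GP 2 K, (ext M g.1.1).det * (ext M g.1.2).det = 1 := by
    intro g
    rw [← Matrix.det_mul, hgg, Matrix.det_one]
  have hPg : ∀ g : GP 2 K, P.map (φ g) = (ext M g.1.2).det ^ 3 • (ext M g.1.1 * P * ext M g.1.2) := by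
    intro g
    rw [← tx1 (ext M g.1.1) (ext M g.1.2) (dv f) (part2 f) (hgg g)]
    have h1 := tx4 M (φ g : M →+* M) (dv f) (part2 f)
    have h2 : (fun β => (φ g : M →+* M) (dv f β)) = act1 (ext M g.1.2) (dv f) := by
      funext β
      exact hactd g β
    have h3 : (fun p => (φ g : M →+* M) (part2 f p)) = act (ext M g.1.1) (ext M g.1.2) (part2 f) := by
      funext p
      exact hact2 g p
    rw [h2, h3] at h1
    exact h1.symm
  have hQg : ∀ g : GP 2 K, Q.map (φ g) = (ext M g.1.2).det ^ 4 • (ext M g.1.1 * Q * ext M g.1.2) := by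
    intro g
    rw [← ty1 (ext M g.1.1) (ext M g.1.2) (dv f) (part2 f) (hgg g)]
    have h1 := ty4 M (φ g : M →+* M) (dv f) (part2 f)
    have h2 : (fun β => (φ g : M →+* M) (dv f β)) = act1 (ext M g.1.2) (dv f) := by
      funext β
      exact hactd g β
    have h3 : (fun p => (φ g : M →+* M) (part2 f p)) = act (ext M g.1.1) (ext M g.1.2) (part2 f) := by
      funext p
      exact hact2 g p
    rw [h2, h3] at h1
    exact h1.symm
  have hconj : ∀ (g : GP 2 K) (A B : Matrix (Fin 3) (Fin 3) M),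
      ((ext M g.1.1 * A * ext M g.1.2) * (ext M g.1.1 * B * ext M g.1.2)).trace = (A * B).trace := by
    intro g A B
    have h1 : ext M g.1.2 * ext M g.1.1 = 1 := mul_eq_one_comm.1 (hgg g)
    have h2 : (ext M g.1.1 * A * ext M g.1.2) * (ext M g.1.1 * B * ext M g.1.2) =
        ext M g.1.1 * (A * B) * ext M g.1.2 := by
      calc (ext M g.1.1 * A * ext M g.1.2) * (ext M g.1.1 * B * ext M g.1.2) =
          ext M g.1.1 * A * (ext M g.1.2 * ext M g.1.1) * B * ext M g.1.2 := by
            simp only [Matrix.mul_assoc]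
        _ = ext M g.1.1 * (A * B) * ext M g.1.2 := by
            rw [h1, Matrix.mul_one]
            simp only [Matrix.mul_assoc]
    rw [h2, Matrix.trace_mul_comm, ← Matrix.mul_assoc, h1, Matrix.one_mul]
  have hsg : ∀ g : GP 2 K, φ g s = (ext M g.1.2).det * s := by
    intro g
    have h1 : φ g (P * Q).trace = (ext M g.1.2).det ^ 7 * (P * Q).trace := by
      have h2 := NR4.trace_map (φ g : M →+* M) P Q
      have h3 : P.map (φ g : M →+* M) = P.map (φ g) := rfl
      have h4 : Q.map (φ g : M →+* M) = Q.map (φ g) := rfl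
      rw [h3, h4, hPg, hQg, Matrix.smul_mul, Matrix.mul_smul, Matrix.trace_smul, Matrix.trace_smul, hconj] at h2
      rw [smul_eq_mul, smul_eq_mul] at h2
      have h5 : (φ g : M →+* M) (P * Q).trace = φ g (P * Q).trace := rfl
      rw [← h5, h2]
      ring
    have h1' : φ g (P * P).trace = (ext M g.1.2).det ^ 6 * (P * P).trace := by
      have h2 := NR4.trace_map (φ g : M →+* M) P P
      have h3 : P.map (φ g : M →+* M) = P.map (φ g) := rfl
      rw [h3, hPg, Matrix.smul_mul, Matrix.mul_smul, Matrix.trace_smul, Matrix.trace_smul, hconj] at h2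
      rw [smul_eq_mul, smul_eq_mul] at h2
      have h5 : (φ g : M →+* M) (P * P).trace = φ g (P * P).trace := rfl
      rw [← h5, h2]
      ring
    have hd0 : (ext M g.1.2).det ≠ 0 := right_ne_zero_of_mul_eq_one (hdet g)
    rw [hs, map_div₀, h1, h1']
    field_simp
  have hd0 : ∀ g : GP 2 K, (ext M g.1.2).det ≠ 0 := fun g => right_ne_zero_of_mul_eq_one (hdet g)
  refine ⟨{ hk := le_refl 1, f := f, X := (s ^ 3)⁻¹ • P, Y := (s ^ 4)⁻¹ • Q, H := s⁻¹, H0 := inv_ne_zero s0, gen := hgen,
            φ := φ, hf := hφ, hX := ?_, hY := ?_, hH := ?_, ind := hf, s := s, s0 := s0, hs := mul_inv_cancel₀ s0,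
            eX := ?_, eY := ?_, tX := ?_, tY := ?_, tXY := ?_ }, rfl⟩
  · intro g
    have h1 : ((s ^ 3)⁻¹ • P).map (φ g) = (φ g (s ^ 3)⁻¹) • P.map (φ g) := by
      ext i j
      simp only [Matrix.map_apply, Matrix.smul_apply, smul_eq_mul, map_mul]
    rw [h1, hPg, map_inv₀, map_pow, hsg, smul_smul, Matrix.mul_smul, Matrix.smul_mul]
    congr 1
    have := hd0 g
    field_simp
  · intro g
    have h1 : ((s ^ 4)⁻¹ • Q).map (φ g) = (φ g (s ^ 4)⁻¹) • Q.map (φ g) := by
      ext i j
      simp only [Matrix.map_apply, Matrix.smul_apply, smul_eq_mul, map_mul]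
    rw [h1, hQg, map_inv₀, map_pow, hsg, smul_smul, Matrix.mul_smul, Matrix.smul_mul]
    congr 1
    have := hd0 g
    field_simp
  · intro g
    rw [map_inv₀, hsg, pow_one, mul_inv]
    congr 1
    have h1 : (ext M g.1.1).det = algebraMap K M g.1.1.det := by
      show ((g.1.1).map (algebraMap K M)).det = _
      rw [RingHom.map_det]
      rfl
    rw [← h1]
    exact (eq_inv_of_mul_eq_one_left (hdet g)).symm
  · rw [smul_smul, mul_inv_cancel₀ (pow_ne_zero 3 s0), one_smul]
  · rw [smul_smul, mul_inv_cancel₀ (pow_ne_zero 4 s0), one_smul]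
  · rw [Matrix.trace_smul, hPt, smul_zero]
  · rw [Matrix.trace_smul, hQt, smul_zero]
  · rw [Matrix.smul_mul, Matrix.mul_smul, Matrix.trace_smul, Matrix.trace_smul, Matrix.smul_mul, Matrix.mul_smul,
      Matrix.trace_smul, Matrix.trace_smul]
    simp only [smul_eq_mul]
    have h1 : (P * Q).trace = s * (P * P).trace := by
      rw [hs, div_mul_cancel₀ _ hPP]
    rw [h1]
    field_simp

end Pool.Agent.Z15.MI
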