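import Pool.Agent.Z15.MI.Stm

set_option autoImplicit false

/-!
# Project MI, task ON1: linear algebra
-/

namespace Pool.Agent.Z15.MI

theorem t_ON1 : S_ON1 := by
  intro J Ω _ _ _ d v h1
  obtain ⟨c, hc⟩ := (Submodule.mem_span_range_iff_exists_fun J).1 h1
  have hex : ∃ i, c i ≠ 0 := by
    by_contra hno
    push Not at hno
    have : ∑ i, c i • v i = 0 := Finset.sum_eq_zero fun i _ => by rw [hno i, zero_smul]
    rw [this] at hc
    exact zero_ne_one hc
  obtain ⟨i, hi⟩ := hex
  refine ⟨i.succAbove, ?_⟩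
  rw [Submodule.span_le]
  have hmem : ∀ j : Fin d, v (i.succAbove j) ∈ Submodule.span J (insert 1 (Set.range (v ∘ i.succAbove))) :=
    fun j => Submodule.subset_span (Or.inr ⟨j, rfl⟩)
  rintro _ ⟨j, rfl⟩
  rcases eq_or_ne j i with rfl | hj
  · have h2 : v j = (c j)⁻¹ • ((1 : Ω) - ∑ k, c (j.succAbove k) • v (j.succAbove k)) := by
      rw [Fin.sum_univ_succAbove _ j] at hc
      rw [← hc, add_sub_cancel_right, smul_smul, inv_mul_cancel₀ hi, one_smul]
    rw [h2]
    refine Submodule.smul_mem _ _ (Submodule.sub_mem _ (Submodule.subset_span (Or.inl rfl)) ?_)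
    exact Submodule.sum_mem _ fun k _ => Submodule.smul_mem _ _ (hmem k)
  · obtain ⟨k, rfl⟩ := Fin.exists_succAbove_eq hj
    exact hmem k

end Pool.Agent.Z15.MI
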