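import Pool.Agent.Z15.MI.Stm

/-!
# Project MI (helper15), task RA4: the invariant field is purely transcendental
-/

set_option autoImplicit false

namespace Pool.Agent.Z15.MI

open MvPolynomial Matrix Pool.Agent.Z15.ME Pool.Agent.Z15.MH

theorem t_RA4 (hEX4 : S_EX4) (hINW : S_INW) (hDE4 : S_DE4) (hSPJ : MH.S_SPJ) (hTD4 : S_TD4) :
    S_RA4 := by
  classical
  intro K M _ _ _ _ D
  obtain ⟨F⟩ := hEX4 K M D (AlgebraicClosure M)
  obtain ⟨e, v, w, he, hv, hw, hc, -, hf⟩ := hDE4 K M D (AlgebraicClosure M) F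
  have hind := hTD4 K M D (AlgebraicClosure M) F e v w hc hf
  obtain ⟨N, hN⟩ : ∃ N : IntermediateField K M,
      N = IntermediateField.adjoin K (Set.range e ∪ Set.range v ∪ Set.range w) := ⟨_, rfl⟩
  have hsN : ∀ y ∈ Set.range e ∪ Set.range v ∪ Set.range w, y ∈ N := fun y hy => by
    rw [hN]
    exact IntermediateField.subset_adjoin K _ hy
  have hcN : ∀ i, D.X.charpoly.coeff i ∈ N := fun i => by
    have h2 : IntermediateField.adjoin K (Set.range e) ≤ N := by
      rw [IntermediateField.adjoin_le_iff]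
      rintro _ ⟨j, rfl⟩
      exact hsN _ (Or.inl (Or.inl ⟨j, rfl⟩))
    exact h2 (hc i)
  have hgen : ∀ x : M, (∀ g, D.φ g x = x) → x ∈ N := by
    intro x hx
    have h1 := hINW 1 K M D.toDW (AlgebraicClosure M) F x hx
    obtain ⟨NL, hNL⟩ : ∃ NL : IntermediateField K (AlgebraicClosure M),
        NL = IntermediateField.adjoin K
          (algebraMap M (AlgebraicClosure M) '' (N : Set M) ∪ Set.range F.l) := ⟨_, rfl⟩
    have hf' : ∀ p, F.fh p ∈ NL := by
      intro p
      refine (?_ : IntermediateField.adjoin K _ ≤ NL) (hf p)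
      rw [IntermediateField.adjoin_le_iff]
      rintro _ (⟨y, hy, rfl⟩ | ⟨j, rfl⟩)
      · rw [hNL]
        exact IntermediateField.subset_adjoin K _ (Or.inl ⟨y, hsN y hy, rfl⟩)
      · rw [hNL]
        exact IntermediateField.subset_adjoin K _ (Or.inr ⟨j, rfl⟩)
    have h3 : algebraMap M (AlgebraicClosure M) x ∈ NL := by
      refine (?_ : IntermediateField.adjoin K _ ≤ NL) h1
      rw [IntermediateField.adjoin_le_iff]
      rintro _ ⟨j, rfl⟩
      exact hf' j
    rw [hNL] at h3
    obtain ⟨n, hn⟩ := hSPJ K M (AlgebraicClosure M) D.X.charpoly F.l F.hl N hcN _ h3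
    have h4 : ∑ a, ((if a = ((0, 0) : Fin 3 × Fin 2) then x else 0) - (n a : M)) • mu F.l a = 0 := by
      have h5 : ∀ a, ((if a = ((0, 0) : Fin 3 × Fin 2) then x else 0) - (n a : M)) • mu F.l a =
          (if a = ((0, 0) : Fin 3 × Fin 2) then algebraMap M (AlgebraicClosure M) x else 0) -
            algebraMap M (AlgebraicClosure M) (n a) * mu F.l a := by
        intro a
        rw [sub_smul, Algebra.smul_def, Algebra.smul_def]
        congr 1
        split_ifs with ha
        · rw [ha]
          simp [mu]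
        · rw [map_zero, zero_mul]
      simp only [h5]
      rw [Finset.sum_sub_distrib, ← hn, Finset.sum_ite_eq' Finset.univ, if_pos (Finset.mem_univ _),
        sub_self]
    have h5 := Fintype.linearIndependent_iff.1 F.li _ h4 (0, 0)
    rw [if_pos rfl, sub_eq_zero] at h5
    rw [h5]
    exact (n (0, 0)).2
  obtain ⟨x, hxd⟩ : ∃ x : Fin 7 ⊕ (Fin 10 ⊕ Fin 19) → M, x = Sum.elim e (Sum.elim v w) := ⟨_, rfl⟩
  have hx : Set.range x = Set.range e ∪ Set.range v ∪ Set.range w := by
    rw [hxd, Set.Sum.elim_range, Set.Sum.elim_range, Set.union_assoc]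
  rw [← hxd] at hind
  obtain ⟨q, ⟨ε⟩⟩ := Finite.exists_equiv_fin (Fin 7 ⊕ (Fin 10 ⊕ Fin 19))
  refine ⟨q, x ∘ ε.symm, hind.comp _ ε.symm.injective, fun y => ?_⟩
  have h5 : Set.range (x ∘ ε.symm) = Set.range x := by
    rw [Set.range_comp, ε.symm.surjective.range_eq, Set.image_univ]
  rw [h5, hx, ← hN]
  constructor
  · exact hgen y
  · intro hy g
    have h6 : N ≤
        { carrier := {z | D.φ g z = z}
          mul_mem' := by intro a b ha hb; change D.φ g _ = _; rw [map_mul, ha, hb]
          add_mem' := by intro a b ha hb; change D.φ g _ = _; rw [map_add, ha, hb]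
          algebraMap_mem' := by intro c; change D.φ g _ = _; rw [AlgHom.commutes]
          inv_mem' := by intro a ha; change D.φ g _ = _; rw [map_inv₀, ha] } := by
      rw [hN, IntermediateField.adjoin_le_iff]
      rintro _ ((⟨p, rfl⟩ | ⟨p, rfl⟩) | ⟨p, rfl⟩)
      · exact he p g
      · exact hv p g
      · exact hw p g
    exact h6 hy

end Pool.Agent.Z15.MI
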