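import Pool.Agent.Z15.MI.Stm
import Pool.Agent.Z15.MH.T_ROT

set_option autoImplicit false

/-!
# ROW: the automorphisms over `M` (copy of `MH/T_ROT.lean`, with the divergence)
-/

namespace Pool.Agent.Z15.MI

open MvPolynomial Matrix Pool.Agent.Z15.ME Pool.Agent.Z15.MH

namespace ROWaux

/-- linear combinations over a subfield -/
theorem act1_mem_span (hPLY : ME.S_PLY) {K Ω : Type} [Field K] [Field Ω] [Algebra K Ω] (J : IntermediateField K Ω)
    (d : ℕ) (A' : Matrix (Fin 3) (Fin 3) Ω) (hA' : ∀ i j, A' i j ∈ J)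
    (c : Mon 3 d → Ω) (β : Mon 3 d) : act1 A' c β ∈ Submodule.span J (Set.range c) := by
  obtain ⟨P, hP⟩ := hPLY 3 d
  rw [hP]
  refine Submodule.sum_mem _ fun α _ => ?_
  have h1 : aeval (fun q : Fin 3 × Fin 3 => A' q.1 q.2) (P β α) ∈ J := by
    have h2 := MvPolynomial.aeval_algebraMap_apply (A := J) (B := Ω) (R := ℤ)
      (fun q : Fin 3 × Fin 3 => (⟨A' q.1 q.2, hA' _ _⟩ : J)) (P β α)
    have h3 : (aeval (fun q : Fin 3 × Fin 3 => A' q.1 q.2) (P β α)) =
      algebraMap J Ω (aeval (fun q : Fin 3 × Fin 3 => (⟨A' q.1 q.2, hA' _ _⟩ : J)) (P β α)) := h2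
    rw [h3]
    exact SetLike.coe_mem _
  exact Submodule.smul_mem (Submodule.span J (Set.range c)) (⟨_, h1⟩ : J) (Submodule.subset_span ⟨α, rfl⟩)

end ROWaux

open ROTaux ROWaux in
theorem t_ROW (hNOR : MH.S_NOR) (hACT : ME.S_ACT) (hPLY : ME.S_PLY) (hDVA : ME.S_DVA) : S_ROW := by
  intro k K M _ _ _ _ D Ω _ _ _ _ _ _ F σ
  have hne := F.ne
  have hH0 : D.H ≠ 0 := D.H0
  have hH : algebraMap M Ω D.H ≠ 0 := (map_ne_zero _).2 hH0
  set s : Ω →+* Ω := (σ : Ω →+* Ω) with hs
  have hsa : ∀ x : M, s (algebraMap M Ω x) = algebraMap M Ω x := fun x => σ.commutes x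
  have hfix : (D.X.charpoly.map (algebraMap M Ω)).map s = D.X.charpoly.map (algebraMap M Ω) := by
    rw [Polynomial.map_map]
    congr 1
    ext x
    exact hsa x
  obtain ⟨π, hπ⟩ := perm _ F.l F.hl hne s hfix
  have hms : ∀ A : Matrix (Fin 3) (Fin 3) M, (A.map (algebraMap M Ω)).map s = A.map (algebraMap M Ω) := by
    intro A
    ext i j
    exact hsa _
  have hfr := frMap s k F.l _ _ _ _ _ F.fr
  rw [hms, hms, hsa] at hfr
  simp only [hπ] at hfr
  obtain ⟨κ, t, hκ, ht, ht0, htj, hC, hdet⟩ := hNOR Ω k F.l hne _ _ _ F.B F.B' _ _ π hH F.fr hfr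
  set T : Matrix (Fin 3) (Fin 3) Ω := Matrix.of fun i j => if i = π j then t j else 0 with hT
  set T' : Matrix (Fin 3) (Fin 3) Ω := Matrix.of fun i j => if π i = j then (t i)⁻¹ else 0 with hT'
  have hT'T : T' * T = 1 := by
    ext i j
    rw [Matrix.mul_apply, Finset.sum_eq_single (π i)]
    · simp only [hT, hT', Matrix.of_apply, if_true, Matrix.one_apply]
      by_cases hij : i = j
      · subst hij
        simp [ht i]
      · simp [hij]
    · intro b _ hb
      simp [hT', Ne.symm hb]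
    · intro h
      exact absurd (Finset.mem_univ _) h
  have hB'B : F.B' * F.B = 1 := mul_eq_one_comm.1 F.fr.1
  have hC' : F.B'.map s = κ⁻¹ • (T' * F.B') := by
    symm
    refine left_inv_eq_right_inv (a := F.B.map s) ?_ hfr.1
    rw [hC, smul_mul_smul_comm, inv_mul_cancel₀ hκ, one_smul, Matrix.mul_assoc, ← Matrix.mul_assoc F.B', hB'B,
      Matrix.one_mul, hT'T]
  have hYs : ∀ i j, s (F.Yh i j) = (t i)⁻¹ * F.Yh (π i) (π j) * t j := by
    intro i j
    have h1 : F.Yh.map s = T' * F.Yh * T := by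
      unfold FW.Yh
      rw [Matrix.map_mul, Matrix.map_mul, hms, hC, hC']
      rw [smul_mul_assoc, smul_mul_smul_comm, inv_mul_cancel₀ hκ, one_smul]
      simp only [Matrix.mul_assoc]
    have h2 : s (F.Yh i j) = (T' * F.Yh * T) i j := by
      rw [← h1, Matrix.map_apply]
    rw [h2, Matrix.mul_apply, Finset.sum_eq_single (π j), Matrix.mul_apply, Finset.sum_eq_single (π i)]
    · simp [hT, hT']
    · intro b _ hb
      simp [hT', Ne.symm hb]
    · intro h
      exact absurd (Finset.mem_univ _) h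
    · intro b _ hb
      simp [hT, hb]
    · intro h
      exact absurd (Finset.mem_univ _) h
  obtain ⟨-, -, -, -, -, -, a7, a8, -, -, a11⟩ := hACT 3 (3 * k + 1) Ω
  have hfs : ∀ p, s (F.fh p) = κ ^ (3 * k) * act T' T F.fh p := by
    intro p
    have h1 := congrFun (a11 Ω s F.B' F.B fun p => algebraMap M Ω (D.f p)) p
    simp only [hsa] at h1
    have h2 : s (F.fh p) = act (F.B'.map s) (F.B.map s) (fun p => algebraMap M Ω (D.f p)) p := h1.symm
    rw [h2, hC, hC', act_smul hACT _ κ hκ]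
    simp only
    rw [← a7]
    rfl
  have hYJ : ∀ i j, F.Yh i j ∈ F.J (K := K) := fun i j =>
    IntermediateField.subset_adjoin K _ (Or.inr ⟨(i, j), rfl⟩)
  have htJ : ∀ j, t j ∈ F.J (K := K) := by
    intro j
    by_cases hj : j = 0
    · rw [hj, ht0]
      exact (F.J (K := K)).one_mem
    · rw [htj j hj]
      exact hYJ _ _
  have hTJ : ∀ i j, T i j ∈ F.J (K := K) := by
    intro i j
    simp only [hT, Matrix.of_apply]
    split_ifs
    · exact htJ j
    · exact (F.J (K := K)).zero_mem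
  have hT'J : ∀ i j, T' i j ∈ F.J (K := K) := by
    intro i j
    simp only [hT', Matrix.of_apply]
    split_ifs
    · exact (F.J (K := K)).inv_mem (htJ i)
    · exact (F.J (K := K)).zero_mem
  have hκJ : κ ^ (3 * k) ∈ F.J (K := K) := by
    have h1 : T.det ∈ F.J (K := K) := by
      rw [Matrix.det_apply]
      refine sum_mem fun τ _ => ?_
      refine zsmul_mem (prod_mem fun i _ => hTJ _ _) _
    rw [eq_inv_of_mul_eq_one_left hdet]
    exact (F.J (K := K)).inv_mem (pow_mem h1 k)
  refine ⟨π, t, hπ, htJ, ht, hYs, ?_, ?_, ?_⟩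
  · intro p
    have h1 := act_mem_span hPLY (F.J (K := K)) (3 * k + 1) T' T hT'J hTJ F.fh p
    have h2 := Submodule.smul_mem _ (⟨κ ^ (3 * k), hκJ⟩ : F.J (K := K)) h1
    have h3 : σ (F.fh p) = κ ^ (3 * k) * act T' T F.fh p := hfs p
    rw [h3]
    exact h2
  · intro β
    obtain ⟨d1, -, -⟩ := hDVA 3 (3 * k) Ω
    have h1 : σ (dv F.fh β) = dv (fun p => s (F.fh p)) β :=
      (congrFun ((hDVA 3 (3 * k) Ω).2.2 Ω s F.fh) β).symm
    have h2 : (fun p => s (F.fh p)) =
        fun p => κ ^ (3 * k) * act T' T F.fh p + 0 * act T' T F.fh p := by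
      funext p
      rw [hfs, zero_mul, add_zero]
    rw [h1, h2, (hDVA 3 (3 * k) Ω).2.1, d1 T' T F.fh (mul_eq_one_comm.1 hT'T)]
    have h3 : κ ^ (3 * k) * act1 T (dv F.fh) β + 0 * act1 T (dv F.fh) β ∈
        Submodule.span (F.J (K := K)) (Set.range (dv F.fh)) := by
      rw [zero_mul, add_zero]
      exact Submodule.smul_mem _ (⟨κ ^ (3 * k), hκJ⟩ : F.J (K := K))
        (act1_mem_span hPLY (F.J (K := K)) (3 * k) T hTJ (dv F.fh) β)
    exact h3
  · intro hl
    have hπ1 : ∀ i, π i = i := by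
      intro i
      by_contra h
      refine hne _ _ h ?_
      rw [← hπ i]
      exact hl i
    have ht1 : ∀ j, t j = 1 := by
      intro j
      by_cases hj : j = 0
      · rw [hj, ht0]
      · rw [htj j hj, hπ1, hπ1]
        fin_cases j
        · exact absurd rfl hj
        · exact F.fr.2.2.2.1
        · exact F.fr.2.2.2.2.1
    have hT1 : T = 1 := by
      ext i j
      simp only [hT, Matrix.of_apply, hπ1, ht1, Matrix.one_apply]
    have hT'1 : T' = 1 := by
      ext i j
      simp only [hT', Matrix.of_apply, hπ1, ht1, Matrix.one_apply, inv_one]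
    constructor
    · intro i j
      have := hYs i j
      rw [hπ1, hπ1, ht1, ht1, inv_one, one_mul, mul_one] at this
      exact this
    · intro p
      have h1 : σ (F.fh p) = κ ^ (3 * k) * act T' T F.fh p := hfs p
      rw [h1, hT1, hT'1, a8]
      rw [hT1, Matrix.det_one, one_pow, mul_one] at hdet
      rw [hdet, one_mul]

end Pool.Agent.Z15.MI
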