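import Mathlib

set_option autoImplicit false

/-!
# Linear equations over a subfield
-/

namespace Pool.Agent.Z15.MI.SPL

open Module

/-- the solution `c` (over the larger field `W`) of a system of linear equations over `J` lies in the span of `1` and of
as many elements as the kernel has dimensions -/
theorem lin (J W : Type) [Field J] [Field W] [Algebra J W] (I κ : Type) [Fintype I] [Fintype κ]
    (a : κ → I → J) (c : I → W) (b : κ → J)
    (hc : ∀ k, ∑ i, algebraMap J W (a k i) * c i = algebraMap J W (b k))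
    (S : Submodule J (κ → J))
    (hS : ∀ y ∈ S, ∃ x : I → W, ∀ k, ∑ i, algebraMap J W (a k i) * x i = algebraMap J W (y k))
    (d : ℕ) (hd : Fintype.card I ≤ d + finrank J S) :
    ∃ z : Fin d → W, ∀ i, c i ∈ Submodule.span J (insert 1 (Set.range z)) := by
  classical
  obtain ⟨L, hL⟩ : ∃ L : (I → J) →ₗ[J] (κ → J), ∀ x k, L x k = ∑ i, a k i * x i :=
    ⟨Matrix.mulVecLin (Matrix.of a), fun x k => rfl⟩
  obtain ⟨g, hg⟩ := LinearMap.exists_leftInverse_of_injective (Algebra.linearMap J W)
    (LinearMap.ker_eq_bot.2 (algebraMap J W).injective)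
  have hg1 : ∀ r : J, g (algebraMap J W r) = r := fun r => LinearMap.congr_fun hg r
  have hSL : S ≤ LinearMap.range L := by
    intro y hy
    obtain ⟨x, hx⟩ := hS y hy
    refine ⟨fun i => g (x i), ?_⟩
    ext k
    rw [hL, ← hg1 (y k), ← hx k, map_sum]
    refine Finset.sum_congr rfl fun i _ => ?_
    rw [← Algebra.smul_def, map_smul, smul_eq_mul]
  have h1 : finrank J S ≤ finrank J (LinearMap.range L) := Submodule.finrank_mono hSL
  have h2 := L.finrank_range_add_finrank_ker
  rw [finrank_fintype_fun_eq_card] at h2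
  have h3 : finrank J (LinearMap.ker L) ≤ d := by omega
  set N : Submodule J W := Submodule.span J {1} with hN
  have hb : ∀ r : J, N.mkQ (algebraMap J W r) = 0 := by
    intro r
    rw [Submodule.mkQ_apply, Submodule.Quotient.mk_eq_zero, Algebra.algebraMap_eq_smul_one]
    exact Submodule.smul_mem _ _ (Submodule.mem_span_singleton_self _)
  set T : Submodule J (W ⧸ N) := Submodule.span J (Set.range fun i => N.mkQ (c i)) with hT
  have hTm : ∀ i, N.mkQ (c i) ∈ T := fun i => Submodule.subset_span ⟨i, rfl⟩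
  have : FiniteDimensional J T := FiniteDimensional.span_of_finite J (Set.finite_range _)
  obtain ⟨E, hE⟩ : ∃ E : Dual J T →ₗ[J] (I → J), ∀ p i, E p i = p ⟨N.mkQ (c i), hTm i⟩ :=
    ⟨LinearMap.pi fun i => LinearMap.applyₗ (⟨N.mkQ (c i), hTm i⟩ : T), fun p i => rfl⟩
  have hEker : ∀ p, E p ∈ LinearMap.ker L := by
    intro p
    rw [LinearMap.mem_ker]
    ext k
    rw [hL]
    have h4 : ∑ i, a k i * E p i = p (∑ i, a k i • (⟨N.mkQ (c i), hTm i⟩ : T)) := by
      rw [map_sum]
      refine Finset.sum_congr rfl fun i _ => ?_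
      rw [map_smul, hE, smul_eq_mul]
    have h5 : ∑ i, a k i • (⟨N.mkQ (c i), hTm i⟩ : T) = 0 := by
      apply Subtype.ext
      rw [Submodule.coe_sum]
      have h6 : ∑ i, ((a k i • (⟨N.mkQ (c i), hTm i⟩ : T) : T) : W ⧸ N) =
          N.mkQ (∑ i, algebraMap J W (a k i) * c i) := by
        rw [map_sum]
        refine Finset.sum_congr rfl fun i _ => ?_
        rw [← Algebra.smul_def, map_smul]
        rfl
      rw [h6, hc, hb]
      rfl
    rw [h4, h5, map_zero]
    rfl
  have hEinj : Function.Injective (E.codRestrict (LinearMap.ker L) hEker) := by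
    rw [← LinearMap.ker_eq_bot, LinearMap.ker_eq_bot']
    intro p hp
    have hp' : ∀ i, p ⟨N.mkQ (c i), hTm i⟩ = 0 := by
      intro i
      rw [← hE]
      have := congrArg (fun v : LinearMap.ker L => (v : I → J) i) hp
      exact this
    apply LinearMap.ext
    rintro ⟨t, ht⟩
    rw [LinearMap.zero_apply]
    induction ht using Submodule.span_induction with
    | mem x hx =>
      obtain ⟨i, rfl⟩ := hx
      exact hp' i
    | zero => exact map_zero p
    | add x y hx hy h h' =>
      have := map_add p ⟨x, hx⟩ ⟨y, hy⟩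
      rw [h, h', add_zero] at this
      exact this
    | smul r x hx h =>
      have := map_smul p r ⟨x, hx⟩
      rw [h, smul_zero] at this
      exact this
  have h7 : finrank J T ≤ d := by
    have h8 := LinearMap.finrank_le_finrank_of_injective hEinj
    rw [Subspace.dual_finrank_eq] at h8
    omega
  have key : ∀ B : Basis (Fin (finrank J T)) J T, ∃ z : Fin d → W,
      ∀ (j : Fin d) (h : j.1 < finrank J T), N.mkQ (z j) = (B ⟨j.1, h⟩).1 := by
    intro B
    have : ∀ j : Fin d, ∃ w : W, ∀ h : j.1 < finrank J T, N.mkQ w = (B ⟨j.1, h⟩).1 := by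
      intro j
      by_cases h : j.1 < finrank J T
      · obtain ⟨w, hw⟩ := N.mkQ_surjective (B ⟨j.1, h⟩).1
        exact ⟨w, fun _ => hw⟩
      · exact ⟨0, fun h' => absurd h' h⟩
    choose z hz using this
    exact ⟨z, hz⟩
  obtain ⟨z, hz⟩ := key (finBasis J T)
  refine ⟨z, fun i => ?_⟩
  have h9 : N.mkQ (c i) ∈ Submodule.map N.mkQ (Submodule.span J (Set.range z)) := by
    have h10 := (finBasis J T).sum_repr ⟨N.mkQ (c i), hTm i⟩
    have h11 := congrArg (fun v : T => (v : W ⧸ N)) h10
    simp only [Submodule.coe_sum, Submodule.coe_smul] at h11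
    rw [← h11]
    refine Submodule.sum_mem _ fun j _ => Submodule.smul_mem _ _ ?_
    have hj : j.1 < d := lt_of_lt_of_le j.2 h7
    exact ⟨z ⟨j.1, hj⟩, Submodule.subset_span ⟨_, rfl⟩, hz ⟨j.1, hj⟩ j.2⟩
  obtain ⟨u, hu, huc⟩ := h9
  have h12 : c i - u ∈ N := by
    rw [← Submodule.Quotient.mk_eq_zero, ← Submodule.mkQ_apply, map_sub, huc, sub_self]
  have h13 : c i = (c i - u) + u := by ring
  rw [h13]
  refine Submodule.add_mem _ ?_ (Submodule.span_mono (Set.subset_insert _ _) hu)
  exact Submodule.span_mono (Set.singleton_subset_iff.2 (Set.mem_insert _ _)) h12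

end Pool.Agent.Z15.MI.SPL
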