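import Pool.Agent.Z15.MI.Stm
import Pool.Agent.Z15.MI.SPL

set_option autoImplicit false

/-!
# The linear algebra half of SP4
-/

namespace Pool.Agent.Z15.MI.SPM

open MvPolynomial Matrix Pool.Agent.Z15.ME Pool.Agent.Z15.MH Module

theorem card34 : Nat.card (Mon 3 4) ≤ 15 := by
  have h : Fintype.card {x : Fin 5 × Fin 5 // x.1.1 + x.2.1 ≤ 4} = 15 := by decide
  rw [← h, ← Nat.card_eq_fintype_card]
  have hs : ∀ α : Mon 3 4, α.1 0 + α.1 1 + α.1 2 = 4 := by
    intro α
    have h1 := α.2
    rw [Finsupp.degree_eq_sum, Fin.sum_univ_three] at h1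
    exact h1
  refine Nat.card_le_card_of_injective
    (fun α : Mon 3 4 => (⟨(⟨α.1 0, by have := hs α; omega⟩, ⟨α.1 1, by have := hs α; omega⟩),
      by have := hs α; show α.1 0 + α.1 1 ≤ 4; omega⟩ : {x : Fin 5 × Fin 5 // x.1.1 + x.2.1 ≤ 4})) ?_
  intro α β hab
  have h1 := congrArg (fun x => x.1.1.1) hab
  have h2 := congrArg (fun x => x.1.2.1) hab
  simp only at h1 h2
  have ha := hs α
  have hb := hs β
  apply Subtype.ext
  ext i
  fin_cases i
  · exact h1
  · exact h2
  · show α.1 2 = β.1 2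
    omega

theorem card33 : 10 ≤ Nat.card (Mon 3 3) := by
  have h : Fintype.card {x : Fin 4 × Fin 4 // x.1.1 + x.2.1 ≤ 3} = 10 := by decide
  rw [← h, ← Nat.card_eq_fintype_card]
  refine Nat.card_le_card_of_injective
    (fun x : {x : Fin 4 × Fin 4 // x.1.1 + x.2.1 ≤ 3} => (⟨Finsupp.single 0 x.1.1.1 + Finsupp.single 1 x.1.2.1 +
      Finsupp.single 2 (3 - x.1.1.1 - x.1.2.1), by
        rw [map_add, map_add, Finsupp.degree_single, Finsupp.degree_single, Finsupp.degree_single]
        have := x.2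
        omega⟩ : Mon 3 3)) ?_
  intro x y hxy
  have h0 := congrArg (fun α : Mon 3 3 => α.1 0) hxy
  have h1 := congrArg (fun α : Mon 3 3 => α.1 1) hxy
  simp [Finsupp.single_apply] at h0 h1
  exact Subtype.ext (Prod.ext (Fin.ext (by exact_mod_cast h0)) (Fin.ext (by exact_mod_cast h1)))

/-- the index set of the equations -/
abbrev Kp : Type := Mon 3 3 ⊕ (Fin 3 × Fin 3) ⊕ (Fin 3 × Fin 3)

/-- the equations -/
noncomputable def La {R : Type} [CommRing R] (F : Mon 3 3 → R) (c : Ix 2 3 → R) : Kp → R :=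
  Sum.elim (dv c) (Sum.elim (fun p => XX F c p.1 p.2) fun p => YY F c p.1 p.2)

theorem La_lin (hTRX : S_TRX) (hTRY : S_TRY) (hDVA : ME.S_DVA) {R : Type} [CommRing R] (F : Mon 3 3 → R)
    (f f' : Ix 2 3 → R) (a b : R) :
    La F (fun p => a * f p + b * f' p) = a • La F f + b • La F f' := by
  ext k
  rcases k with β | p | p
  · exact congrFun ((hDVA 3 3 R).2.1 f f' a b) β
  · exact congrFun (congrFun ((hTRX R).2.2.1 F f f' a b) p.1) p.2
  · exact congrFun (congrFun ((hTRY R).2.2.1 F f f' a b) p.1) p.2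

theorem La_map (hTRX : S_TRX) (hTRY : S_TRY) (hDVA : ME.S_DVA) {R S : Type} [CommRing R] [CommRing S] (σ : R →+* S)
    (F : Mon 3 3 → R) (f : Ix 2 3 → R) :
    La (fun β => σ (F β)) (fun p => σ (f p)) = fun k => σ (La F f k) := by
  ext k
  rcases k with β | p | p
  · exact congrFun ((hDVA 3 3 R).2.2 S σ f) β
  · exact congrFun (congrFun ((hTRX R).2.2.2 S σ F f) p.1) p.2
  · exact congrFun (congrFun ((hTRY R).2.2.2 S σ F f) p.1) p.2

/-- a linear map -/
theorem sum_of_lin {I V R : Type} [Fintype I] [DecidableEq I] [CommRing R] [AddCommGroup V] [Module R V]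
    (Φ : (I → R) → V) (h : ∀ (f f' : I → R) (a b : R), Φ (fun p => a * f p + b * f' p) = a • Φ f + b • Φ f')
    (c : I → R) : Φ c = ∑ p, c p • Φ (Pi.single p 1) := by
  let T : (I → R) →ₗ[R] V :=
    { toFun := Φ
      map_add' := fun f g => by
        have := h f g 1 1
        simp only [one_mul, one_smul] at this
        exact this
      map_smul' := fun a f => by
        have := h f f a 0
        simp only [zero_mul, add_zero, zero_smul] at this
        exact this }
  have h1 := LinearMap.pi_apply_eq_sum_univ T c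
  have e : ∀ i : I, (fun j => if i = j then (1 : R) else 0) = Pi.single i 1 := by
    intro i
    ext j
    rw [Pi.single_apply]
    by_cases hij : i = j
    · rw [if_pos hij, if_pos hij.symm]
    · rw [if_neg hij, if_neg (Ne.symm hij)]
  simp only [e] at h1
  exact h1

theorem eqs (hTRX : S_TRX) (hTRY : S_TRY) (hDVA : ME.S_DVA) {J W : Type} [Field J] [Field W] [Algebra J W]
    [DecidableEq (Ix 2 3)] (F : Mon 3 3 → J) (x : Ix 2 3 → W) (k : Kp) :
    ∑ p, algebraMap J W (La F (Pi.single p 1) k) * x p = La (fun β => algebraMap J W (F β)) x k := by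
  have h1 := sum_of_lin (fun c : Ix 2 3 → W => La (fun β => algebraMap J W (F β)) c)
    (fun f f' a b => La_lin hTRX hTRY hDVA _ f f' a b) x
  have h2 : La (fun β => algebraMap J W (F β)) x k =
      (∑ p, x p • La (fun β => algebraMap J W (F β)) (Pi.single p 1)) k := congrFun h1 k
  rw [h2, Finset.sum_apply]
  refine Finset.sum_congr rfl fun p _ => ?_
  have h3 := congrFun (La_map hTRX hTRY hDVA (algebraMap J W) F (Pi.single p 1)) k
  have h4 : (fun q => algebraMap J W ((Pi.single p 1 : Ix 2 3 → J) q)) = Pi.single p 1 := by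
    ext q
    by_cases hq : q = p
    · subst hq
      simp
    · simp [hq]
  rw [h4] at h3
  rw [Pi.smul_apply, smul_eq_mul, h3, mul_comm]

theorem spm (hTRX : S_TRX) (hTRY : S_TRY) (hDVA : ME.S_DVA) (hEMB : ME.S_EMB)
    (J W : Type) [Field J] [Field W] [CharZero W] [Algebra J W] (F : Mon 3 3 → J) (c : Ix 2 3 → W)
    (hc : ∀ β, dv c β = 0) (P Q : Matrix (Fin 3) (Fin 3) J)
    (hP : XX (fun β => algebraMap J W (F β)) c = P.map (algebraMap J W))
    (hQ : YY (fun β => algebraMap J W (F β)) c = Q.map (algebraMap J W))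
    (hs : ∀ P Q : Matrix (Fin 3) (Fin 3) W, P.trace = 0 → Q.trace = 0 → ∃ f : Ix 2 3 → W, (∀ β, dv f β = 0) ∧
      XX (fun β => algebraMap J W (F β)) f = P ∧ YY (fun β => algebraMap J W (F β)) f = Q) :
    ∃ z : Fin 19 → W, ∀ p, c p ∈ Submodule.span J (insert 1 (Set.range z)) := by
  classical
  -- the subspace
  have hlam := fun (G G' : Mon 3 3 → J) (a b : J) =>
    (congrArg (fun e => (YY F e).trace) ((hEMB 3 3 J).2.2.1 G G' a b)).trans
      (congrArg Matrix.trace ((hTRY J).2.2.1 F (emb G) (emb G') a b))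
  let lam : (Mon 3 3 → J) →ₗ[J] J :=
    { toFun := fun G => (YY F (emb G)).trace
      map_add' := fun G G' => by
        have := hlam G G' 1 1
        simp only [one_mul, one_smul, Matrix.trace_add] at this
        exact this
      map_smul' := fun a G => by
        have := hlam G G a 0
        simp only [zero_mul, add_zero, zero_smul, Matrix.trace_smul] at this
        exact this }
  obtain ⟨T1, hT1'⟩ : ∃ T1 : (Kp → J) →ₗ[J] J, ∀ y, T1 y = ∑ i : Fin 3, y (Sum.inr (Sum.inl (i, i))) :=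
    ⟨∑ i : Fin 3, LinearMap.proj (R := J) (φ := fun _ : Kp => J) (Sum.inr (Sum.inl (i, i))), fun y => by
      rw [LinearMap.sum_apply]
      rfl⟩
  obtain ⟨T2, hT2'⟩ : ∃ T2 : (Kp → J) →ₗ[J] J, ∀ y, T2 y = ∑ i : Fin 3, y (Sum.inr (Sum.inr (i, i))) -
      (6 : J)⁻¹ * (YY F (emb fun β => y (Sum.inl β))).trace :=
    ⟨(∑ i : Fin 3, LinearMap.proj (R := J) (φ := fun _ : Kp => J) (Sum.inr (Sum.inr (i, i)))) -
      (6 : J)⁻¹ • lam.comp (LinearMap.funLeft J J Sum.inl), fun y => by
      rw [LinearMap.sub_apply, LinearMap.sum_apply]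
      rfl⟩
  obtain ⟨T, hT⟩ : ∃ T : (Kp → J) →ₗ[J] (J × J), ∀ y, T y = (T1 y, T2 y) := ⟨T1.prod T2, fun y => rfl⟩
  have hT1 : ∀ y, (T y).1 = ∑ i : Fin 3, y (Sum.inr (Sum.inl (i, i))) := by
    intro y
    rw [hT, ← hT1']
  have hT2 : ∀ y, (T y).2 = ∑ i : Fin 3, y (Sum.inr (Sum.inr (i, i))) -
      (6 : J)⁻¹ * (YY F (emb fun β => y (Sum.inl β))).trace := by
    intro y
    rw [hT, ← hT2']
  have hdim : Fintype.card (Ix 2 3) ≤ 19 + finrank J (LinearMap.ker T) := by
    have h1 := T.finrank_range_add_finrank_ker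
    have h2 : finrank J (LinearMap.range T) ≤ 2 := by
      have := Submodule.finrank_le (LinearMap.range T)
      rw [Module.finrank_prod, Module.finrank_self] at this
      exact this
    rw [finrank_fintype_fun_eq_card, Fintype.card_sum, Fintype.card_sum] at h1
    have h3 : Fintype.card (Fin 3 × Fin 3) = 9 := by simp
    have h4 : Fintype.card (Ix 2 3) = 3 * Fintype.card (Mon 3 4) := by
      rw [Fintype.card_prod, Fintype.card_fin]
    have h5 := card34
    have h6 := card33
    rw [Nat.card_eq_fintype_card] at h5 h6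
    omega
  refine SPL.lin J W (Ix 2 3) Kp (fun k p => La F (Pi.single p 1) k) c
    (Sum.elim (fun _ => 0) (Sum.elim (fun p => P p.1 p.2) fun p => Q p.1 p.2)) ?_ (LinearMap.ker T) ?_ 19 hdim
  · intro k
    rw [eqs hTRX hTRY hDVA F c k]
    rcases k with β | p | p
    · show dv c β = algebraMap J W 0
      rw [hc, map_zero]
    · exact congrFun (congrFun hP p.1) p.2
    · exact congrFun (congrFun hQ p.1) p.2
  · intro y hy
    have hy0 : T y = 0 := hy
    have hy1 := hT1 y
    have hy2 := hT2 y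
    rw [hy0] at hy1 hy2
    obtain ⟨G, hG⟩ : ∃ G : Mon 3 3 → J, G = fun β => y (Sum.inl β) := ⟨_, rfl⟩
    rw [← hG] at hy2
    obtain ⟨u, hu⟩ : ∃ u : Ix 2 3 → W, u = fun p => (6 : W)⁻¹ * emb (fun β => algebraMap J W (G β)) p +
      0 * emb (fun β => algebraMap J W (G β)) p := ⟨_, rfl⟩
    have h6 : (6 : W) ≠ 0 := by norm_num
    have hu1 : ∀ β, dv u β = algebraMap J W (G β) := by
      intro β
      rw [hu, congrFun ((hDVA 3 3 W).2.1 _ _ (6 : W)⁻¹ 0) β, congrFun ((hEMB 3 3 W).1 _) β]
      push_cast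
      rw [zero_mul, add_zero, ← mul_assoc]
      norm_num
    have hu2 : (XX (fun β => algebraMap J W (F β)) u).trace = 0 := by
      have := (hTRX W).2.1 (fun β => algebraMap J W (F β)) u
      rw [smul_eq_mul] at this
      exact (mul_eq_zero.1 this).resolve_left two_ne_zero
    have hu3 : (YY (fun β => algebraMap J W (F β)) u).trace =
        algebraMap J W (∑ i : Fin 3, y (Sum.inr (Sum.inr (i, i)))) := by
      have e1 : ∑ i : Fin 3, y (Sum.inr (Sum.inr (i, i))) = (6 : J)⁻¹ * (YY F (emb G)).trace := by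
        have : (0 : J) = ∑ i : Fin 3, y (Sum.inr (Sum.inr (i, i))) - (6 : J)⁻¹ * (YY F (emb G)).trace := hy2
        exact (sub_eq_zero.1 this.symm)
      rw [e1, hu, (hTRY W).2.2.1, zero_smul, add_zero, Matrix.trace_smul, (hEMB 3 3 J).2.2.2 W (algebraMap J W) G,
        (hTRY J).2.2.2 W (algebraMap J W) F (emb G), map_mul, map_inv₀, smul_eq_mul]
      rw [map_ofNat, Matrix.trace, Matrix.trace, map_sum]
      rfl
    obtain ⟨f, hf1, hf2, hf3⟩ := hs
      (Matrix.of (fun i j => algebraMap J W (y (Sum.inr (Sum.inl (i, j))))) - XX (fun β => algebraMap J W (F β)) u)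
      (Matrix.of (fun i j => algebraMap J W (y (Sum.inr (Sum.inr (i, j))))) - YY (fun β => algebraMap J W (F β)) u)
      (by
        rw [Matrix.trace_sub, hu2, sub_zero]
        have : (0 : J) = ∑ i : Fin 3, y (Sum.inr (Sum.inl (i, i))) := hy1
        rw [← map_zero (algebraMap J W), this, map_sum]
        rfl)
      (by
        rw [Matrix.trace_sub, hu3, map_sum, sub_eq_zero]
        rfl)
    refine ⟨fun p => 1 * u p + 1 * f p, fun k => ?_⟩
    rw [eqs hTRX hTRY hDVA F _ k, La_lin hTRX hTRY hDVA, one_smul, one_smul]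
    rcases k with β | p | p
    · show dv u β + dv f β = _
      rw [hu1, hf1, add_zero, hG]
    · show XX (fun β => algebraMap J W (F β)) u p.1 p.2 + XX (fun β => algebraMap J W (F β)) f p.1 p.2 = _
      rw [hf2, Matrix.sub_apply, add_sub_cancel]
      rfl
    · show YY (fun β => algebraMap J W (F β)) u p.1 p.2 + YY (fun β => algebraMap J W (F β)) f p.1 p.2 = _
      rw [hf3, Matrix.sub_apply, add_sub_cancel]
      rfl

end Pool.Agent.Z15.MI.SPM
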