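import Pool.Agent.Z15.MI.SP4a
import Pool.Agent.Z15.MI.SPM
import Pool.Agent.Z15.MH.T_FIZ

/-! Project MI, task SP4: the self map `f̂` is in the span of `1` and 19 elements. -/

set_option autoImplicit false

namespace Pool.Agent.Z15.MI

open MvPolynomial Matrix Pool.Agent.Z15.ME Pool.Agent.Z15.MH

theorem t_SP4 (hTRX : S_TRX) (hTRY : S_TRY) (hSUR : S_SUR) (hAI4 : S_AI4) (hACT : ME.S_ACT)
    (hDVA : ME.S_DVA) (hEMB : ME.S_EMB) : S_SP4 := by
  intro K M _ _ _ _ D Ω _ _ _ _ _ _ F J' hl hYh hdv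
  have : CharZero M := charZero_of_injective_algebraMap (algebraMap K M).injective
  have : CharZero Ω := charZero_of_injective_algebraMap (algebraMap M Ω).injective
  have hd0 : ∀ β, dv (part2 F.fh) β = 0 := fun β =>
    congrFun (MH.FIZ.dv_part2 hDVA hEMB F.fh) β
  obtain ⟨z, hz⟩ := SPM.spm hTRX hTRY hDVA hEMB J' Ω (fun β => ⟨dv F.fh β, hdv β⟩)
    (part2 F.fh) hd0
    (Matrix.diagonal fun i => ⟨F.l i, hl i⟩) (Matrix.of fun i j => ⟨F.Yh i j, hYh i j⟩)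
    ((SP4a.XX_fh D F hTRX hACT hDVA hEMB).trans (by
      rw [Matrix.diagonal_map (map_zero _)]
      rfl))
    ((SP4a.YY_fh D F hTRY hACT hDVA hEMB).trans (by
      ext i j
      rfl))
    (fun P Q hP hQ => SP4a.surj D F hTRX hTRY hSUR hAI4 hDVA hACT P Q hP hQ)
  refine ⟨z, fun p => ?_⟩
  have h1 : F.fh p = part2 F.fh p + ((2 + 1 + 3 * 1 : ℕ) : Ω)⁻¹ * emb (dv F.fh) p := by
    unfold part2
    ring
  rw [h1]
  refine Submodule.add_mem _ (hz p) ?_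
  have h2 : ((2 + 1 + 3 * 1 : ℕ) : Ω)⁻¹ * emb (dv F.fh) p ∈ J' := by
    refine mul_mem (inv_mem (natCast_mem J' _)) ?_
    have h3 := (hEMB 3 (3 * 1) J').2.2.2 Ω (algebraMap J' Ω) (fun β => ⟨dv F.fh β, hdv β⟩)
    have h4 : emb (dv F.fh) p =
        algebraMap J' Ω (emb (fun β => (⟨dv F.fh β, hdv β⟩ : J')) p) := congrFun h3 p
    rw [h4]
    exact SetLike.coe_mem _
  have h5 : ((2 + 1 + 3 * 1 : ℕ) : Ω)⁻¹ * emb (dv F.fh) p =
      (⟨_, h2⟩ : J') • (1 : Ω) := by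
    exact (mul_one _).symm
  rw [h5]
  exact Submodule.smul_mem _ _ (Submodule.subset_span (Set.mem_insert _ _))

end Pool.Agent.Z15.MI
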