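import Pool.Agent.Z15.MI.Stm

/-!
# Surjectivity of the two covariant matrices at the generic cubic
-/

set_option autoImplicit false

namespace Pool.Agent.Z15.MI

open MvPolynomial Matrix Pool.Agent.Z15.ME Pool.Agent.Z15.MH

namespace SUR21

section
variable {R : Type} [CommRing R]

/-- the entries of the two matrices without the last ones -/
noncomputable def entries (F : Mon 3 3 → R) (f : Fin 3 × Mon 3 4 → R) : E8 ⊕ E8 → R :=
  Sum.elim (fun p => XX F f p.1.1 p.1.2) (fun p => YY F f p.1.1 p.1.2)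

/-- the traceless matrix with given entries -/
def mk (t : E8 → R) : Matrix (Fin 3) (Fin 3) R :=
  Matrix.of fun i j => if h : (i, j) ≠ (2, 2) then t ⟨(i, j), h⟩
    else - t ⟨(0, 0), by decide⟩ - t ⟨(1, 1), by decide⟩

lemma mk_apply (t : E8 → R) (p : E8) : mk t p.1.1 p.1.2 = t p := by
  obtain ⟨⟨i, j⟩, h⟩ := p
  unfold mk
  rw [Matrix.of_apply, dif_pos h]

lemma mk_trace (t : E8 → R) : (mk t).trace = 0 := by
  have h0 := mk_apply t ⟨(0, 0), by decide⟩
  have h1 := mk_apply t ⟨(1, 1), by decide⟩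
  have h2 : mk t 2 2 = - t ⟨(0, 0), by decide⟩ - t ⟨(1, 1), by decide⟩ := by
    unfold mk
    rw [Matrix.of_apply, dif_neg (by simp)]
  simp only at h0 h1
  rw [Matrix.trace_fin_three, h0, h1, h2]
  ring

lemma eq_of_entries (P P' : Matrix (Fin 3) (Fin 3) R) (hP : P.trace = 0) (hP' : P'.trace = 0)
    (h : ∀ p : E8, P p.1.1 p.1.2 = P' p.1.1 p.1.2) : P = P' := by
  have h0 := h ⟨(0, 0), by decide⟩
  have h1 := h ⟨(1, 1), by decide⟩
  simp only at h0 h1
  rw [Matrix.trace_fin_three] at hP hP'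
  ext i j
  by_cases hij : (i, j) = ((2, 2) : Fin 3 × Fin 3)
  · obtain ⟨rfl, rfl⟩ := Prod.mk.inj hij
    linear_combination hP - hP' - h0 - h1
  · exact h ⟨(i, j), hij⟩

/-- the entries are linear in `f` -/
noncomputable def L (hTRX : S_TRX) (hTRY : S_TRY) (F : Mon 3 3 → R) :
    (Fin 3 × Mon 3 4 → R) →ₗ[R] (E8 ⊕ E8 → R) where
  toFun := entries F
  map_add' := by
    intro f f'
    have h1 := (hTRX R).2.2.1 F f f' 1 1
    have h2 := (hTRY R).2.2.1 F f f' 1 1
    simp only [one_mul, one_smul] at h1 h2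
    funext e
    rcases e with p | p
    · exact congrFun (congrFun h1 p.1.1) p.1.2
    · exact congrFun (congrFun h2 p.1.1) p.1.2
  map_smul' := by
    intro a f
    have h1 := (hTRX R).2.2.1 F f f a 0
    have h2 := (hTRY R).2.2.1 F f f a 0
    simp only [zero_mul, zero_smul, add_zero] at h1 h2
    funext e
    rcases e with p | p
    · exact congrFun (congrFun h1 p.1.1) p.1.2
    · exact congrFun (congrFun h2 p.1.1) p.1.2

lemma L_apply (hTRX : S_TRX) (hTRY : S_TRY) (F : Mon 3 3 → R) (f : Fin 3 × Mon 3 4 → R) :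
    L hTRX hTRY F f = entries F f := rfl

lemma entries_map (hTRX : S_TRX) (hTRY : S_TRY) {S : Type} [CommRing S] (σ : R →+* S) (F : Mon 3 3 → R)
    (f : Fin 3 × Mon 3 4 → R) (e : E8 ⊕ E8) :
    entries (fun β => σ (F β)) (fun p => σ (f p)) e = σ (entries F f e) := by
  have h1 := (hTRX R).2.2.2 S σ F f
  have h2 := (hTRY R).2.2.2 S σ F f
  rcases e with p | p
  · exact congrFun (congrFun h1 p.1.1) p.1.2
  · exact congrFun (congrFun h2 p.1.1) p.1.2

/-- the divergence is linear -/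
noncomputable def dvL (hDVA : S_DVA) : (Fin 3 × Mon 3 4 → R) →ₗ[R] (Mon 3 3 → R) where
  toFun := fun f => dv f
  map_add' := by
    intro f f'
    have h1 := (hDVA 3 3 R).2.1 f f' 1 1
    simp only [one_mul] at h1
    exact h1
  map_smul' := by
    intro a f
    have h1 := (hDVA 3 3 R).2.1 f f a 0
    simp only [zero_mul, add_zero] at h1
    exact h1

end

end SUR21

open SUR21 in
theorem t_SUR (hDVA : S_DVA) (hTRX : S_TRX) (hTRY : S_TRY) (hFER : S_FER) : S_SUR := by
  intro K M _ _ _ _ F hF P Q hP hQ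
  classical
  obtain ⟨F0, h0⟩ := hFER K
  have h1 : ∀ i : E8 ⊕ E8, ∃ f : Fin 3 × Mon 3 4 → K, (∀ β, dv f β = 0) ∧
      entries (fun β => (F0 β : K)) f = Pi.single i 1 := by
    intro i
    obtain ⟨f, hf, hX, hY⟩ := h0 (mk fun p => (Pi.single i 1 : E8 ⊕ E8 → K) (Sum.inl p))
      (mk fun p => (Pi.single i 1 : E8 ⊕ E8 → K) (Sum.inr p)) (mk_trace _) (mk_trace _)
    refine ⟨f, hf, ?_⟩
    funext e
    rcases e with p | p
    · show XX _ f p.1.1 p.1.2 = _
      rw [hX, mk_apply]
    · show YY _ f p.1.1 p.1.2 = _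
      rw [hY, mk_apply]
  choose g hg hg' using h1
  obtain ⟨N, hN⟩ : ∃ N : Matrix (E8 ⊕ E8) (E8 ⊕ E8) (MvPolynomial (Mon 3 3) K),
      ∀ e i, N e i = entries (fun β => X β) (fun p => C (g i p)) e :=
    ⟨Matrix.of fun e i => entries (fun β => X β) (fun p => C (g i p)) e, fun e i => rfl⟩
  have hN0 : N.map (eval fun β => (F0 β : K)) = 1 := by
    ext e i
    rw [Matrix.map_apply, hN, ← entries_map hTRX hTRY]
    simp only [eval_X, eval_C]
    rw [hg' i, Matrix.one_apply, Pi.single_apply]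
  have hdet : N.det ≠ 0 := by
    intro h
    have h2 : (N.map (eval fun β => (F0 β : K))).det = 0 := by
      rw [← RingHom.mapMatrix_apply, ← RingHom.map_det, h, map_zero]
    rw [hN0, Matrix.det_one] at h2
    exact one_ne_zero h2
  obtain ⟨N', hN'⟩ : ∃ N' : Matrix (E8 ⊕ E8) (E8 ⊕ E8) M, N' = N.map (aeval F : MvPolynomial (Mon 3 3) K →ₐ[K] M) :=
    ⟨_, rfl⟩
  have hdet' : N'.det ≠ 0 := by
    intro h
    apply hdet
    apply hF.eq_zero_of_aeval_eq_zero
    rw [← h, hN', ← AlgHom.mapMatrix_apply, ← AlgHom.map_det]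
  have hent : ∀ e i, N' e i = entries F (fun p => algebraMap K M (g i p)) e := by
    intro e i
    rw [hN', Matrix.map_apply, hN]
    have h2 := entries_map hTRX hTRY ((aeval F : MvPolynomial (Mon 3 3) K →ₐ[K] M) : MvPolynomial (Mon 3 3) K →+* M)
      (fun β => X β) (fun p => C (g i p)) e
    simp only [RingHom.coe_coe, aeval_X, aeval_C] at h2
    exact h2.symm
  obtain ⟨t, ht⟩ : ∃ t : E8 ⊕ E8 → M, t = Sum.elim (fun p => P p.1.1 p.1.2) (fun p => Q p.1.1 p.1.2) := ⟨_, rfl⟩
  obtain ⟨c, hc⟩ : ∃ c : E8 ⊕ E8 → M, N' *ᵥ c = t :=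
    ⟨N'⁻¹ *ᵥ t, by rw [Matrix.mulVec_mulVec, Matrix.mul_nonsing_inv _ (Ne.isUnit hdet'), Matrix.one_mulVec]⟩
  obtain ⟨f, hf⟩ : ∃ f : Fin 3 × Mon 3 4 → M, f = ∑ i, c i • (fun p => algebraMap K M (g i p)) := ⟨_, rfl⟩
  have hdv : dv f = 0 := by
    have h2 : dvL hDVA f = 0 := by
      rw [hf, map_sum]
      refine Finset.sum_eq_zero fun i _ => ?_
      rw [map_smul]
      have h3 : dvL hDVA (fun p => algebraMap K M (g i p)) = 0 := by
        have h4 := (hDVA 3 3 K).2.2 M (algebraMap K M) (g i)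
        show dv (fun p => algebraMap K M (g i p)) = 0
        rw [h4]
        funext β
        rw [hg i β, map_zero]
        rfl
      rw [h3, smul_zero]
    exact h2
  have hentf : entries F f = t := by
    rw [← SUR21.L_apply hTRX hTRY, hf, map_sum, ← hc]
    funext e
    rw [Finset.sum_apply]
    unfold Matrix.mulVec dotProduct
    refine Finset.sum_congr rfl fun i _ => ?_
    rw [map_smul, Pi.smul_apply, SUR21.L_apply, smul_eq_mul, mul_comm]
    exact congrArg (fun z => z * c i) (hent e i).symm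
  have hdv' : ∀ β, dv f β = 0 := fun β => congrFun hdv β
  refine ⟨f, hdv', ?_, ?_⟩
  · refine eq_of_entries _ _ ?_ hP fun p => ?_
    · have h2 := (hTRX M).2.1 F f
      rw [smul_eq_mul] at h2
      refine (mul_eq_zero.1 h2).resolve_left ?_
      have h3 : (algebraMap K M) 2 ≠ 0 := by
        rw [map_ne_zero]
        exact two_ne_zero
      rwa [map_ofNat] at h3
    · have h2 := congrFun hentf (Sum.inl p)
      rw [ht] at h2
      exact h2
  · refine eq_of_entries _ _ ((hTRY M).2.1 F f hdv') hQ fun p => ?_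
    have h2 := congrFun hentf (Sum.inr p)
    rw [ht] at h2
    exact h2

end Pool.Agent.Z15.MI
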