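import Pool.Agent.Z15.MI.Stm
import Pool.Agent.Z15.ME.T_EVA

/-! Derivatives of forms under linear substitutions (T34). -/

set_option autoImplicit false

namespace Pool.Agent.Z15.MI

open MvPolynomial Matrix Pool.Agent.Z15.ME Pool.Agent.Z15.MH

namespace T34

variable {R : Type} [CommRing R] {n : ℕ}

theorem pd_comm (i j : Fin n) (F : MvPolynomial (Fin n) R) :
    pderiv i (pderiv j F) = pderiv j (pderiv i F) := by
  induction F using MvPolynomial.induction_on with
  | C r => simp
  | add p q hp hq => rw [map_add, map_add, map_add, map_add, hp, hq]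
  | mul_X p k hp =>
    have h1 : ∀ a b : Fin n, pderiv a (pderiv b (X k : MvPolynomial (Fin n) R)) = 0 := by
      intro a b
      by_cases h : b = k
      · subst h
        rw [pderiv_X_self, pderiv_one]
      · rw [pderiv_X_of_ne (Ne.symm h), map_zero]
    simp only [pderiv_mul, map_add, h1, hp]
    ring

/-- iterated derivatives -/
noncomputable def Dl : List (Fin n) → MvPolynomial (Fin n) R →ₗ[R] MvPolynomial (Fin n) R
  | [] => LinearMap.id
  | a :: l => (pderiv a : Derivation R (MvPolynomial (Fin n) R) (MvPolynomial (Fin n) R)).toLinearMap ∘ₗ Dl l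

theorem Dl_cons (a : Fin n) (l : List (Fin n)) (q : MvPolynomial (Fin n) R) :
    Dl (a :: l) q = pderiv a (Dl l q) := rfl

theorem Dl_comm (a : Fin n) (l : List (Fin n)) (q : MvPolynomial (Fin n) R) :
    pderiv a (Dl l q) = Dl l (pderiv a q) := by
  induction l with
  | nil => rfl
  | cons b l ih => rw [Dl_cons, Dl_cons, pd_comm, ih]

theorem Dl_lin (A : Matrix (Fin n) (Fin n) R) (a : Fin n) (l : List (Fin n))
    (q : MvPolynomial (Fin n) R) :
    eval 0 (Dl (a :: l) (lin A q)) = ∑ i, A i a * eval 0 (Dl l (lin A (pderiv i q))) := by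
  rw [Dl_cons, Dl_comm, EVA.pderiv_lin, map_sum, map_sum]
  refine Finset.sum_congr rfl fun i _ => ?_
  rw [C_mul', map_smul, smul_eval]

theorem Dl_nil (A : Matrix (Fin n) (Fin n) R) (q : MvPolynomial (Fin n) R) :
    eval 0 (Dl [] (lin A q)) = eval 0 q := by
  show eval 0 (lin A q) = eval 0 q
  rw [EVA.eval_lin, Matrix.mulVec_zero]

theorem three (A : Matrix (Fin n) (Fin n) R) (q : MvPolynomial (Fin n) R) (a b c : Fin n) :
    eval 0 (pderiv a (pderiv b (pderiv c (lin A q)))) = ∑ a', ∑ b', ∑ c', A a' a * A b' b * A c' c *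
      eval 0 (pderiv a' (pderiv b' (pderiv c' q))) := by
  have h0 : pderiv a (pderiv b (pderiv c (lin A q))) = Dl [a, b, c] (lin A q) := rfl
  rw [h0, Dl_lin]
  refine Finset.sum_congr rfl fun a' _ => ?_
  rw [Dl_lin, Finset.mul_sum]
  refine Finset.sum_congr rfl fun b' _ => ?_
  rw [Dl_lin, Finset.mul_sum, Finset.mul_sum]
  refine Finset.sum_congr rfl fun c' _ => ?_
  rw [Dl_nil, pd_comm b' a' q, pd_comm c' a', pd_comm c' b']
  ring

theorem four (A : Matrix (Fin n) (Fin n) R) (q : MvPolynomial (Fin n) R) (a b c d : Fin n) :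
    eval 0 (pderiv a (pderiv b (pderiv c (pderiv d (lin A q))))) =
      ∑ a', ∑ b', ∑ c', ∑ d', A a' a * A b' b * A c' c * A d' d *
      eval 0 (pderiv a' (pderiv b' (pderiv c' (pderiv d' q)))) := by
  have h0 : pderiv a (pderiv b (pderiv c (pderiv d (lin A q)))) = Dl [a, b, c, d] (lin A q) := rfl
  rw [h0, Dl_lin]
  refine Finset.sum_congr rfl fun a' _ => ?_
  rw [Dl_lin, Finset.mul_sum]
  refine Finset.sum_congr rfl fun b' _ => ?_
  rw [Dl_lin, Finset.mul_sum, Finset.mul_sum]
  refine Finset.sum_congr rfl fun c' _ => ?_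
  rw [Dl_lin, Finset.mul_sum, Finset.mul_sum, Finset.mul_sum]
  refine Finset.sum_congr rfl fun d' _ => ?_
  rw [Dl_nil]
  have h1 : pderiv d' (pderiv c' (pderiv b' (pderiv a' q))) =
      pderiv a' (pderiv b' (pderiv c' (pderiv d' q))) := by
    rw [pd_comm b' a' q, pd_comm c' a', pd_comm d' a', pd_comm c' b', pd_comm d' b', pd_comm d' c']
  rw [h1]
  ring

end T34

open T34 in
theorem t_T34 (hPOL : ME.S_POL) (hACT : ME.S_ACT) : S_T34 := by
  intro R _
  refine ⟨?_, ?_, ?_, ?_, ?_⟩
  · intro A F a b c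
    unfold t3
    rw [(hACT 3 3 R).1 A F, three]
  · intro A A' f n a b c d
    unfold t4
    rw [EVA.cmp_act hACT]
    have h0 : ∀ q : MvPolynomial (Fin 3) R,
        pderiv a (pderiv b (pderiv c (pderiv d q))) = Dl [a, b, c, d] q := fun _ => rfl
    rw [h0, map_sum, map_sum]
    refine Finset.sum_congr rfl fun n' _ => ?_
    rw [C_mul', map_smul, smul_eval, ← h0, four]
    simp only [Finset.mul_sum, mul_assoc]
  · intro F a b c
    unfold t3
    exact ⟨by rw [pd_comm a b], by rw [pd_comm b c]⟩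
  · intro f n a b c d
    unfold t4
    exact ⟨by rw [pd_comm a b], by rw [pd_comm b c], by rw [pd_comm c d]⟩
  · intro f hf a b c
    unfold t4
    have h0 : ∀ q : MvPolynomial (Fin 3) R,
        pderiv a (pderiv b (pderiv c q)) = Dl [a, b, c] q := fun _ => rfl
    have h1 : ∑ n, pderiv n (cmp f n) = 0 := by
      have h2 : (∑ n, pderiv n (cmp f n)).IsHomogeneous 3 := by
        refine IsHomogeneous.sum _ _ _ fun n _ => ?_
        have h3 := ((hPOL 3 4 R).1 fun α => f (n, α)).1
        exact h3.pderiv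
      have h4 := (hPOL 3 3 R).2.1 _ h2
      rw [← h4]
      have h5 : cf 3 (∑ n, pderiv n (cmp f n)) = fun _ => 0 := funext fun β => hf β
      rw [h5]
      unfold pol
      simp
    simp only [h0]
    rw [← map_sum, ← map_sum, h1, map_zero, map_zero]

end Pool.Agent.Z15.MI
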