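import Pool.Agent.Z15.MI.Stm

/-! Project MI, task TD4 (helper66): algebraic independence (adapted from MH/T_TDZ, helper37). -/

set_option autoImplicit false

namespace Pool.Agent.Z15.MI

open MvPolynomial Matrix Pool.Agent.Z15.ME Pool.Agent.Z15.MH

namespace TD4

theorem card15 : 15 ≤ Nat.card (Mon 3 4) := by
  have hS : Nat.card {p : Fin 5 × Fin 5 // p.1.1 + p.2.1 ≤ 4} = 15 := by
    rw [Nat.card_eq_fintype_card]
    decide
  rw [← hS]
  let φ : {p : Fin 5 × Fin 5 // p.1.1 + p.2.1 ≤ 4} → Mon 3 4 := fun p =>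
    ⟨Finsupp.equivFunOnFinite.symm ![p.1.1.1, p.1.2.1, 4 - p.1.1.1 - p.1.2.1], by
      rw [Finsupp.degree_eq_sum, Fin.sum_univ_three]
      have h := p.2
      show p.1.1.1 + p.1.2.1 + (4 - p.1.1.1 - p.1.2.1) = 4
      omega⟩
  refine Nat.card_le_card_of_injective φ ?_
  intro p q h
  have h1 : p.1.1.1 = q.1.1.1 := congrArg (fun a : Mon 3 4 => a.1 0) h
  have h2 : p.1.2.1 = q.1.2.1 := congrArg (fun a : Mon 3 4 => a.1 1) h
  exact Subtype.ext (Prod.ext (Fin.ext h1) (Fin.ext h2))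

end TD4

theorem t_TD4 (hACT : ME.S_ACT) (_hCRD : ME.S_CRD) : S_TD4 := by
  classical
  intro K M _ _ _ _ D Ω _ _ _ _ _ _ F e v w he hf
  obtain ⟨hBB, -⟩ := F.fr
  have hBB' : F.B' * F.B = 1 := mul_eq_one_comm.1 hBB
  let u : Fin 7 ⊕ (Fin 10 ⊕ Fin 19) → M := Sum.elim e (Sum.elim v w)
  let z : (Fin 7 ⊕ (Fin 10 ⊕ Fin 19)) ⊕ (Fin 3 × Fin 3) → Ω :=
    Sum.elim (fun i => algebraMap M Ω (u i)) (fun p => F.B p.1 p.2)
  let L : IntermediateField K Ω := IntermediateField.adjoin K (Set.range z)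
  let A : IntermediateField L Ω := algebraicClosure L Ω
  have hLA : ∀ x ∈ L, x ∈ A := fun x hx =>
    mem_algebraicClosure_iff.2 (isAlgebraic_algebraMap (⟨x, hx⟩ : L))
  have hwL : ∀ i, algebraMap M Ω (u i) ∈ L := fun i =>
    IntermediateField.subset_adjoin K _ ⟨Sum.inl i, rfl⟩
  have hBL : ∀ i j, F.B i j ∈ L := fun i j =>
    IntermediateField.subset_adjoin K _ ⟨Sum.inr (i, j), rfl⟩
  have hAK : ∀ (S : Set Ω), (∀ x ∈ S, x ∈ A) → ∀ x ∈ IntermediateField.adjoin K S, x ∈ A := by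
    intro S hS x hx
    have h1 : IntermediateField.adjoin K S ≤ A.restrictScalars K :=
      IntermediateField.adjoin_le_iff.2 hS
    exact h1 hx
  -- the roots
  have hcoef : ∀ i, algebraMap M Ω (D.X.charpoly.coeff i) ∈ L := by
    intro i
    have h1 : (IntermediateField.adjoin K (Set.range e)).map (IsScalarTower.toAlgHom K M Ω) ≤ L := by
      rw [IntermediateField.adjoin_map, IntermediateField.adjoin_le_iff]
      rintro _ ⟨_, ⟨i, rfl⟩, rfl⟩
      exact hwL (Sum.inl i)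
    exact h1 ⟨_, he i, rfl⟩
  have hl : ∀ i, F.l i ∈ A := by
    intro i
    have h1 : (D.X.charpoly.map (algebraMap M Ω)) ∈ Polynomial.lifts (algebraMap L Ω) := by
      rw [Polynomial.lifts_iff_coeff_lifts]
      intro n
      rw [Polynomial.coeff_map]
      exact ⟨⟨_, hcoef n⟩, rfl⟩
    obtain ⟨q, hq⟩ := (Polynomial.mem_lifts _).1 h1
    have hq0 : q ≠ 0 := by
      rintro rfl
      rw [Polynomial.map_zero] at hq
      exact (D.X.charpoly_monic.map (algebraMap M Ω)).ne_zero hq.symm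
    refine mem_algebraicClosure_iff.2 ⟨q, hq0, ?_⟩
    have h2 : D.X.charpoly.map (algebraMap M Ω) = ∏ i, (Polynomial.X - Polynomial.C (F.l i)) := F.hl
    rw [Polynomial.aeval_def, ← Polynomial.eval_map, hq, h2, Polynomial.eval_prod]
    exact Finset.prod_eq_zero (Finset.mem_univ i) (by simp)
  have hfA : ∀ p, F.fh p ∈ A := by
    intro p
    refine hAK _ ?_ _ (hf p)
    rintro x (⟨y, hy, rfl⟩ | ⟨i, rfl⟩)
    · rcases hy with (⟨i, rfl⟩ | ⟨i, rfl⟩) | ⟨i, rfl⟩
      · exact hLA _ (hwL (Sum.inl i))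
      · exact hLA _ (hwL (Sum.inr (Sum.inl i)))
      · exact hLA _ (hwL (Sum.inr (Sum.inr i)))
    · exact hl i
  have hBA : ∀ i j, F.B i j ∈ A := fun i j => hLA _ (hBL i j)
  let B₀ : Matrix (Fin 3) (Fin 3) A := Matrix.of fun i j => ⟨F.B i j, hBA i j⟩
  have hB₀ : B₀.map A.val.toRingHom = F.B := by
    ext i j
    rfl
  have hdet0 : B₀.det ≠ 0 := by
    intro h0
    have h1 : F.B.det = A.val.toRingHom B₀.det := by
      rw [← hB₀]
      exact (RingHom.map_det A.val.toRingHom B₀).symm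
    rw [h0, map_zero] at h1
    have h2 := congrArg Matrix.det hBB
    rw [Matrix.det_mul, h1, zero_mul, Matrix.det_one] at h2
    exact zero_ne_one h2
  have hinv : B₀ * B₀⁻¹ = 1 := Matrix.mul_nonsing_inv _ (Ne.isUnit hdet0)
  have hB' : F.B' = (B₀⁻¹).map A.val.toRingHom := by
    have h1 := congrArg (fun P : Matrix (Fin 3) (Fin 3) A => P.map A.val.toRingHom) hinv
    simp only [Matrix.map_mul] at h1
    rw [hB₀, Matrix.map_one _ (map_zero _) (map_one _)] at h1
    calc F.B' = F.B' * (F.B * (B₀⁻¹).map A.val.toRingHom) := by rw [h1, mul_one]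
      _ = (B₀⁻¹).map A.val.toRingHom := by rw [← mul_assoc, hBB', one_mul]
  -- the self map
  obtain ⟨-, -, -, -, -, -, hcomp, hone, -, -, hnat⟩ := hACT 3 (3 * 1 + 1) Ω
  have hnatA := (hACT 3 (3 * 1 + 1) A).2.2.2.2.2.2.2.2.2.2
  have hfM : ∀ p, algebraMap M Ω (D.f p) ∈ A := by
    have h1 : act F.B F.B' F.fh = fun p => algebraMap M Ω (D.f p) := by
      unfold FW.fh
      rw [hcomp, hBB, hone]
    intro p
    have h2 : algebraMap M Ω (D.f p) = act F.B F.B' F.fh p := by rw [h1]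
    rw [h2]
    have h3 := hnatA Ω A.val.toRingHom B₀ (B₀⁻¹) (fun p => (⟨F.fh p, hfA p⟩ : A))
    rw [hB₀, ← hB'] at h3
    have h4 : (fun p => A.val.toRingHom ((fun p => (⟨F.fh p, hfA p⟩ : A)) p)) = F.fh := rfl
    rw [h4] at h3
    rw [h3]
    exact (act B₀ (B₀⁻¹) (fun p => (⟨F.fh p, hfA p⟩ : A)) p).2
  -- everything is algebraic
  have hM : ∀ m : M, algebraMap M Ω m ∈ A := by
    intro m
    have h1 : m ∈ IntermediateField.adjoin K (Set.range D.f) := by
      rw [D.gen]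
      trivial
    have h2 : (IntermediateField.adjoin K (Set.range D.f)).map
        (IsScalarTower.toAlgHom K M Ω) ≤ A.restrictScalars K := by
      rw [IntermediateField.adjoin_map, IntermediateField.adjoin_le_iff]
      rintro _ ⟨_, ⟨i, rfl⟩, rfl⟩
      exact hfM i
    exact h2 ⟨_, h1, rfl⟩
  have halgA : Algebra.IsAlgebraic A Ω := by
    refine ⟨fun ω => ?_⟩
    obtain ⟨p, hp0, hp⟩ := Algebra.IsAlgebraic.isAlgebraic (R := M) ω
    let θ : M →+* A := (algebraMap M Ω).codRestrict A hM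
    have hθ : (algebraMap A Ω).comp θ = algebraMap M Ω := by
      ext m
      rfl
    refine ⟨p.map θ, ?_, ?_⟩
    · rw [Ne, Polynomial.map_eq_zero_iff θ.injective]
      exact hp0
    · rw [Polynomial.aeval_def, Polynomial.eval₂_map, hθ]
      exact hp
  have halg : Algebra.IsAlgebraic L Ω := Algebra.IsAlgebraic.trans L A Ω
  have halg' : Algebra.IsAlgebraic (Algebra.adjoin K (Set.range z)) Ω :=
    IntermediateField.isAlgebraic_adjoin_iff_top.1 halg
  have hinj : Function.Injective (IsScalarTower.toAlgHom K M Ω) := (algebraMap M Ω).injective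
  have hind := D.ind.map' hinj
  have hz := Algebra.IsAlgebraic.isTranscendenceBasis_of_le_trdeg_of_finite K z (by
    refine le_trans ?_ hind.cardinalMk_le_trdeg
    rw [← Nat.cast_card, ← Nat.cast_card]
    refine Nat.cast_le.2 ?_
    have h15 : 15 ≤ Nat.card (Mon (2 + 1) (3 * 1 + 1)) := TD4.card15
    simp only [Nat.card_sum, Nat.card_prod, Nat.card_fin]
    omega)
  have h1 := hz.1.comp Sum.inl Sum.inl_injective
  exact AlgebraicIndependent.of_comp (IsScalarTower.toAlgHom K M Ω) h1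

end Pool.Agent.Z15.MI
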