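import Pool.Agent.Z15.MI.Stm

set_option autoImplicit false

/-!
# `XX` transforms with weight 3
-/

namespace Pool.Agent.Z15.MI

open MvPolynomial Matrix Pool.Agent.Z15.ME Pool.Agent.Z15.MH

namespace TRXA

abbrev V : Type := Fin 3 × Fin 3 × Fin 3
abbrev W : Type := (Fin 3 × Fin 3) × V × V × Fin 3

section
variable {R : Type} [CommRing R]

/-- product of four sums -/
lemma prod4 {A B C D : Type} [Fintype A] [Fintype B] [Fintype C] [Fintype D]
    (f : A → R) (g : B → R) (h : C → R) (k : D → R) :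
    (∑ a, f a) * (∑ b, g b) * (∑ c, h c) * (∑ d, k d) =
      ∑ x : A × B × C × D, f x.1 * g x.2.1 * h x.2.2.1 * k x.2.2.2 := by
  simp only [Fintype.sum_prod_type, ← Finset.mul_sum, ← Finset.sum_mul]

def ev (v : V) : ℤ := ep v.1 v.2.1 v.2.2

def K3 (A' : Matrix (Fin 3) (Fin 3) R) (v' v : V) : R := A' v'.1 v.1 * A' v'.2.1 v.2.1 * A' v'.2.2 v.2.2

lemma contr (hEPS : S_EPS) (A' : Matrix (Fin 3) (Fin 3) R) (v' : V) :
    ∑ v : V, ((ev v : ℤ) : R) * K3 A' v' v = ((ev v' : ℤ) : R) * A'.det := by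
  have h := (hEPS R).1 A' v'.1 v'.2.1 v'.2.2
  simp only [Fintype.sum_prod_type, ev, K3]
  rw [← h]
  refine Finset.sum_congr rfl fun a _ => Finset.sum_congr rfl fun b _ => Finset.sum_congr rfl fun c _ => ?_
  ring

noncomputable def G2 (F : Mon 3 3 → R) (f : Fin 3 × Mon 3 4 → R) (j m : Fin 3) (x : W) : R :=
  t4 f x.2.2.2 x.1.1 x.2.1.1 x.2.2.1.1 j * t3 F m x.2.1.2.1 x.2.2.1.2.1 * t3 F x.1.2 x.2.1.2.2 x.2.2.1.2.2

def cc (i : Fin 3) (x : W) : R := ((ep i x.1.1 x.1.2 : ℤ) : R) * ((ev x.2.1 : ℤ) : R) * ((ev x.2.2.1 : ℤ) : R)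

def KK (A A' : Matrix (Fin 3) (Fin 3) R) (m : Fin 3) (x' x : W) : R :=
  (A' x'.1.1 x.1.1 * A' x'.1.2 x.1.2) * K3 A' x'.2.1 x.2.1 * K3 A' x'.2.2.1 x.2.2.1 *
    (A x.2.2.2 x'.2.2.2 * A' m x.2.2.2)

lemma contr2 (hEPS : S_EPS) (A A' : Matrix (Fin 3) (Fin 3) R) (hA : A * A' = 1) (i a' b' : Fin 3) :
    ∑ u : Fin 3 × Fin 3, ((ep i u.1 u.2 : ℤ) : R) * (A' a' u.1 * A' b' u.2) =
      A'.det * ∑ i', ((ep i' a' b' : ℤ) : R) * A i i' := by
  rw [← (hEPS R).2 A A' hA i a' b', Fintype.sum_prod_type]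
  refine Finset.sum_congr rfl fun a _ => Finset.sum_congr rfl fun b _ => ?_
  ring

lemma contr1 (A A' : Matrix (Fin 3) (Fin 3) R) (hA : A * A' = 1) (n' m : Fin 3) :
    ∑ n, A n n' * A' m n = if m = n' then 1 else 0 := by
  have h : A' * A = 1 := mul_eq_one_comm.1 hA
  have h2 : (A' * A) m n' = if m = n' then 1 else 0 := by
    rw [h, Matrix.one_apply]
  rw [← h2, Matrix.mul_apply]
  refine Finset.sum_congr rfl fun n _ => ?_
  ring

lemma contr4 (hEPS : S_EPS) (A A' : Matrix (Fin 3) (Fin 3) R) (hA : A * A' = 1) (i m : Fin 3) (x' : W) :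
    ∑ x : W, cc i x * KK A A' m x' x =
      A'.det ^ 3 * (∑ i', A i i' * cc i' x') * (if m = x'.2.2.2 then 1 else 0) := by
  have h := prod4 (fun u : Fin 3 × Fin 3 => ((ep i u.1 u.2 : ℤ) : R) * (A' x'.1.1 u.1 * A' x'.1.2 u.2))
    (fun v : V => ((ev v : ℤ) : R) * K3 A' x'.2.1 v)
    (fun v : V => ((ev v : ℤ) : R) * K3 A' x'.2.2.1 v) (fun n : Fin 3 => A n x'.2.2.2 * A' m n)
  rw [contr2 hEPS A A' hA, contr hEPS, contr hEPS, contr1 A A' hA] at h
  have h2 : ∑ x : W, cc i x * KK A A' m x' x = ∑ x : (Fin 3 × Fin 3) × V × V × Fin 3,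
      ((ep i x.1.1 x.1.2 : ℤ) : R) * (A' x'.1.1 x.1.1 * A' x'.1.2 x.1.2) *
      (((ev x.2.1 : ℤ) : R) * K3 A' x'.2.1 x.2.1) * (((ev x.2.2.1 : ℤ) : R) * K3 A' x'.2.2.1 x.2.2.1) *
      (A x.2.2.2 x'.2.2.2 * A' m x.2.2.2) := by
    refine Finset.sum_congr rfl fun x _ => ?_
    unfold cc KK
    ring
  rw [h2, ← h]
  have h3 : ∑ i', A i i' * cc i' x' = (∑ i', ((ep i' x'.1.1 x'.1.2 : ℤ) : R) * A i i') *
      (((ev x'.2.1 : ℤ) : R) * ((ev x'.2.2.1 : ℤ) : R)) := by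
    rw [Finset.sum_mul]
    refine Finset.sum_congr rfl fun i' _ => ?_
    unfold cc
    ring
  rw [h3]
  ring

lemma sumW (u : W → R) : ∑ x : W, u x = ∑ a, ∑ b, ∑ c, ∑ d, ∑ e, ∑ g, ∑ h, ∑ k, ∑ n,
    u ((a, b), (c, d, e), (g, h, k), n) := by
  simp only [Fintype.sum_prod_type]

lemma XX_eq (F : Mon 3 3 → R) (f : Fin 3 × Mon 3 4 → R) (i j : Fin 3) :
    XX F f i j = ∑ x : W, cc i x * G2 F f j x.2.2.2 x := by
  rw [sumW]
  unfold XX
  rw [Matrix.of_apply]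
  refine Finset.sum_congr rfl fun a _ => Finset.sum_congr rfl fun b _ => Finset.sum_congr rfl fun c _ =>
    Finset.sum_congr rfl fun d _ => Finset.sum_congr rfl fun e _ => Finset.sum_congr rfl fun g _ =>
    Finset.sum_congr rfl fun h _ => Finset.sum_congr rfl fun k _ => Finset.sum_congr rfl fun n _ => ?_
  unfold cc ev G2
  push_cast
  ring

lemma t3p (hT34 : S_T34) (A' : Matrix (Fin 3) (Fin 3) R) (F : Mon 3 3 → R) (a b c : Fin 3) :
    t3 (act1 A' F) a b c = ∑ v : V, A' v.1 a * A' v.2.1 b * A' v.2.2 c * t3 F v.1 v.2.1 v.2.2 := by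
  rw [(hT34 R).1 A' F a b c]
  simp only [Fintype.sum_prod_type]

lemma t4p (hT34 : S_T34) (A A' : Matrix (Fin 3) (Fin 3) R) (f : Fin 3 × Mon 3 4 → R) (n a b c d : Fin 3) :
    t4 (act A A' f) n a b c d = ∑ v : Fin 3 × Fin 3 × Fin 3 × Fin 3 × Fin 3,
      A n v.1 * A' v.2.1 a * A' v.2.2.1 b * A' v.2.2.2.1 c * A' v.2.2.2.2 d *
        t4 f v.1 v.2.1 v.2.2.1 v.2.2.2.1 v.2.2.2.2 := by
  rw [(hT34 R).2.1 A A' f n a b c d]
  simp only [Fintype.sum_prod_type]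

lemma prod3 {A B C : Type} [Fintype A] [Fintype B] [Fintype C]
    (f : A → R) (g : B → R) (h : C → R) :
    (∑ a, f a) * (∑ b, g b) * (∑ c, h c) = ∑ x : A × B × C, f x.1 * g x.2.1 * h x.2.2 := by
  simp only [Fintype.sum_prod_type, ← Finset.mul_sum, ← Finset.sum_mul]

def EE : (Fin 3 × Fin 3 × Fin 3 × Fin 3 × Fin 3) × V × V ≃ Fin 3 × Fin 3 × W where
  toFun x := (x.1.2.2.2.2, x.2.1.1, (x.1.2.1, x.2.2.1), (x.1.2.2.1, x.2.1.2.1, x.2.2.2.1),
    (x.1.2.2.2.1, x.2.1.2.2, x.2.2.2.2), x.1.1)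
  invFun y := ((y.2.2.2.2.2, y.2.2.1.1, y.2.2.2.1.1, y.2.2.2.2.1.1, y.1),
    (y.2.1, y.2.2.2.1.2.1, y.2.2.2.2.1.2.1), (y.2.2.1.2, y.2.2.2.1.2.2, y.2.2.2.2.1.2.2))
  left_inv _ := rfl
  right_inv _ := rfl

lemma G_act (hT34 : S_T34) (A A' : Matrix (Fin 3) (Fin 3) R) (F : Mon 3 3 → R) (f : Fin 3 × Mon 3 4 → R)
    (j : Fin 3) (x : W) :
    G2 (act1 A' F) (act A A' f) j x.2.2.2 x =
      ∑ j', ∑ m, ∑ x' : W, A' j' j * (KK A A' m x' x * G2 F f j' m x') := by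
  have hR : ∑ j', ∑ m, ∑ x' : W, A' j' j * (KK A A' m x' x * G2 F f j' m x') =
      ∑ y : Fin 3 × Fin 3 × W, A' y.1 j * (KK A A' y.2.1 y.2.2 x * G2 F f y.1 y.2.1 y.2.2) := by
    rw [Fintype.sum_prod_type]
    refine Finset.sum_congr rfl fun i' _ => ?_
    rw [Fintype.sum_prod_type]
  rw [hR]
  unfold G2
  rw [t4p hT34, t3p hT34, t3p hT34, prod3]
  refine Fintype.sum_equiv EE _ _ fun y => ?_
  simp only [EE, Equiv.coe_fn_mk, KK, K3]
  ring

theorem trans (hEPS : S_EPS) (hT34 : S_T34) (A A' : Matrix (Fin 3) (Fin 3) R) (F : Mon 3 3 → R)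
    (f : Fin 3 × Mon 3 4 → R) (hA : A * A' = 1) :
    XX (act1 A' F) (act A A' f) = A'.det ^ 3 • (A * XX F f * A') := by
  ext i j
  rw [XX_eq]
  simp_rw [G_act hT34, Finset.mul_sum]
  rw [Finset.sum_comm]
  have h1 : ∀ j' : Fin 3, ∑ x : W, ∑ m : Fin 3, ∑ x' : W, cc i x * (A' j' j * (KK A A' m x' x * G2 F f j' m x')) =
      A'.det ^ 3 * ((∑ i', A i i' * XX F f i' j') * A' j' j) := by
    intro j'
    rw [Finset.sum_comm]
    have h2 : ∀ m : Fin 3, ∑ x : W, ∑ x' : W, cc i x * (A' j' j * (KK A A' m x' x * G2 F f j' m x')) =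
        ∑ x' : W, if m = x'.2.2.2 then A'.det ^ 3 * (∑ i', A i i' * cc i' x') * (A' j' j * G2 F f j' m x') else 0 := by
      intro m
      rw [Finset.sum_comm]
      refine Finset.sum_congr rfl fun x' _ => ?_
      have h3 : ∑ x : W, cc i x * (A' j' j * (KK A A' m x' x * G2 F f j' m x')) =
          (A' j' j * G2 F f j' m x') * ∑ x : W, cc i x * KK A A' m x' x := by
        rw [Finset.mul_sum]
        refine Finset.sum_congr rfl fun x _ => ?_
        ring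
      rw [h3, contr4 hEPS A A' hA]
      split_ifs <;> ring
    rw [Finset.sum_congr rfl fun m _ => h2 m, Finset.sum_comm]
    simp_rw [Finset.sum_ite_eq']
    simp only [Finset.mem_univ, if_true]
    simp_rw [XX_eq, Finset.mul_sum, Finset.sum_mul, Finset.mul_sum]
    rw [Finset.sum_comm]
    refine Finset.sum_congr rfl fun i' _ => Finset.sum_congr rfl fun x' _ => ?_
    ring
  rw [Finset.sum_congr rfl fun i' _ => h1 i']
  rw [Matrix.smul_apply, Matrix.mul_apply, smul_eq_mul, Finset.mul_sum]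
  refine Finset.sum_congr rfl fun j' _ => ?_
  rw [Matrix.mul_apply]

lemma ep_swap (i a b : Fin 3) : ep a i b = - ep i a b := by
  revert i a b
  decide

theorem tr0 (hT34 : S_T34) (F : Mon 3 3 → R) (f : Fin 3 × Mon 3 4 → R) : (2 : R) • (XX F f).trace = 0 := by
  obtain ⟨-, -, -, h4, -⟩ := hT34 R
  have hs : ∀ n a c g i : Fin 3, t4 f n a c g i = t4 f n i c g a := by
    intro n a c g i
    rw [(h4 f n a c g i).1, (h4 f n c a g i).2.1, (h4 f n c g a i).2.2, (h4 f n c g i a).2.1,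
      (h4 f n c i g a).1]
  have h5 : (XX F f).trace = ∑ i, ∑ a, ∑ b, ∑ c, ∑ d, ∑ e, ∑ g, ∑ h, ∑ k, ∑ n,
      ((ep i a b * ep c d e * ep g h k : ℤ) : R) * t4 f n a c g i * t3 F n d h * t3 F b e k := by
    unfold Matrix.trace XX
    simp only [Matrix.diag_apply, Matrix.of_apply]
  have h6 : (XX F f).trace = -(XX F f).trace := by
    conv_lhs => rw [h5]
    rw [Finset.sum_comm, h5, ← Finset.sum_neg_distrib]
    refine Finset.sum_congr rfl fun i _ => ?_
    rw [← Finset.sum_neg_distrib]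
    refine Finset.sum_congr rfl fun a _ => ?_
    simp_rw [← Finset.sum_neg_distrib]
    refine Finset.sum_congr rfl fun b _ => Finset.sum_congr rfl fun c _ =>
      Finset.sum_congr rfl fun d _ => Finset.sum_congr rfl fun e _ => Finset.sum_congr rfl fun g _ =>
      Finset.sum_congr rfl fun h _ => Finset.sum_congr rfl fun k _ => Finset.sum_congr rfl fun n _ => ?_
    rw [ep_swap i a b, hs n i c g a]
    push_cast
    ring
  rw [smul_eq_mul, two_mul]
  nth_rewrite 1 [h6]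
  exact neg_add_cancel _

lemma pol_lin {n d : ℕ} (c c' : Mon n d → R) (a b : R) :
    pol (fun α => a * c α + b * c' α) = C a * pol c + C b * pol c' := by
  unfold pol
  rw [Finset.mul_sum, Finset.mul_sum, ← Finset.sum_add_distrib]
  refine Finset.sum_congr rfl fun α _ => ?_
  rw [map_add, C_mul_monomial, C_mul_monomial]

lemma t4_lin (f f' : Fin 3 × Mon 3 4 → R) (a b : R) (n p q r s : Fin 3) :
    t4 (fun x => a * f x + b * f' x) n p q r s = a * t4 f n p q r s + b * t4 f' n p q r s := by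
  unfold t4 ME.cmp
  rw [pol_lin]
  simp only [map_add, pderiv_C_mul, map_mul, eval_C]

theorem lin3 (F : Mon 3 3 → R) (f f' : Fin 3 × Mon 3 4 → R) (a b : R) :
    XX F (fun p => a * f p + b * f' p) = a • XX F f + b • XX F f' := by
  ext i j
  rw [Matrix.add_apply, Matrix.smul_apply, Matrix.smul_apply, XX_eq, XX_eq, XX_eq, smul_eq_mul, smul_eq_mul,
    Finset.mul_sum, Finset.mul_sum, ← Finset.sum_add_distrib]
  refine Finset.sum_congr rfl fun x _ => ?_
  unfold G2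
  rw [t4_lin]
  ring

lemma pol_map {n d : ℕ} {S : Type} [CommRing S] (σ : R →+* S) (c : Mon n d → R) :
    pol (fun α => σ (c α)) = MvPolynomial.map σ (pol c) := by
  unfold pol
  rw [map_sum]
  refine Finset.sum_congr rfl fun α _ => ?_
  rw [map_monomial]

lemma t3_map {S : Type} [CommRing S] (σ : R →+* S) (F : Mon 3 3 → R) (a b c : Fin 3) :
    t3 (fun β => σ (F β)) a b c = σ (t3 F a b c) := by
  unfold t3
  rw [pol_map]
  simp only [pderiv_map, eval_zero, constantCoeff_map]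

lemma t4_map {S : Type} [CommRing S] (σ : R →+* S) (f : Fin 3 × Mon 3 4 → R) (n a b c d : Fin 3) :
    t4 (fun β => σ (f β)) n a b c d = σ (t4 f n a b c d) := by
  unfold t4 ME.cmp
  rw [pol_map]
  simp only [pderiv_map, eval_zero, constantCoeff_map]

theorem map4 {S : Type} [CommRing S] (σ : R →+* S) (F : Mon 3 3 → R) (f : Fin 3 × Mon 3 4 → R) :
    XX (fun β => σ (F β)) (fun p => σ (f p)) = (XX F f).map σ := by
  ext i j
  rw [Matrix.map_apply, XX_eq, XX_eq, map_sum]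
  refine Finset.sum_congr rfl fun x _ => ?_
  unfold G2 cc
  simp only [t3_map, t4_map, map_mul, map_intCast]

end

end TRXA

theorem t_TRX (hEPS : S_EPS) (hT34 : S_T34) (_hACT : ME.S_ACT) : S_TRX := by
  intro R _
  exact ⟨fun A A' F f hA => TRXA.trans hEPS hT34 A A' F f hA, fun F f => TRXA.tr0 hT34 F f,
    fun F f f' a b => TRXA.lin3 F f f' a b, fun S _ σ F f => TRXA.map4 σ F f⟩

end Pool.Agent.Z15.MI
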