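import Pool.Agent.Z15.MI.Stm

set_option autoImplicit false

/-!
# `YY` transforms with weight 4
-/

namespace Pool.Agent.Z15.MI

open MvPolynomial Matrix Pool.Agent.Z15.ME Pool.Agent.Z15.MH

namespace TRYA

abbrev V : Type := Fin 3 × Fin 3 × Fin 3
abbrev W : Type := V × V × V × V

section
variable {R : Type} [CommRing R]

/-- product of four sums -/
lemma prod4 {A B C D : Type} [Fintype A] [Fintype B] [Fintype C] [Fintype D]
    (f : A → R) (g : B → R) (h : C → R) (k : D → R) :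
    (∑ a, f a) * (∑ b, g b) * (∑ c, h c) * (∑ d, k d) =
      ∑ x : A × B × C × D, f x.1 * g x.2.1 * h x.2.2.1 * k x.2.2.2 := by
  simp only [Fintype.sum_prod_type, ← Finset.mul_sum, ← Finset.sum_mul]

def ev (v : V) : ℤ := ep v.1 v.2.1 v.2.2

def K3 (A' : Matrix (Fin 3) (Fin 3) R) (v' v : V) : R := A' v'.1 v.1 * A' v'.2.1 v.2.1 * A' v'.2.2 v.2.2

lemma contr (hEPS : S_EPS) (A' : Matrix (Fin 3) (Fin 3) R) (v' : V) :
    ∑ v : V, ((ev v : ℤ) : R) * K3 A' v' v = ((ev v' : ℤ) : R) * A'.det := by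
  have h := (hEPS R).1 A' v'.1 v'.2.1 v'.2.2
  simp only [Fintype.sum_prod_type, ev, K3]
  rw [← h]
  refine Finset.sum_congr rfl fun a _ => Finset.sum_congr rfl fun b _ => Finset.sum_congr rfl fun c _ => ?_
  ring

noncomputable def GG (F : Mon 3 3 → R) (f : Fin 3 × Mon 3 4 → R) (i j : Fin 3) (x : W) : R :=
  t4 f i x.1.2.2 x.2.1.2.2 x.2.2.1.2.2 j * t3 F x.1.1 x.2.1.1 x.2.2.2.1 * t3 F x.1.2.1 x.2.2.1.1 x.2.2.2.2.1 *
    t3 F x.2.1.2.1 x.2.2.1.2.1 x.2.2.2.2.2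

def cc (x : W) : R := ((ev x.1 : ℤ) : R) * ((ev x.2.1 : ℤ) : R) * ((ev x.2.2.1 : ℤ) : R) * ((ev x.2.2.2 : ℤ) : R)

def KK (A' : Matrix (Fin 3) (Fin 3) R) (x' x : W) : R :=
  K3 A' x'.1 x.1 * K3 A' x'.2.1 x.2.1 * K3 A' x'.2.2.1 x.2.2.1 * K3 A' x'.2.2.2 x.2.2.2

lemma contr4 (hEPS : S_EPS) (A' : Matrix (Fin 3) (Fin 3) R) (x' : W) :
    ∑ x : W, cc x * KK A' x' x = A'.det ^ 4 * cc x' := by
  have h := prod4 (fun v : V => ((ev v : ℤ) : R) * K3 A' x'.1 v) (fun v : V => ((ev v : ℤ) : R) * K3 A' x'.2.1 v)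
    (fun v : V => ((ev v : ℤ) : R) * K3 A' x'.2.2.1 v) (fun v : V => ((ev v : ℤ) : R) * K3 A' x'.2.2.2 v)
  rw [contr hEPS, contr hEPS, contr hEPS, contr hEPS] at h
  have h2 : ∑ x : W, cc x * KK A' x' x = ∑ x : V × V × V × V, ((ev x.1 : ℤ) : R) * K3 A' x'.1 x.1 *
      (((ev x.2.1 : ℤ) : R) * K3 A' x'.2.1 x.2.1) * (((ev x.2.2.1 : ℤ) : R) * K3 A' x'.2.2.1 x.2.2.1) *
      (((ev x.2.2.2 : ℤ) : R) * K3 A' x'.2.2.2 x.2.2.2) := by
    refine Finset.sum_congr rfl fun x _ => ?_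
    unfold cc KK
    ring
  rw [h2, ← h]
  unfold cc
  ring

lemma sumW (u : W → R) : ∑ x : W, u x = ∑ a, ∑ b, ∑ c, ∑ d, ∑ e, ∑ g, ∑ h, ∑ k, ∑ p, ∑ q, ∑ r, ∑ s,
    u ((a, b, c), (d, e, g), (h, k, p), (q, r, s)) := by
  simp only [Fintype.sum_prod_type]

lemma YY_eq (F : Mon 3 3 → R) (f : Fin 3 × Mon 3 4 → R) (i j : Fin 3) :
    YY F f i j = ∑ x : W, cc x * GG F f i j x := by
  rw [sumW]
  unfold YY
  rw [Matrix.of_apply]
  refine Finset.sum_congr rfl fun a _ => Finset.sum_congr rfl fun b _ => Finset.sum_congr rfl fun c _ =>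
    Finset.sum_congr rfl fun d _ => Finset.sum_congr rfl fun e _ => Finset.sum_congr rfl fun g _ =>
    Finset.sum_congr rfl fun h _ => Finset.sum_congr rfl fun k _ => Finset.sum_congr rfl fun p _ =>
    Finset.sum_congr rfl fun q _ => Finset.sum_congr rfl fun r _ => Finset.sum_congr rfl fun s _ => ?_
  unfold cc ev GG
  push_cast
  ring

lemma t3p (hT34 : S_T34) (A' : Matrix (Fin 3) (Fin 3) R) (F : Mon 3 3 → R) (a b c : Fin 3) :
    t3 (act1 A' F) a b c = ∑ v : V, A' v.1 a * A' v.2.1 b * A' v.2.2 c * t3 F v.1 v.2.1 v.2.2 := by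
  rw [(hT34 R).1 A' F a b c]
  simp only [Fintype.sum_prod_type]

lemma t4p (hT34 : S_T34) (A A' : Matrix (Fin 3) (Fin 3) R) (f : Fin 3 × Mon 3 4 → R) (n a b c d : Fin 3) :
    t4 (act A A' f) n a b c d = ∑ v : Fin 3 × Fin 3 × Fin 3 × Fin 3 × Fin 3,
      A n v.1 * A' v.2.1 a * A' v.2.2.1 b * A' v.2.2.2.1 c * A' v.2.2.2.2 d *
        t4 f v.1 v.2.1 v.2.2.1 v.2.2.2.1 v.2.2.2.2 := by
  rw [(hT34 R).2.1 A A' f n a b c d]
  simp only [Fintype.sum_prod_type]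

def EE : (Fin 3 × Fin 3 × Fin 3 × Fin 3 × Fin 3) × V × V × V ≃ Fin 3 × Fin 3 × W where
  toFun x := (x.1.1, x.1.2.2.2.2, (x.2.1.1, x.2.2.1.1, x.1.2.1), (x.2.1.2.1, x.2.2.2.1, x.1.2.2.1),
    (x.2.2.1.2.1, x.2.2.2.2.1, x.1.2.2.2.1), (x.2.1.2.2, x.2.2.1.2.2, x.2.2.2.2.2))
  invFun y := ((y.1, y.2.2.1.2.2, y.2.2.2.1.2.2, y.2.2.2.2.1.2.2, y.2.1),
    (y.2.2.1.1, y.2.2.2.1.1, y.2.2.2.2.2.1), (y.2.2.1.2.1, y.2.2.2.2.1.1, y.2.2.2.2.2.2.1),
    (y.2.2.2.1.2.1, y.2.2.2.2.1.2.1, y.2.2.2.2.2.2.2))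
  left_inv _ := rfl
  right_inv _ := rfl

lemma GG_act (hT34 : S_T34) (A A' : Matrix (Fin 3) (Fin 3) R) (F : Mon 3 3 → R) (f : Fin 3 × Mon 3 4 → R)
    (i j : Fin 3) (x : W) :
    GG (act1 A' F) (act A A' f) i j x =
      ∑ i', ∑ j', ∑ x' : W, A i i' * A' j' j * (KK A' x' x * GG F f i' j' x') := by
  have hR : ∑ i', ∑ j', ∑ x' : W, A i i' * A' j' j * (KK A' x' x * GG F f i' j' x') =
      ∑ y : Fin 3 × Fin 3 × W, A i y.1 * A' y.2.1 j * (KK A' y.2.2 x * GG F f y.1 y.2.1 y.2.2) := by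
    rw [Fintype.sum_prod_type]
    refine Finset.sum_congr rfl fun i' _ => ?_
    rw [Fintype.sum_prod_type]
  rw [hR]
  unfold GG
  rw [t4p hT34, t3p hT34, t3p hT34, t3p hT34, prod4]
  refine Fintype.sum_equiv EE _ _ fun y => ?_
  simp only [EE, Equiv.coe_fn_mk, KK, K3]
  ring

theorem trans (hEPS : S_EPS) (hT34 : S_T34) (A A' : Matrix (Fin 3) (Fin 3) R) (F : Mon 3 3 → R)
    (f : Fin 3 × Mon 3 4 → R) : YY (act1 A' F) (act A A' f) = A'.det ^ 4 • (A * YY F f * A') := by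
  ext i j
  rw [YY_eq]
  simp_rw [GG_act hT34, Finset.mul_sum]
  rw [Finset.sum_comm]
  have h1 : ∀ i' : Fin 3, ∑ x : W, ∑ j' : Fin 3, ∑ x' : W, cc x * (A i i' * A' j' j * (KK A' x' x * GG F f i' j' x')) =
      ∑ j' : Fin 3, A'.det ^ 4 * (A i i' * YY F f i' j' * A' j' j) := by
    intro i'
    rw [Finset.sum_comm]
    refine Finset.sum_congr rfl fun j' _ => ?_
    rw [Finset.sum_comm, YY_eq, Finset.mul_sum, Finset.sum_mul, Finset.mul_sum]
    refine Finset.sum_congr rfl fun x' _ => ?_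
    have h2 : ∑ x : W, cc x * (A i i' * A' j' j * (KK A' x' x * GG F f i' j' x')) =
        (A i i' * A' j' j * GG F f i' j' x') * ∑ x : W, cc x * KK A' x' x := by
      rw [Finset.mul_sum]
      refine Finset.sum_congr rfl fun x _ => ?_
      ring
    rw [h2, contr4 hEPS]
    ring
  rw [Finset.sum_congr rfl fun i' _ => h1 i']
  rw [Matrix.smul_apply, Matrix.mul_apply, smul_eq_mul, Finset.mul_sum, Finset.sum_comm]
  refine Finset.sum_congr rfl fun j' _ => ?_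
  rw [Matrix.mul_apply, Finset.sum_mul, Finset.mul_sum]

theorem tr0 (hT34 : S_T34) (F : Mon 3 3 → R) (f : Fin 3 × Mon 3 4 → R) (h : ∀ β, dv f β = 0) :
    (YY F f).trace = 0 := by
  have h4 := (hT34 R).2.2.2.2 f h
  unfold Matrix.trace
  simp only [Matrix.diag_apply, YY_eq]
  rw [Finset.sum_comm]
  refine Finset.sum_eq_zero fun x _ => ?_
  have h5 : ∑ i : Fin 3, cc x * GG F f i i x = cc x * ((∑ i : Fin 3, t4 f i x.1.2.2 x.2.1.2.2 x.2.2.1.2.2 i) *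
      (t3 F x.1.1 x.2.1.1 x.2.2.2.1 * t3 F x.1.2.1 x.2.2.1.1 x.2.2.2.2.1 *
        t3 F x.2.1.2.1 x.2.2.1.2.1 x.2.2.2.2.2)) := by
    rw [Finset.sum_mul, Finset.mul_sum]
    refine Finset.sum_congr rfl fun i _ => ?_
    unfold GG
    ring
  rw [h5, h4]
  ring

lemma pol_lin {n d : ℕ} (c c' : Mon n d → R) (a b : R) :
    pol (fun α => a * c α + b * c' α) = C a * pol c + C b * pol c' := by
  unfold pol
  rw [Finset.mul_sum, Finset.mul_sum, ← Finset.sum_add_distrib]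
  refine Finset.sum_congr rfl fun α _ => ?_
  rw [map_add, C_mul_monomial, C_mul_monomial]

lemma t4_lin (f f' : Fin 3 × Mon 3 4 → R) (a b : R) (n p q r s : Fin 3) :
    t4 (fun x => a * f x + b * f' x) n p q r s = a * t4 f n p q r s + b * t4 f' n p q r s := by
  unfold t4 ME.cmp
  rw [pol_lin]
  simp only [map_add, pderiv_C_mul, map_mul, eval_C]

theorem lin3 (F : Mon 3 3 → R) (f f' : Fin 3 × Mon 3 4 → R) (a b : R) :
    YY F (fun p => a * f p + b * f' p) = a • YY F f + b • YY F f' := by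
  ext i j
  rw [Matrix.add_apply, Matrix.smul_apply, Matrix.smul_apply, YY_eq, YY_eq, YY_eq, smul_eq_mul, smul_eq_mul,
    Finset.mul_sum, Finset.mul_sum, ← Finset.sum_add_distrib]
  refine Finset.sum_congr rfl fun x _ => ?_
  unfold GG
  rw [t4_lin]
  ring

lemma pol_map {n d : ℕ} {S : Type} [CommRing S] (σ : R →+* S) (c : Mon n d → R) :
    pol (fun α => σ (c α)) = MvPolynomial.map σ (pol c) := by
  unfold pol
  rw [map_sum]
  refine Finset.sum_congr rfl fun α _ => ?_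
  rw [map_monomial]

lemma t3_map {S : Type} [CommRing S] (σ : R →+* S) (F : Mon 3 3 → R) (a b c : Fin 3) :
    t3 (fun β => σ (F β)) a b c = σ (t3 F a b c) := by
  unfold t3
  rw [pol_map]
  simp only [pderiv_map, eval_zero, constantCoeff_map]

lemma t4_map {S : Type} [CommRing S] (σ : R →+* S) (f : Fin 3 × Mon 3 4 → R) (n a b c d : Fin 3) :
    t4 (fun β => σ (f β)) n a b c d = σ (t4 f n a b c d) := by
  unfold t4 ME.cmp
  rw [pol_map]
  simp only [pderiv_map, eval_zero, constantCoeff_map]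

theorem map4 {S : Type} [CommRing S] (σ : R →+* S) (F : Mon 3 3 → R) (f : Fin 3 × Mon 3 4 → R) :
    YY (fun β => σ (F β)) (fun p => σ (f p)) = (YY F f).map σ := by
  ext i j
  rw [Matrix.map_apply, YY_eq, YY_eq, map_sum]
  refine Finset.sum_congr rfl fun x _ => ?_
  unfold GG cc
  simp only [t3_map, t4_map, map_mul, map_intCast]

end

end TRYA

theorem t_TRY (hEPS : S_EPS) (hT34 : S_T34) (_hACT : ME.S_ACT) : S_TRY := by
  intro R _
  exact ⟨fun A A' F f _ => TRYA.trans hEPS hT34 A A' F f, fun F f h => TRYA.tr0 hT34 F f h,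
    fun F f f' a b => TRYA.lin3 F f f' a b, fun S _ σ F f => TRYA.map4 σ F f⟩

end Pool.Agent.Z15.MI
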