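import Pool.Agent.Z15.ME.All
import Pool.Agent.Z15.ME.T_PLY
import Pool.Agent.Z15.MH.All4
import Pool.Agent.Z15.MI.Main5
import Pool.Agent.Z15.MI.T_AI4
import Pool.Agent.Z15.MI.T_DE4
import Pool.Agent.Z15.MI.T_DEW
import Pool.Agent.Z15.MI.T_EPS
import Pool.Agent.Z15.MI.T_EX4
import Pool.Agent.Z15.MI.T_EXW
import Pool.Agent.Z15.MI.T_FER
import Pool.Agent.Z15.MI.T_FKW
import Pool.Agent.Z15.MI.T_FR4
import Pool.Agent.Z15.MI.T_INW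
import Pool.Agent.Z15.MI.T_IR4
import Pool.Agent.Z15.MI.T_MEW
import Pool.Agent.Z15.MI.T_NR4
import Pool.Agent.Z15.MI.T_ON1
import Pool.Agent.Z15.MI.T_RA4
import Pool.Agent.Z15.MI.T_ROW
import Pool.Agent.Z15.MI.T_SP4
import Pool.Agent.Z15.MI.T_SUR
import Pool.Agent.Z15.MI.T_T34
import Pool.Agent.Z15.MI.T_TD4
import Pool.Agent.Z15.MI.T_TRX
import Pool.Agent.Z15.MI.T_TRY

set_option autoImplicit false

namespace Pool.Agent.Z15.MI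

open Pool.Agent.Z15

theorem pT34 : S_T34 := t_T34 ME.pPOL ME.pACT
theorem pTRX : S_TRX := t_TRX t_EPS pT34 ME.pACT
theorem pTRY : S_TRY := t_TRY t_EPS pT34 ME.pACT
theorem pFER : S_FER := t_FER ME.pPOL
theorem pSUR : S_SUR := t_SUR ME.pDVA pTRX pTRY pFER
theorem pAI4 : S_AI4 := t_AI4 pSUR MH.pAIZ pTRX pTRY ME.pDVA ME.pEMB ME.pSEC ME.pCRD ME.pTRD ME.t_AIL
theorem pROW : S_ROW := t_ROW MH.t_NOR ME.pACT (ME.PLY.t_PLY ME.pACT) ME.pDVA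
theorem pMEW : S_MEW := t_MEW pROW ME.GAL.t_GAL ME.pDVA
theorem pEXW : S_EXW := t_EXW MH.t_NOR ME.pACT ME.pDVA
theorem pFKW : S_FKW := t_FKW pROW pEXW ME.GAL.t_GAL
theorem pDEW : S_DEW := t_DEW MH.t_SPJ MH.t_COF MH.t_LAD
theorem pINW : S_INW := t_INW ME.pACT ME.DEN.t_DEN
theorem pNR4 : S_NR4 := t_NR4 pAI4 pTRX pTRY MH.pAIZ ME.pDVA
theorem pEX4 : S_EX4 := t_EX4 pAI4 t_IR4 MH.t_IN6 MH.t_PRM t_FR4
theorem pSP4 : S_SP4 := t_SP4 pTRX pTRY pSUR pAI4 ME.pACT ME.pDVA ME.pEMB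
theorem pDE4 : S_DE4 := t_DE4 pFKW pDEW t_ON1 MH.t_SPJ pROW pMEW pEXW pSP4
theorem pTD4 : S_TD4 := t_TD4 ME.pACT ME.pCRD
theorem pRA4 : S_RA4 := t_RA4 pEX4 pINW pDE4 MH.t_SPJ pTD4

end Pool.Agent.Z15.MI
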