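import Pool.Agent.Z15.MI.Stm

/-!
# Project MI (helper15), task DE4: the second descent
-/

set_option autoImplicit false

namespace Pool.Agent.Z15.MI

open MvPolynomial Matrix Pool.Agent.Z15.ME Pool.Agent.Z15.MH

namespace DE4b

theorem span_field_mono {K Ω : Type} [Field K] [Field Ω] [Algebra K Ω] {J J' : IntermediateField K Ω}
    (hJ : J ≤ J') {s t : Set Ω} (hst : s ⊆ t) {y : Ω} (hy : y ∈ Submodule.span J s) :
    y ∈ Submodule.span J' t := by
  induction hy using Submodule.span_induction with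
  | mem y hy => exact Submodule.subset_span (hst hy)
  | zero => exact zero_mem _
  | add y z _ _ hy hz => exact add_mem hy hz
  | smul a y _ hy =>
    have h3 : a • y = (⟨(a : Ω), hJ a.2⟩ : J') • y := rfl
    rw [h3]
    exact Submodule.smul_mem _ _ hy

theorem span_le_field {K Ω : Type} [Field K] [Field Ω] [Algebra K Ω] {J T : IntermediateField K Ω}
    (hJ : J ≤ T) {s : Set Ω} (hs : ∀ y ∈ s, y ∈ T) {y : Ω} (hy : y ∈ Submodule.span J s) : y ∈ T := by
  induction hy using Submodule.span_induction with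
  | mem y hy => exact hs y hy
  | zero => exact zero_mem _
  | add y z _ _ hy hz => exact add_mem hy hz
  | smul a y _ hy =>
    have h3 : a • y = (a : Ω) * y := rfl
    rw [h3]
    exact mul_mem (hJ a.2) hy

/-- the field generated by invariants is invariant -/
theorem fixed {K M : Type} [Field K] [Field M] [Algebra K M] (φ : M →ₐ[K] M) (S : Set M)
    (hS : ∀ x ∈ S, φ x = x) : ∀ x ∈ IntermediateField.adjoin K S, φ x = x := by
  intro x hx
  have h6 : IntermediateField.adjoin K S ≤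
      { carrier := {z | φ z = z}
        mul_mem' := by intro a b ha hb; change φ _ = _; rw [map_mul, ha, hb]
        add_mem' := by intro a b ha hb; change φ _ = _; rw [map_add, ha, hb]
        algebraMap_mem' := by intro c; change φ _ = _; rw [AlgHom.commutes]
        inv_mem' := by intro a ha; change φ _ = _; rw [map_inv₀, ha] } := by
    rw [IntermediateField.adjoin_le_iff]
    exact fun y hy => hS y hy
  exact h6 hx

/-- the image of a generated field -/
theorem image_mem {K M Ω : Type} [Field K] [Field M] [Field Ω] [Algebra K M] [Algebra M Ω] [Algebra K Ω]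
    [IsScalarTower K M Ω] (S : Set M) (T : IntermediateField K Ω)
    (hS : ∀ x ∈ S, algebraMap M Ω x ∈ T) : ∀ x ∈ IntermediateField.adjoin K S, algebraMap M Ω x ∈ T := by
  intro x hx
  have h6 : IntermediateField.adjoin K S ≤ T.comap (IsScalarTower.toAlgHom K M Ω) := by
    rw [IntermediateField.adjoin_le_iff]
    exact fun y hy => hS y hy
  exact h6 hx

theorem second (hROW : S_ROW) (hMEW : S_MEW) (hEXW : S_EXW) (hDEW : S_DEW) (hON1 : S_ON1)
    (hSP4 : S_SP4) (hSPJ : MH.S_SPJ) (K M : Type) [Field K] [CharZero K] [Field M] [Algebra K M] (D : D4 K M)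
    (Ω : Type) [Field Ω] [Algebra M Ω] [Algebra K Ω] [IsScalarTower K M Ω] [IsAlgClosed Ω] [Algebra.IsAlgebraic M Ω]
    (F : FW D.toDW Ω) (e : Fin 7 → M) (v : Fin 10 → M)
    (he : ∀ i g, D.φ g (e i) = e i) (hv : ∀ i g, D.φ g (v i) = v i)
    (hc : ∀ i, D.X.charpoly.coeff i ∈ IntermediateField.adjoin K (Set.range e))
    (hY : ∀ i j, F.Yh i j ∈
      IntermediateField.adjoin K ((Set.range fun i => algebraMap M Ω (e i)) ∪ Set.range F.l))
    (hdv : ∀ β, dv F.fh β ∈ Submodule.span (F.J (K := K)) (Set.range fun i => algebraMap M Ω (v i))) :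
    ∃ w : Fin 19 → M, (∀ i g, D.φ g (w i) = w i) ∧
      ∀ p, F.fh p ∈ IntermediateField.adjoin K
        ((algebraMap M Ω '' (Set.range e ∪ Set.range v ∪ Set.range w)) ∪ Set.range F.l) := by
  classical
  obtain ⟨N', hN'⟩ : ∃ N' : IntermediateField K M,
      N' = IntermediateField.adjoin K (Set.range e ∪ Set.range v) := ⟨_, rfl⟩
  obtain ⟨J', hJ'⟩ : ∃ J' : IntermediateField K Ω,
      J' = IntermediateField.adjoin K (algebraMap M Ω '' (N' : Set M) ∪ Set.range F.l) := ⟨_, rfl⟩
  have hl : ∀ i, F.l i ∈ J' := fun i => by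
    rw [hJ']
    exact IntermediateField.subset_adjoin K _ (Or.inr ⟨i, rfl⟩)
  have hm : ∀ y ∈ N', algebraMap M Ω y ∈ J' := fun y hy => by
    rw [hJ']
    exact IntermediateField.subset_adjoin K _ (Or.inl ⟨y, hy, rfl⟩)
  have heN : ∀ i, e i ∈ N' := fun i => by
    rw [hN']
    exact IntermediateField.subset_adjoin K _ (Or.inl ⟨i, rfl⟩)
  have hvN : ∀ i, v i ∈ N' := fun i => by
    rw [hN']
    exact IntermediateField.subset_adjoin K _ (Or.inr ⟨i, rfl⟩)
  have hcN : ∀ i, D.X.charpoly.coeff i ∈ N' := fun i => by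
    have h2 : IntermediateField.adjoin K (Set.range e) ≤ N' := by
      rw [IntermediateField.adjoin_le_iff]
      rintro _ ⟨j, rfl⟩
      exact heN j
    exact h2 (hc i)
  have hYJ : ∀ i j, F.Yh i j ∈ J' := fun i j => by
    have h2 : IntermediateField.adjoin K ((Set.range fun i => algebraMap M Ω (e i)) ∪ Set.range F.l) ≤ J' := by
      rw [IntermediateField.adjoin_le_iff]
      rintro _ (⟨j, rfl⟩ | ⟨j, rfl⟩)
      · exact hm _ (heN j)
      · exact hl j
    exact h2 (hY i j)
  have hJJ : F.J (K := K) ≤ J' := by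
    unfold FW.J
    rw [IntermediateField.adjoin_le_iff]
    rintro _ (⟨j, rfl⟩ | ⟨j, rfl⟩)
    · exact hl j
    · exact hYJ _ _
  have hdJ : ∀ β, dv F.fh β ∈ J' := by
    intro β
    refine span_le_field hJJ ?_ (hdv β)
    rintro _ ⟨i, rfl⟩
    exact hm _ (hvN i)
  have hSP : ∀ y ∈ J', ∃ n : Fin 3 × Fin 2 → N', y = ∑ a, algebraMap M Ω (n a) * mu F.l a := by
    intro y hy
    rw [hJ'] at hy
    exact hSPJ K M Ω D.X.charpoly F.l F.hl N' hcN y hy
  have hinv : ∀ x ∈ N', ∀ g, D.φ g x = x := by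
    intro x hx g
    rw [hN'] at hx
    refine fixed (D.φ g) _ ?_ x hx
    rintro _ (⟨i, rfl⟩ | ⟨i, rfl⟩)
    · exact he i g
    · exact hv i g
  obtain ⟨z, hz⟩ := hSP4 K M D Ω F J' hl hYJ hdJ
  obtain ⟨u, hu⟩ : ∃ u : Option (Ix 2 (3 * 1)) → Ω, u = fun o => o.elim 1 F.fh := ⟨_, rfl⟩
  have hu0 : u none = 1 := by rw [hu]; rfl
  have hu1 : ∀ p, u (some p) = F.fh p := fun p => by rw [hu]; rfl
  obtain ⟨w', hw1, hw2⟩ := hDEW 1 K M D.toDW Ω F J' N' hl hSP hinv (Option (Ix 2 (3 * 1))) u
    (by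
      intro i
      rcases i with _ | p
      · rw [hu0]
        exact one_mem _
      · rw [hu1]
        exact (hMEW 1 K M D.toDW Ω F).2.1 p)
    (by
      intro σ i
      rcases i with _ | p
      · rw [hu0, map_one, ← hu0]
        exact Submodule.subset_span ⟨_, rfl⟩
      · rw [hu1]
        obtain ⟨_, _, _, _, _, _, h5, _, _⟩ := hROW 1 K M D.toDW Ω F σ
        refine span_field_mono hJJ ?_ (h5 p)
        rintro _ ⟨q, rfl⟩
        exact ⟨some q, hu1 q⟩)
    (by
      intro g
      obtain ⟨ψ, h1, h2, _, h4, _⟩ := hEXW 1 K M D.toDW Ω F g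
      refine ⟨ψ, h1, h2, ?_⟩
      intro i
      rcases i with _ | p
      · rw [hu0, map_one]
      · rw [hu1]
        exact h4 p)
    20 (Fin.cons 1 z : Fin 20 → Ω)
    (by
      intro i
      rw [Fin.range_cons]
      rcases i with _ | p
      · rw [hu0]
        exact Submodule.subset_span (Set.mem_insert _ _)
      · rw [hu1]
        exact hz p)
  obtain ⟨τ, hτ⟩ := hON1 J' Ω 19 (fun i => algebraMap M Ω (w' i)) (by
    have h := hw2 none
    rw [hu0] at h
    exact h)
  refine ⟨w' ∘ τ, fun i g => hw1 (τ i) g, fun p => ?_⟩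
  obtain ⟨T, hT⟩ : ∃ T : IntermediateField K Ω, T = IntermediateField.adjoin K
        ((algebraMap M Ω '' (Set.range e ∪ Set.range v ∪ Set.range (w' ∘ τ))) ∪ Set.range F.l) := ⟨_, rfl⟩
  rw [← hT]
  have hsT : ∀ x ∈ Set.range e ∪ Set.range v ∪ Set.range (w' ∘ τ), algebraMap M Ω x ∈ T := by
    intro x hx
    rw [hT]
    exact IntermediateField.subset_adjoin K _ (Or.inl ⟨x, hx, rfl⟩)
  have hJT : J' ≤ T := by
    rw [hJ', IntermediateField.adjoin_le_iff]
    rintro _ (⟨y, hy, rfl⟩ | ⟨j, rfl⟩)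
    · have hy' : y ∈ N' := hy
      rw [hN'] at hy'
      refine image_mem _ T ?_ y hy'
      intro x hx
      exact hsT x (Or.inl hx)
    · rw [hT]
      exact IntermediateField.subset_adjoin K _ (Or.inr ⟨j, rfl⟩)
  have h1 := hw2 (some p)
  rw [hu1] at h1
  have h2 := hτ h1
  refine span_le_field hJT ?_ h2
  rintro y (rfl | ⟨i, rfl⟩)
  · exact one_mem _
  · exact hsT _ (Or.inr ⟨i, rfl⟩)

end DE4b

end Pool.Agent.Z15.MI
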