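import Pool.Agent.Z15.MI.Stm

set_option autoImplicit false

/-!
# Self maps with given fourth derivatives (for FER)
-/

namespace Pool.Agent.Z15.MI.FERexist

open MvPolynomial Matrix Pool.Agent.Z15.ME Pool.Agent.Z15.MH Pool.Agent.Z15.MI

section
variable {R : Type} [CommRing R]

/-- linear forms -/
noncomputable def Q1 (τ : Fin 3 → R) : MvPolynomial (Fin 3) R := ∑ a, X a * C (τ a)
/-- quadratic forms -/
noncomputable def Q2 (τ : Fin 3 → Fin 3 → R) : MvPolynomial (Fin 3) R := ∑ a, X a * Q1 (τ a)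
/-- cubic forms -/
noncomputable def Q3 (τ : Fin 3 → Fin 3 → Fin 3 → R) : MvPolynomial (Fin 3) R := ∑ a, X a * Q2 (τ a)
/-- quartic forms -/
noncomputable def Q4 (τ : Fin 3 → Fin 3 → Fin 3 → Fin 3 → R) : MvPolynomial (Fin 3) R := ∑ a, X a * Q3 (τ a)

theorem dX (i a : Fin 3) (p : MvPolynomial (Fin 3) R) :
    pderiv i (X a * p) = (if a = i then p else 0) + X a * pderiv i p := by
  rw [pderiv_mul]
  by_cases h : a = i
  · subst h
    rw [pderiv_X_self, one_mul, if_pos rfl]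
  · rw [pderiv_X_of_ne h, zero_mul, if_neg h]

theorem d1 (τ : Fin 3 → R) (i : Fin 3) : pderiv i (Q1 τ) = C (τ i) := by
  unfold Q1
  rw [map_sum]
  simp only [dX, pderiv_C, mul_zero, add_zero, Finset.sum_ite_eq', Finset.mem_univ, if_true]

theorem d2 (τ : Fin 3 → Fin 3 → R) (h : ∀ a b, τ a b = τ b a) (i : Fin 3) :
    pderiv i (Q2 τ) = 2 * Q1 (τ i) := by
  unfold Q2
  rw [map_sum]
  simp only [dX, d1, Finset.sum_add_distrib, Finset.sum_ite_eq', Finset.mem_univ, if_true]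
  have e : ∑ a, X a * C (τ a i) = Q1 (τ i) := by
    unfold Q1
    exact Finset.sum_congr rfl fun a _ => by rw [h a i]
  rw [e]
  ring

theorem d3 (τ : Fin 3 → Fin 3 → Fin 3 → R) (h : ∀ a b c, τ a b c = τ b a c)
    (h' : ∀ a b c, τ a b c = τ a c b) (i : Fin 3) : pderiv i (Q3 τ) = 3 * Q2 (τ i) := by
  unfold Q3
  rw [map_sum]
  simp only [dX, Finset.sum_add_distrib, Finset.sum_ite_eq', Finset.mem_univ, if_true]
  have e : ∑ a, X a * pderiv i (Q2 (τ a)) = 2 * Q2 (τ i) := by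
    unfold Q2
    rw [Finset.mul_sum]
    refine Finset.sum_congr rfl fun a _ => ?_
    have h1 := d2 (τ a) (fun b c => h' a b c) i
    unfold Q2 at h1
    rw [h1]
    have h2 : τ a i = τ i a := funext fun c => h a i c
    rw [h2]
    ring
  rw [e]
  ring

theorem d4 (τ : Fin 3 → Fin 3 → Fin 3 → Fin 3 → R) (h : ∀ a b c d, τ a b c d = τ b a c d)
    (h' : ∀ a b c d, τ a b c d = τ a c b d) (h'' : ∀ a b c d, τ a b c d = τ a b d c) (i : Fin 3) :
    pderiv i (Q4 τ) = 4 * Q3 (τ i) := by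
  unfold Q4
  rw [map_sum]
  simp only [dX, Finset.sum_add_distrib, Finset.sum_ite_eq', Finset.mem_univ, if_true]
  have e : ∑ a, X a * pderiv i (Q3 (τ a)) = 3 * Q3 (τ i) := by
    unfold Q3
    rw [Finset.mul_sum]
    refine Finset.sum_congr rfl fun a _ => ?_
    have h1 := d3 (τ a) (fun b c d => h' a b c d) (fun b c d => h'' a b c d) i
    unfold Q3 at h1
    rw [h1]
    have h2 : τ a i = τ i a := funext fun c => funext fun d => h a i c d
    rw [h2]
    ring
  rw [e]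
  ring

theorem hom1 (τ : Fin 3 → R) : (Q1 τ).IsHomogeneous 1 := by
  unfold Q1
  refine IsHomogeneous.sum _ _ _ fun a _ => ?_
  exact (isHomogeneous_X R a).mul (isHomogeneous_C (Fin 3) (τ a))

theorem hom2 (τ : Fin 3 → Fin 3 → R) : (Q2 τ).IsHomogeneous 2 := by
  unfold Q2
  exact IsHomogeneous.sum _ _ _ fun a _ => (isHomogeneous_X R a).mul (hom1 (τ a))

theorem hom3 (τ : Fin 3 → Fin 3 → Fin 3 → R) : (Q3 τ).IsHomogeneous 3 := by
  unfold Q3
  exact IsHomogeneous.sum _ _ _ fun a _ => (isHomogeneous_X R a).mul (hom2 (τ a))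

theorem hom4 (τ : Fin 3 → Fin 3 → Fin 3 → Fin 3 → R) : (Q4 τ).IsHomogeneous 4 := by
  unfold Q4
  exact IsHomogeneous.sum _ _ _ fun a _ => (isHomogeneous_X R a).mul (hom3 (τ a))

end

theorem ex (hPOL : ME.S_POL) {M : Type} [Field M] [CharZero M]
    (τ : Fin 3 → Fin 3 → Fin 3 → Fin 3 → Fin 3 → M)
    (h1 : ∀ n a b c d, τ n a b c d = τ n b a c d) (h2 : ∀ n a b c d, τ n a b c d = τ n a c b d)
    (h3 : ∀ n a b c d, τ n a b c d = τ n a b d c) (hd : ∀ a b c, ∑ n, τ n n a b c = 0) :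
    ∃ f : Fin 3 × Mon 3 4 → M, (∀ β, dv f β = 0) ∧ ∀ n a b c d, t4 f n a b c d = τ n a b c d := by
  let p : Fin 3 → MvPolynomial (Fin 3) M := fun n => C (24 : M)⁻¹ * Q4 (τ n)
  have hp : ∀ n, (p n).IsHomogeneous 4 := by
    intro n
    have := (isHomogeneous_C (Fin 3) ((24 : M)⁻¹)).mul (hom4 (τ n))
    rwa [zero_add] at this
  let f : Fin 3 × Mon 3 4 → M := fun q => cf 4 (p q.1) q.2
  have hcmp : ∀ n, cmp f n = p n := fun n => (hPOL 3 4 M).2.1 (p n) (hp n)
  have hder : ∀ n i, pderiv i (p n) = C (6 : M)⁻¹ * Q3 (τ n i) := by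
    intro n i
    show pderiv i (C (24 : M)⁻¹ * Q4 (τ n)) = _
    rw [pderiv_C_mul, d4 (τ n) (h1 n) (h2 n) (h3 n) i]
    have e : (4 : MvPolynomial (Fin 3) M) = C 4 := (map_ofNat C 4).symm
    rw [e, ← mul_assoc, ← C_mul]
    congr 2
    norm_num
  refine ⟨f, fun β => ?_, fun n a b c d => ?_⟩
  · have e : ∑ k, pderiv k (cmp f k) = 0 := by
      simp only [hcmp, hder]
      rw [← Finset.mul_sum]
      have e2 : ∑ k, Q3 (τ k k) = 0 := by
        unfold Q3 Q2 Q1
        rw [Finset.sum_comm]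
        refine Finset.sum_eq_zero fun a _ => ?_
        rw [← Finset.mul_sum, Finset.sum_comm]
        rw [Finset.sum_eq_zero fun b _ => ?_, mul_zero]
        rw [← Finset.mul_sum, Finset.sum_comm]
        rw [Finset.sum_eq_zero fun c _ => ?_, mul_zero]
        rw [← Finset.mul_sum, ← map_sum, hd a b c, C_0, mul_zero]
      rw [e2, mul_zero]
    show cf 3 (∑ k, pderiv k (cmp f k)) β = 0
    rw [e]
    exact coeff_zero _
  · show eval 0 (pderiv a (pderiv b (pderiv c (pderiv d (cmp f n))))) = _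
    rw [hcmp, hder, pderiv_C_mul, d3 (τ n d) (fun b c e => h2 n d b c e) (fun b c e => h3 n d b c e) c]
    have e3 : (3 : MvPolynomial (Fin 3) M) = C 3 := (map_ofNat C 3).symm
    have e2 : (2 : MvPolynomial (Fin 3) M) = C 2 := (map_ofNat C 2).symm
    rw [e3, ← mul_assoc, ← C_mul, pderiv_C_mul, d2 (τ n d c) (fun b e => h3 n d c b e) b, e2, ← mul_assoc,
      ← C_mul, pderiv_C_mul, d1, map_mul, eval_C, eval_C]
    have e4 : (6 : M)⁻¹ * 3 * 2 = 1 := by norm_num
    rw [e4, one_mul]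
    rw [h1 n d c b a, h3 n c d b a, h2 n c d a b, h1 n c a d b, h3 n a c d b, h2 n a c b d]
end Pool.Agent.Z15.MI.FERexist
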