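import Pool.Agent.Z15.MI.Stm

set_option autoImplicit false

namespace Pool.Agent.Z15.MI

open MvPolynomial Matrix Pool.Agent.Z15.ME Pool.Agent.Z15.MH

namespace FERt3

/-- the Fermat cubic -/
noncomputable def Fe : Mon 3 3 → ℤ := fun β => ∑ i : Fin 3, if β.1 = Finsupp.single i 3 then 1 else 0

theorem pol_Fe {R : Type} [CommRing R] : pol (fun β => ((Fe β : ℤ) : R)) = ∑ i : Fin 3, X i ^ 3 := by
  have h1 : ∀ i : Fin 3, (X i ^ 3 : MvPolynomial (Fin 3) R) = monomial (Finsupp.single i 3) 1 := fun i =>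
    X_pow_eq_monomial
  simp only [h1]
  unfold pol Fe
  push_cast
  simp only [map_sum]
  rw [Finset.sum_comm]
  refine Finset.sum_congr rfl fun i _ => ?_
  have hd : (Finsupp.single i 3 : Fin 3 →₀ ℕ).degree = 3 := by simp
  rw [Finset.sum_eq_single (⟨Finsupp.single i 3, hd⟩ : Mon 3 3) (fun β _ hβ => ?_)
    (fun hh => absurd (Finset.mem_univ _) hh)]
  · simp
  · rw [if_neg (fun hh => hβ (Subtype.ext hh)), map_zero]

theorem t3_Fe {R : Type} [CommRing R] (a b c : Fin 3) :
    t3 (fun β => ((Fe β : ℤ) : R)) a b c = if a = b ∧ b = c then 6 else 0 := by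
  unfold t3
  rw [pol_Fe]
  fin_cases a <;> fin_cases b <;> fin_cases c <;>
    simp [Fin.sum_univ_three, pderiv_X, Derivation.leibniz_pow, Derivation.leibniz, map_ofNat] <;> norm_num

end FERt3

end Pool.Agent.Z15.MI
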