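import Pool.Agent.Z15.MI.Stm
import Pool.Agent.Z15.ME.T_POL

set_option autoImplicit false

namespace Pool.Agent.Z15.MI

open MvPolynomial Matrix Pool.Agent.Z15.ME Pool.Agent.Z15.MH

namespace FERten

variable {M : Type} [Field M] [CharZero M]

/-- the product of the factorials -/
def fac (β : Fin 3 →₀ ℕ) : ℕ := (β 0).factorial * (β 1).factorial * (β 2).factorial

theorem fac_add (β : Fin 3 →₀ ℕ) (k : Fin 3) : fac (β + Finsupp.single k 1) = fac β * (β k + 1) := by
  fin_cases k <;> simp [fac, Finsupp.single_apply, Nat.factorial_succ] <;> ring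

theorem fac_ne (β : Fin 3 →₀ ℕ) : ((fac β : ℕ) : M) ≠ 0 := by
  have : 0 < fac β := by unfold fac; positivity
  exact_mod_cast this.ne'

theorem ev0 (p : MvPolynomial (Fin 3) M) : eval 0 p = coeff 0 p := by
  rw [← constantCoeff_eq]
  simp [constantCoeff_eq]

/-- the coefficients of the polynomial with the derivatives `τ` -/
noncomputable def cof (τ : (Fin 3 →₀ ℕ) → M) : Mon 3 4 → M := fun β => τ β.1 * ((fac β.1 : ℕ) : M)⁻¹

theorem coef (τ : (Fin 3 →₀ ℕ) → M) (u : Fin 3 →₀ ℕ) (hu : u.degree = 4) :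
    coeff u (pol (cof τ)) * ((fac u : ℕ) : M) = τ u := by
  have h := POL.coeff_pol (cof τ) ⟨u, hu⟩
  rw [h]
  simp only [cof]
  rw [mul_assoc, inv_mul_cancel₀ (fac_ne u), mul_one]

theorem four (τ : (Fin 3 →₀ ℕ) → M) (a b c d : Fin 3) :
    eval 0 (pderiv a (pderiv b (pderiv c (pderiv d (pol (cof τ)))))) =
      τ (Finsupp.single a 1 + Finsupp.single b 1 + Finsupp.single c 1 + Finsupp.single d 1) := by
  have h1 : fac (Finsupp.single a 1) = 1 := by
    have h := fac_add 0 a
    rw [zero_add] at h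
    rw [h]
    simp [fac]
  rw [ev0, coeff_pderiv, coeff_pderiv, coeff_pderiv, coeff_pderiv, zero_add,
    ← coef τ (Finsupp.single a 1 + Finsupp.single b 1 + Finsupp.single c 1 + Finsupp.single d 1) (by
      simp [map_add, Finsupp.degree_single]), fac_add, fac_add, fac_add, h1, Finsupp.coe_zero, Pi.zero_apply]
  push_cast
  ring

/-- a self map with given fourth derivatives -/
theorem tensor (τ : Fin 3 → (Fin 3 →₀ ℕ) → M) (h : ∀ β : Mon 3 3, ∑ n, τ n (β.1 + Finsupp.single n 1) = 0) :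
    ∃ f : Fin 3 × Mon 3 4 → M, (∀ β, dv f β = 0) ∧ ∀ n a b c d, t4 f n a b c d =
      τ n (Finsupp.single a 1 + Finsupp.single b 1 + Finsupp.single c 1 + Finsupp.single d 1) := by
  refine ⟨fun p => cof (τ p.1) p.2, fun β => ?_, fun n a b c d => four (τ n) a b c d⟩
  have e : dv (fun p : Fin 3 × Mon 3 4 => cof (τ p.1) p.2) β = ∑ k, coeff β.1 (pderiv k (pol (cof (τ k)))) := by
    show coeff β.1 (∑ k, pderiv k (pol (cof (τ k)))) = _
    rw [coeff_sum]
  have h2 : dv (fun p : Fin 3 × Mon 3 4 => cof (τ p.1) p.2) β * ((fac β.1 : ℕ) : M) = 0 := by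
    rw [e, Finset.sum_mul, ← h β]
    refine Finset.sum_congr rfl fun k _ => ?_
    rw [coeff_pderiv, ← coef (τ k) (β.1 + Finsupp.single k 1) (by
      rw [map_add, Finsupp.degree_single, β.2]), fac_add]
    push_cast
    ring
  exact (mul_eq_zero.mp h2).resolve_right (fac_ne β.1)

end FERten

end Pool.Agent.Z15.MI
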