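import Pool.Agent.Z15.MI.FERyy

set_option autoImplicit false

namespace Pool.Agent.Z15.MI

open MvPolynomial Matrix Pool.Agent.Z15.ME Pool.Agent.Z15.MH

namespace FERxx

theorem inner {R : Type} [CommRing R] (F : Mon 3 3 → R)
    (hF : ∀ a b c, t3 F a b c = if a = b ∧ b = c then 6 else 0) (i a b c d e g : Fin 3) (T : Fin 3 → R) :
    ∑ h, ∑ k, ∑ n, ((ep i a b * ep c d e * ep g h k : ℤ) : R) * T n * t3 F n d h * t3 F b e k =
      if b = e then 36 * (((ep i a b * ep c d b * ep g d b : ℤ) : R) * T d) else 0 := by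
  by_cases hbe : b = e
  · subst hbe
    rw [if_pos rfl]
    rw [Finset.sum_eq_single d (fun h _ hh => ?_) (fun hh => absurd (Finset.mem_univ d) hh)]
    · rw [Finset.sum_eq_single b (fun k _ hk => ?_) (fun hh => absurd (Finset.mem_univ b) hh)]
      · rw [Finset.sum_eq_single d (fun n _ hn => ?_) (fun hh => absurd (Finset.mem_univ d) hh)]
        · rw [hF d d d, hF b b b, if_pos ⟨rfl, rfl⟩, if_pos ⟨rfl, rfl⟩]
          ring
        · rw [hF n d d, if_neg (fun hh => hn hh.1), mul_zero, zero_mul]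
      · refine Finset.sum_eq_zero fun n _ => ?_
        rw [hF b b k, if_neg (fun hh => hk hh.2.symm), mul_zero]
    · refine Finset.sum_eq_zero fun k _ => Finset.sum_eq_zero fun n _ => ?_
      rw [hF n d h, if_neg (fun h1 => hh h1.2.symm), mul_zero, zero_mul]
  · rw [if_neg hbe]
    refine Finset.sum_eq_zero fun h _ => Finset.sum_eq_zero fun k _ => Finset.sum_eq_zero fun n _ => ?_
    rw [hF b e k, if_neg (fun hh => hbe hh.1), mul_zero]

theorem collapse {R : Type} [CommRing R] (C : Fin 3 → Fin 3 → Fin 3 → Fin 3 → Fin 3 → R) :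
    (∑ a : Fin 3, ∑ b : Fin 3, ∑ c : Fin 3, ∑ d : Fin 3, ∑ e : Fin 3, ∑ g : Fin 3,
      if b = e then C a b c d g else 0) =
    ∑ a, ∑ b, ∑ c, ∑ d, ∑ g, C a b c d g := by
  refine Finset.sum_congr rfl fun a _ => Finset.sum_congr rfl fun b _ => Finset.sum_congr rfl fun c _ =>
    Finset.sum_congr rfl fun d _ => ?_
  rw [Finset.sum_eq_single b (fun e _ he => ?_) (fun hh => absurd (Finset.mem_univ b) hh)]
  · simp only [if_true]
  · refine Finset.sum_eq_zero fun g _ => ?_
    rw [if_neg (Ne.symm he)]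

/-- the matrix `XX` at the Fermat cubic -/
theorem xx {R : Type} [CommRing R] (F : Mon 3 3 → R)
    (hF : ∀ a b c, t3 F a b c = if a = b ∧ b = c then 6 else 0) (f : Fin 3 × Mon 3 4 → R) (i j : Fin 3) :
    XX F f i j = 36 * ∑ a, ∑ b, ((ep i a b : ℤ) : R) * (t4 f i a a a j + t4 f a a i i j) := by
  have e1 : XX F f i j = ∑ a, ∑ b, ∑ c, ∑ d, ∑ g,
      36 * (((ep i a b * ep c d b * ep g d b : ℤ) : R) * t4 f d a c g j) := by
    rw [← collapse]
    show (∑ a, ∑ b, ∑ c, ∑ d, ∑ e, ∑ g, ∑ h, ∑ k, ∑ n,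
      ((ep i a b * ep c d e * ep g h k : ℤ) : R) * t4 f n a c g j * t3 F n d h * t3 F b e k) = _
    refine Finset.sum_congr rfl fun a _ => Finset.sum_congr rfl fun b _ => Finset.sum_congr rfl fun c _ =>
      Finset.sum_congr rfl fun d _ => Finset.sum_congr rfl fun e _ => Finset.sum_congr rfl fun g _ => ?_
    exact inner F hF i a b c d e g (fun n => t4 f n a c g j)
  rw [e1, Finset.mul_sum]
  refine Finset.sum_congr rfl fun a _ => ?_
  rw [Finset.mul_sum]
  refine Finset.sum_congr rfl fun b _ => ?_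
  obtain ⟨h1, h2, h3, h4, h5, h6⟩ := FERyy.epv
  fin_cases i <;> fin_cases a <;> fin_cases b <;>
    simp [Fin.sum_univ_three, (FERyy.ep0 _ _).1, (FERyy.ep0 _ _).2.1, (FERyy.ep0 _ _).2.2, h1, h2, h3, h4, h5, h6] <;>
    ring

end FERxx

end Pool.Agent.Z15.MI
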