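import Pool.Agent.Z15.MI.Stm

set_option autoImplicit false

namespace Pool.Agent.Z15.MI

open MvPolynomial Matrix Pool.Agent.Z15.ME Pool.Agent.Z15.MH

namespace FERyy

theorem inner {R : Type} [CommRing R] (F : Mon 3 3 → R)
    (hF : ∀ a b c, t3 F a b c = if a = b ∧ b = c then 6 else 0) (a b c d e g h k p : Fin 3) (T : R) :
    ∑ q, ∑ r, ∑ s, ((ep a b c * ep d e g * ep h k p * ep q r s : ℤ) : R) * T * t3 F a d q * t3 F b h r * t3 F e k s =
      if a = d then (if b = h then (if e = k then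
        216 * (((ep a b c * ep a e g * ep b e p * ep a b e : ℤ) : R) * T) else 0) else 0) else 0 := by
  by_cases had : a = d
  · subst had
    by_cases hbh : b = h
    · subst hbh
      by_cases hek : e = k
      · subst hek
        rw [if_pos rfl, if_pos rfl, if_pos rfl]
        rw [Finset.sum_eq_single a (fun q _ hq => ?_) (fun hh => absurd (Finset.mem_univ a) hh)]
        · rw [Finset.sum_eq_single b (fun r _ hr => ?_) (fun hh => absurd (Finset.mem_univ b) hh)]
          · rw [Finset.sum_eq_single e (fun s _ hs => ?_) (fun hh => absurd (Finset.mem_univ e) hh)]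
            · rw [hF a a a, hF b b b, hF e e e, if_pos ⟨rfl, rfl⟩, if_pos ⟨rfl, rfl⟩, if_pos ⟨rfl, rfl⟩]
              ring
            · rw [hF e e s, if_neg (fun hh => hs hh.2.symm), mul_zero]
          · refine Finset.sum_eq_zero fun s _ => ?_
            rw [hF b b r, if_neg (fun hh => hr hh.2.symm), mul_zero, zero_mul]
        · refine Finset.sum_eq_zero fun r _ => Finset.sum_eq_zero fun s _ => ?_
          rw [hF a a q, if_neg (fun hh => hq hh.2.symm), mul_zero, zero_mul, zero_mul]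
      · rw [if_pos rfl, if_pos rfl, if_neg hek]
        refine Finset.sum_eq_zero fun q _ => Finset.sum_eq_zero fun r _ => Finset.sum_eq_zero fun s _ => ?_
        rw [hF e k s, if_neg (fun hh => hek hh.1), mul_zero]
    · rw [if_pos rfl, if_neg hbh]
      refine Finset.sum_eq_zero fun q _ => Finset.sum_eq_zero fun r _ => Finset.sum_eq_zero fun s _ => ?_
      rw [hF b h r, if_neg (fun hh => hbh hh.1), mul_zero, zero_mul]
  · rw [if_neg had]
    refine Finset.sum_eq_zero fun q _ => Finset.sum_eq_zero fun r _ => Finset.sum_eq_zero fun s _ => ?_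
    rw [hF a d q, if_neg (fun hh => had hh.1), mul_zero, zero_mul, zero_mul]

theorem collapse {R : Type} [CommRing R] (C : Fin 3 → Fin 3 → Fin 3 → Fin 3 → Fin 3 → Fin 3 → R) :
    (∑ a : Fin 3, ∑ b : Fin 3, ∑ c : Fin 3, ∑ d : Fin 3, ∑ e : Fin 3, ∑ g : Fin 3, ∑ h : Fin 3, ∑ k : Fin 3, ∑ p : Fin 3,
      if a = d then (if b = h then (if e = k then C a b c e g p else 0) else 0) else 0) =
    ∑ a, ∑ b, ∑ c, ∑ e, ∑ g, ∑ p, C a b c e g p := by
  refine Finset.sum_congr rfl fun a _ => Finset.sum_congr rfl fun b _ => Finset.sum_congr rfl fun c _ => ?_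
  rw [Finset.sum_eq_single a (fun d _ hd => ?_) (fun hh => absurd (Finset.mem_univ a) hh)]
  · refine Finset.sum_congr rfl fun e _ => Finset.sum_congr rfl fun g _ => ?_
    rw [Finset.sum_eq_single b (fun h _ hh => ?_) (fun hh => absurd (Finset.mem_univ b) hh)]
    · rw [Finset.sum_eq_single e (fun k _ hk => ?_) (fun hh => absurd (Finset.mem_univ e) hh)]
      · simp only [if_true]
      · refine Finset.sum_eq_zero fun p _ => ?_
        rw [if_pos rfl, if_pos rfl, if_neg (Ne.symm hk)]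
    · refine Finset.sum_eq_zero fun k _ => Finset.sum_eq_zero fun p _ => ?_
      rw [if_pos rfl, if_neg (Ne.symm hh)]
  · refine Finset.sum_eq_zero fun e _ => Finset.sum_eq_zero fun g _ => Finset.sum_eq_zero fun h _ =>
      Finset.sum_eq_zero fun k _ => Finset.sum_eq_zero fun p _ => ?_
    rw [if_neg (Ne.symm hd)]

theorem epv : ep 0 1 2 = 1 ∧ ep 1 2 0 = 1 ∧ ep 2 0 1 = 1 ∧ ep 0 2 1 = -1 ∧ ep 2 1 0 = -1 ∧ ep 1 0 2 = -1 := by
  refine ⟨?_, ?_, ?_, ?_, ?_, ?_⟩ <;> decide +kernel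

theorem ep0 : ∀ a b : Fin 3, ep a a b = 0 ∧ ep a b a = 0 ∧ ep b a a = 0 := by
  decide +kernel

/-- the matrix `YY` at the Fermat cubic -/
theorem yy {R : Type} [CommRing R] (hT : S_T34) (F : Mon 3 3 → R)
    (hF : ∀ a b c, t3 F a b c = if a = b ∧ b = c then 6 else 0) (f : Fin 3 × Mon 3 4 → R) (i j : Fin 3) :
    YY F f i j = -1296 * t4 f i 0 1 2 j := by
  obtain ⟨-, -, -, hs, -⟩ := hT R
  have e1 : YY F f i j = ∑ a, ∑ b, ∑ c, ∑ e, ∑ g, ∑ p,
      216 * (((ep a b c * ep a e g * ep b e p * ep a b e : ℤ) : R) * t4 f i c g p j) := by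
    rw [← collapse]
    show (∑ a, ∑ b, ∑ c, ∑ d, ∑ e, ∑ g, ∑ h, ∑ k, ∑ p, ∑ q, ∑ r, ∑ s,
      ((ep a b c * ep d e g * ep h k p * ep q r s : ℤ) : R) * t4 f i c g p j * t3 F a d q * t3 F b h r *
        t3 F e k s) = _
    refine Finset.sum_congr rfl fun a _ => Finset.sum_congr rfl fun b _ => Finset.sum_congr rfl fun c _ =>
      Finset.sum_congr rfl fun d _ => Finset.sum_congr rfl fun e _ => Finset.sum_congr rfl fun g _ =>
      Finset.sum_congr rfl fun h _ => Finset.sum_congr rfl fun k _ => Finset.sum_congr rfl fun p _ => ?_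
    exact inner F hF a b c d e g h k p _
  have e2 : ∀ a b : Fin 3, (∑ c, ∑ e, ∑ g, ∑ p,
      216 * (((ep a b c * ep a e g * ep b e p * ep a b e : ℤ) : R) * t4 f i c g p j)) =
      if a = b then 0 else -216 * t4 f i 0 1 2 j := by
    obtain ⟨h1, h2, h3, h4, h5, h6⟩ := epv
    have s1 : ∀ x y z w, t4 f i x y z w = t4 f i y x z w := fun x y z w => (hs f i x y z w).1
    have s2 : ∀ x y z w, t4 f i x y z w = t4 f i x z y w := fun x y z w => (hs f i x y z w).2.1
    have g1 : t4 f i 0 2 1 j = t4 f i 0 1 2 j := s2 _ _ _ _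
    have g2 : t4 f i 1 0 2 j = t4 f i 0 1 2 j := s1 _ _ _ _
    have g3 : t4 f i 1 2 0 j = t4 f i 0 1 2 j := (s2 _ _ _ _).trans g2
    have g4 : t4 f i 2 0 1 j = t4 f i 0 1 2 j := (s1 _ _ _ _).trans g1
    have g5 : t4 f i 2 1 0 j = t4 f i 0 1 2 j := (s1 _ _ _ _).trans g3
    intro a b
    fin_cases a <;> fin_cases b <;>
      simp [Fin.sum_univ_three, (ep0 _ _).1, (ep0 _ _).2.1, (ep0 _ _).2.2, h1, h2, h3, h4, h5, h6, g1, g2, g3, g4, g5]
  rw [e1]
  simp only [e2]
  simp [Fin.sum_univ_three]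
  ring

end FERyy

end Pool.Agent.Z15.MI
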