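import Pool.Agent.Z15.MI.Stm

set_option autoImplicit false

/-!
# (NR4), a piece: the traces of `X * X` and `X * Y` are not zero
-/

namespace Pool.Agent.Z15.MI.NR4a

open MvPolynomial Matrix Pool.Agent.Z15.ME Pool.Agent.Z15.MH

/-- the universal traceless matrix with the entries `v` -/
def U {R : Type} [CommRing R] (v : E8 → R) : Matrix (Fin 3) (Fin 3) R := fun i j =>
  if h : (i, j) ≠ (2, 2) then v ⟨(i, j), h⟩ else
    -(v ⟨(0, 0), by decide⟩ + v ⟨(1, 1), by decide⟩)

lemma U_eq {R : Type} [CommRing R] (X : Matrix (Fin 3) (Fin 3) R) (tX : X.trace = 0) :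
    U (fun p : E8 => X p.1.1 p.1.2) = X := by
  ext i j
  unfold U
  by_cases h : (i, j) ≠ (2, 2)
  · rw [dif_pos h]
  · rw [dif_neg h]
    push Not at h
    have h1 : i = 2 := (Prod.mk.inj h).1
    have h2 : j = 2 := (Prod.mk.inj h).2
    subst h1 h2
    rw [Matrix.trace_fin_three] at tX
    show -(X 0 0 + X 1 1) = X 2 2
    linear_combination (-1 : R) * tX

lemma U_map {R S : Type} [CommRing R] [CommRing S] (σ : R →+* S) (v : E8 → R) :
    (U v).map σ = U (fun p => σ (v p)) := by
  ext i j
  rw [Matrix.map_apply]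
  unfold U
  by_cases h : (i, j) ≠ (2, 2)
  · rw [dif_pos h, dif_pos h]
  · rw [dif_neg h, dif_neg h, map_neg, map_add]

/-- the test matrix -/
def T (K : Type) [Field K] : Matrix (Fin 3) (Fin 3) K := !![1, 0, 0; 0, -1, 0; 0, 0, 0]

lemma T_tr (K : Type) [Field K] : (T K).trace = 0 := by
  rw [Matrix.trace_fin_three]
  simp [T]

lemma T_sq (K : Type) [Field K] [CharZero K] : (T K * T K).trace ≠ 0 := by
  rw [Matrix.trace_fin_three]
  simp [T, Matrix.mul_apply, Fin.sum_univ_three]

lemma tr_map {R S : Type} [CommRing R] [CommRing S] (σ : R →+* S) (A B : Matrix (Fin 3) (Fin 3) R) :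
    σ (A * B).trace = (A.map σ * B.map σ).trace := by
  simp [Matrix.trace, Matrix.mul_apply, map_sum, map_mul]

theorem ne (K M : Type) [Field K] [CharZero K] [Field M] [Algebra K M] (X Y : Matrix (Fin 3) (Fin 3) M) (tX : X.trace = 0)
    (tY : Y.trace = 0)
    (h : AlgebraicIndependent K (Sum.elim (fun p : E8 => X p.1.1 p.1.2) fun p : E8 => Y p.1.1 p.1.2)) :
    (X * X).trace ≠ 0 ∧ (X * Y).trace ≠ 0 := by
  have key : ∀ P : MvPolynomial (E8 ⊕ E8) K,
      eval (Sum.elim (fun p : E8 => T K p.1.1 p.1.2) fun p : E8 => T K p.1.1 p.1.2) P ≠ 0 →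
      aeval (Sum.elim (fun p : E8 => X p.1.1 p.1.2) fun p : E8 => Y p.1.1 p.1.2) P ≠ 0 := by
    intro P hP h0
    apply hP
    have h1 : P = 0 := (injective_iff_map_eq_zero _).1 h P h0
    rw [h1, map_zero]
  have hX : ∀ (a b : Bool), ((if a then X else Y) * (if b then X else Y)).trace ≠ 0 := by
    intro a b
    let e : Bool → E8 → MvPolynomial (E8 ⊕ E8) K := fun a p => if a then MvPolynomial.X (Sum.inl p) else MvPolynomial.X (Sum.inr p)
    have h1 : ∀ a : Bool, (U (e a)).map (aeval (R := K) (Sum.elim (fun p : E8 => X p.1.1 p.1.2) fun p : E8 => Y p.1.1 p.1.2)).toRingHom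
        = if a then X else Y := by
      intro a
      rw [U_map]
      cases a
      · rw [if_neg (by decide), ← U_eq Y tY]
        congr 1
        funext p
        rw [U_eq Y tY]
        simp [e]
      · rw [if_pos rfl, ← U_eq X tX]
        congr 1
        funext p
        rw [U_eq X tX]
        simp [e]
    have h2 : ∀ a : Bool, (U (e a)).map (eval (Sum.elim (fun p : E8 => T K p.1.1 p.1.2) fun p : E8 => T K p.1.1 p.1.2)) = T K := by
      intro a
      rw [U_map]
      conv_rhs => rw [← U_eq (T K) (T_tr K)]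
      congr 1
      funext p
      cases a <;> simp [e]
    have h3 := key ((U (e a) * U (e b)).trace) (by
      rw [tr_map, h2 a, h2 b]
      exact T_sq K)
    have h4 := tr_map (aeval (R := K) (Sum.elim (fun p : E8 => X p.1.1 p.1.2) fun p : E8 => Y p.1.1 p.1.2)).toRingHom
      (U (e a)) (U (e b))
    rw [h1 a, h1 b] at h4
    rw [← h4]
    exact h3
  exact ⟨hX true true, hX true false⟩

end Pool.Agent.Z15.MI.NR4a
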