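import Pool.Agent.Z15.MI.Stm
import Pool.Agent.Z15.ME.T_EPS

/-! Project MI, task SP4, first half: the two covariant matrices of the normalised self map, and surjectivity. -/

set_option autoImplicit false

namespace Pool.Agent.Z15.MI

open MvPolynomial Matrix Pool.Agent.Z15.ME Pool.Agent.Z15.MH

namespace SP4a

section
variable {K M : Type} [Field K] [CharZero K] [Field M] [Algebra K M] (D : D4 K M)
  {Ω : Type} [Field Ω] [Algebra M Ω] (F : FW D.toDW Ω)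

/-- `f` over `Ω` -/
noncomputable def fb (D : D4 K M) (Ω : Type) [Field Ω] [Algebra M Ω] : Ix 2 (3 * 1) → Ω :=
  fun p => algebraMap M Ω (D.f p)

theorem BB : F.B * F.B' = 1 := F.fr.1

theorem BB' : F.B' * F.B = 1 := mul_eq_one_comm.1 F.fr.1

theorem det_eq : F.B.det = algebraMap M Ω D.H := by
  have h := F.fr.2.1
  rwa [pow_one] at h

theorem sdet : algebraMap M Ω D.s * F.B.det = 1 := by
  rw [det_eq, ← map_mul, D.hs, map_one]

theorem det_ne : F.B.det ≠ 0 := right_ne_zero_of_mul_eq_one (sdet D F)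

theorem dv_fh (hDVA : ME.S_DVA) : dv F.fh = act1 F.B (dv (fb D Ω)) :=
  (hDVA 3 (3 * 1) Ω).1 F.B' F.B (fb D Ω) (BB D F)

theorem part2_fh (hACT : ME.S_ACT) (hDVA : ME.S_DVA) (hEMB : ME.S_EMB) :
    part2 F.fh = act F.B' F.B (part2 (fb D Ω)) :=
  EPS.part2_act (N := 2) (m := 3 * 1) hACT hDVA hEMB (fb D Ω) F.B' F.B (BB' D F) (BB D F)

theorem dv_fb (hDVA : ME.S_DVA) : dv (fb D Ω) = fun β => algebraMap M Ω (dv D.f β) :=
  (hDVA 3 (3 * 1) M).2.2 Ω (algebraMap M Ω) D.f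

theorem part2_fb (hDVA : ME.S_DVA) (hEMB : ME.S_EMB) :
    part2 (fb D Ω) = fun p => algebraMap M Ω (part2 D.f p) :=
  EPS.part2_map (N := 2) (m := 3 * 1) (algebraMap M Ω) hDVA hEMB D.f

theorem map_smul' (s : M) (X : Matrix (Fin 3) (Fin 3) M) :
    (s • X).map (algebraMap M Ω) = algebraMap M Ω s • X.map (algebraMap M Ω) := by
  ext i j
  simp

/-- (i) -/
theorem XX_fh (hTRX : S_TRX) (hACT : ME.S_ACT) (hDVA : ME.S_DVA) (hEMB : ME.S_EMB) :
    XX (dv F.fh) (part2 F.fh) = Matrix.diagonal F.l := by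
  rw [dv_fh D F hDVA, part2_fh D F hACT hDVA hEMB]
  refine ((hTRX Ω).1 F.B' F.B (dv (fb D Ω)) (part2 (fb D Ω)) (BB' D F)).trans ?_
  rw [dv_fb D hDVA, part2_fb D hDVA hEMB]
  have h1 := (hTRX M).2.2.2 Ω (algebraMap M Ω) (dv D.f) (part2 D.f)
  have h2 : XX (fun β => algebraMap M Ω (dv D.f β)) (fun p => algebraMap M Ω (part2 D.f p)) =
      algebraMap M Ω D.s ^ 3 • D.X.map (algebraMap M Ω) := by
    refine h1.trans ?_
    rw [← D.eX, map_smul', map_pow]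
  have h3 : F.B' * D.X.map (algebraMap M Ω) * F.B = Matrix.diagonal F.l := F.fr.2.2.1
  have h4 : F.B.det ^ 3 • (F.B' * (algebraMap M Ω D.s ^ 3 • D.X.map (algebraMap M Ω)) * F.B) =
      Matrix.diagonal F.l := by
    rw [Matrix.mul_smul, Matrix.smul_mul, h3, smul_smul, ← mul_pow, mul_comm, sdet, one_pow,
      one_smul]
  refine Eq.trans ?_ h4
  congr 3

/-- (ii) -/
theorem YY_fh (hTRY : S_TRY) (hACT : ME.S_ACT) (hDVA : ME.S_DVA) (hEMB : ME.S_EMB) :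
    YY (dv F.fh) (part2 F.fh) = F.Yh := by
  rw [dv_fh D F hDVA, part2_fh D F hACT hDVA hEMB]
  refine ((hTRY Ω).1 F.B' F.B (dv (fb D Ω)) (part2 (fb D Ω)) (BB' D F)).trans ?_
  rw [dv_fb D hDVA, part2_fb D hDVA hEMB]
  have h1 := (hTRY M).2.2.2 Ω (algebraMap M Ω) (dv D.f) (part2 D.f)
  have h2 : YY (fun β => algebraMap M Ω (dv D.f β)) (fun p => algebraMap M Ω (part2 D.f p)) =
      algebraMap M Ω D.s ^ 4 • D.Y.map (algebraMap M Ω) := by
    refine h1.trans ?_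
    rw [← D.eY, map_smul', map_pow]
  have h4 : F.B.det ^ 4 • (F.B' * (algebraMap M Ω D.s ^ 4 • D.Y.map (algebraMap M Ω)) * F.B) =
      F.Yh := by
    rw [Matrix.mul_smul, Matrix.smul_mul, smul_smul, ← mul_pow, mul_comm, sdet, one_pow,
      one_smul]
    rfl
  refine Eq.trans ?_ h4
  congr 3

/-- (iii) -/
theorem surj [Algebra K Ω] [IsScalarTower K M Ω] (hTRX : S_TRX) (hTRY : S_TRY) (hSUR : S_SUR)
    (hAI4 : S_AI4) (hDVA : ME.S_DVA)
    (hACT : ME.S_ACT) (P Q : Matrix (Fin 3) (Fin 3) Ω) (hP : P.trace = 0) (hQ : Q.trace = 0) :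
    ∃ c : Fin 3 × Mon 3 4 → Ω, (∀ β, dv c β = 0) ∧ XX (dv F.fh) c = P ∧ YY (dv F.fh) c = Q := by
  have hi : AlgebraicIndependent K (dv (fb D Ω)) := by
    have h1 := (hAI4 K M D.f D.ind D.gen).1
    have h2 := h1.map' (f := IsScalarTower.toAlgHom K M Ω)
      (by rw [IsScalarTower.coe_toAlgHom']; exact (algebraMap M Ω).injective)
    rw [dv_fb D hDVA]
    exact h2
  have htr : ∀ (A : Matrix (Fin 3) (Fin 3) Ω) (s : Ω), A.trace = 0 →
      (s • (F.B * A * F.B')).trace = 0 := by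
    intro A s hA
    rw [Matrix.trace_smul, Matrix.trace_mul_comm, ← Matrix.mul_assoc, BB' D F, Matrix.one_mul, hA,
      smul_zero]
  obtain ⟨c0, h0, hX, hY⟩ := hSUR K Ω (dv (fb D Ω)) hi
    ((F.B.det ^ 3)⁻¹ • (F.B * P * F.B')) ((F.B.det ^ 4)⁻¹ • (F.B * Q * F.B')) (htr P _ hP)
    (htr Q _ hQ)
  have hcan : ∀ (A : Matrix (Fin 3) (Fin 3) Ω) (s : Ω), s ≠ 0 →
      s • (F.B' * (s⁻¹ • (F.B * A * F.B')) * F.B) = A := by
    intro A s hs
    rw [Matrix.mul_smul, Matrix.smul_mul, smul_smul, mul_inv_cancel₀ hs, one_smul,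
      Matrix.mul_assoc F.B A F.B', ← Matrix.mul_assoc F.B' F.B, BB' D F, Matrix.one_mul,
      Matrix.mul_assoc A, BB' D F, Matrix.mul_one]
  refine ⟨act F.B' F.B c0, ?_, ?_, ?_⟩
  · have h1 := (hDVA 3 3 Ω).1 F.B' F.B c0 (BB D F)
    have h2 : dv c0 = fun _ => 0 := funext h0
    intro β
    rw [h1, h2]
    have h3 := (hACT 3 3 Ω).2.2.2.2.1 F.B (fun _ => 0) (fun _ => 0) 0 0
    simp only [mul_zero, zero_mul, add_zero] at h3
    rw [h3]
  · rw [dv_fh D F hDVA]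
    refine ((hTRX Ω).1 F.B' F.B (dv (fb D Ω)) c0 (BB' D F)).trans ?_
    rw [hX]
    exact hcan P _ (pow_ne_zero 3 (det_ne D F))
  · rw [dv_fh D F hDVA]
    refine ((hTRY Ω).1 F.B' F.B (dv (fb D Ω)) c0 (BB' D F)).trans ?_
    rw [hY]
    exact hcan Q _ (pow_ne_zero 4 (det_ne D F))

end

end SP4a

end Pool.Agent.Z15.MI
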