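import Mathlib

set_option autoImplicit false

/-!
# Linear algebra for SP4: pivot columns
-/

namespace Pool.Agent.Z15.MI.SP4piv

open Submodule

/-- If the rows of the matrix `A` over `J` are independent and `A c` has entries in `J`, then the entries of `c` are in the
span over `J` of `1` and `|I| - |T|` of them. -/
theorem pivot {J O : Type} [Field J] [Field O] [Algebra J O] {I T : Type} [Fintype I] [Fintype T]
    (A : T → I → J) (hA : ∀ y : T → J, (∀ i, ∑ t, y t * A t i = 0) → y = 0) (c : I → O)
    (hc : ∀ t, ∃ b : J, ∑ i, algebraMap J O (A t i) * c i = algebraMap J O b) (d : ℕ)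
    (hd : Fintype.card I ≤ Fintype.card T + d) :
    ∃ z : Fin d → O, ∀ p, c p ∈ Submodule.span J (insert 1 (Set.range z)) := by
  classical
  -- the columns
  let v : I → T → J := fun i t => A t i
  have hspan : Submodule.span J (Set.range v) = ⊤ := by
    by_contra hne
    obtain ⟨φ, hφ, hφ2⟩ := Submodule.exists_le_ker_of_lt_top _ (lt_top_iff_ne_top.2 hne)
    apply hφ
    have h1 : (fun t => φ (Pi.single t 1)) = 0 := by
      apply hA
      intro i
      have h2 : φ (v i) = 0 := by
        have := hφ2 (Submodule.subset_span ⟨i, rfl⟩)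
        exact this
      have h3 : v i = ∑ t, v i t • (Pi.single t (1 : J) : T → J) := by
        funext s
        simp [Finset.sum_apply, Pi.single_apply]
      rw [h3, map_sum] at h2
      rw [← h2]
      refine Finset.sum_congr rfl fun t _ => ?_
      rw [map_smul, smul_eq_mul, mul_comm]
    refine LinearMap.pi_ext' fun t => ?_
    ext
    simpa using congrFun h1 t
  obtain ⟨κ, a, ha, hsp, hli⟩ := exists_linearIndependent' J v
  haveI : Finite κ := Finite.of_injective a ha
  haveI : Fintype κ := Fintype.ofFinite κ
  let b : Module.Basis κ J (T → J) := Module.Basis.mk hli (by rw [hsp, hspan])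
  have hb : ∀ k, b k = v (a k) := fun k => Module.Basis.mk_apply _ _ _
  have hcard : Fintype.card κ = Fintype.card T := by
    have h1 := Module.finrank_eq_card_basis b
    rw [Module.finrank_fintype_fun_eq_card] at h1
    exact h1.symm
  -- the other coordinates
  have hc2 : Fintype.card {q : I // q ∉ Set.range a} ≤ d := by
    have h1 := Fintype.card_subtype_compl (fun q => q ∈ Set.range a)
    have h2 : Fintype.card {q : I // q ∈ Set.range a} = Fintype.card κ :=
      (Fintype.card_congr (Equiv.ofInjective a ha)).symm
    omega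
  have hz : ∃ z : Fin d → O, ∀ q, q ∉ Set.range a → c q ∈ Set.range z := by
    let e := Fintype.equivFin {q : I // q ∉ Set.range a}
    refine ⟨fun j => if h : j.1 < Fintype.card {q : I // q ∉ Set.range a} then c (e.symm ⟨j.1, h⟩).1 else 0,
      fun q hq => ?_⟩
    have hlt := (e ⟨q, hq⟩).2
    refine ⟨⟨(e ⟨q, hq⟩).1, lt_of_lt_of_le hlt hc2⟩, ?_⟩
    simp only
    rw [dif_pos hlt]
    simp
  obtain ⟨z, hz⟩ := hz
  refine ⟨z, fun p => ?_⟩
  have hout : ∀ q, q ∉ Set.range a → c q ∈ Submodule.span J (insert 1 (Set.range z)) := fun q hq =>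
    Submodule.subset_span (Set.mem_insert_of_mem _ (hz q hq))
  by_cases hp : p ∈ Set.range a
  · obtain ⟨k, rfl⟩ := hp
    choose β hβ using hc
    -- the functional dual to `v (a k)`
    let y : T → J := fun t => b.repr (Pi.single t 1) k
    have hy : ∀ w : T → J, ∑ t, y t * w t = b.repr w k := by
      intro w
      have h3 : w = ∑ t, w t • (Pi.single t (1 : J) : T → J) := by
        funext s
        simp [Finset.sum_apply, Pi.single_apply]
      conv_rhs => rw [h3, map_sum, Finsupp.finsetSum_apply]
      refine Finset.sum_congr rfl fun t _ => ?_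
      rw [map_smul, Finsupp.smul_apply, smul_eq_mul, mul_comm]
    have hyk : ∀ l, ∑ t, y t * v (a l) t = if l = k then 1 else 0 := by
      intro l
      rw [hy, ← hb, Module.Basis.repr_self, Finsupp.single_apply]
    -- sum of the equations
    have hS : ∑ i, algebraMap J O (∑ t, y t * v i t) * c i = algebraMap J O (∑ t, y t * β t) := by
      rw [map_sum]
      simp only [map_mul]
      simp only [map_sum, map_mul, Finset.sum_mul]
      rw [Finset.sum_comm]
      refine Finset.sum_congr rfl fun t _ => ?_
      rw [← hβ, Finset.mul_sum]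
      refine Finset.sum_congr rfl fun i _ => ?_
      rw [mul_assoc]
    rw [← Finset.add_sum_erase _ _ (Finset.mem_univ (a k))] at hS
    rw [hyk, if_pos rfl, map_one, one_mul] at hS
    have hS2 : c (a k) = (∑ t, y t * β t) • (1 : O) -
        ∑ i ∈ Finset.univ.erase (a k), (∑ t, y t * v i t) • c i := by
      simp only [Algebra.smul_def, mul_one]
      rw [← hS]
      ring
    rw [hS2]
    refine Submodule.sub_mem _ (Submodule.smul_mem _ _ (Submodule.subset_span (Set.mem_insert _ _)))
      (Submodule.sum_mem _ fun i hi => ?_)
    by_cases hir : i ∈ Set.range a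
    · obtain ⟨l, rfl⟩ := hir
      have hl : l ≠ k := fun h => (Finset.ne_of_mem_erase hi) (by rw [h])
      rw [hyk, if_neg hl, zero_smul]
      exact Submodule.zero_mem _
    · exact Submodule.smul_mem _ _ (hout i hir)
  · exact hout p hp

end Pool.Agent.Z15.MI.SP4piv
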