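import Pool.Agent.Z15.MI.Stm

set_option autoImplicit false

/-!
# TRX, second part: trace, linearity, functoriality of `XX`
-/

namespace Pool.Agent.Z15.MI

open MvPolynomial Matrix Pool.Agent.Z15.ME Pool.Agent.Z15.MH

namespace TRXb

variable {R : Type} [CommRing R]

theorem ep_swap (a b c : Fin 3) : ep b a c = -ep a b c := by
  unfold ep
  simp only [Matrix.det_fin_three, Matrix.of_apply, Matrix.cons_val_zero, Matrix.cons_val_one, Matrix.cons_val]
  ring

theorem cmp_lin (f f' : Fin 3 × Mon 3 4 → R) (a b : R) (n : Fin 3) :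
    cmp (fun p => a * f p + b * f' p) n = C a * cmp f n + C b * cmp f' n := by
  unfold ME.cmp pol
  rw [Finset.mul_sum, Finset.mul_sum, ← Finset.sum_add_distrib]
  refine Finset.sum_congr rfl fun α _ => ?_
  rw [C_mul_monomial, C_mul_monomial, ← map_add]

theorem t4_lin (f f' : Fin 3 × Mon 3 4 → R) (a b : R) (n i j k l : Fin 3) :
    t4 (fun p => a * f p + b * f' p) n i j k l = a * t4 f n i j k l + b * t4 f' n i j k l := by
  unfold t4
  rw [cmp_lin]
  simp only [map_add, pderiv_C_mul, map_mul, eval_C]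

theorem pol_map {n d : ℕ} {S : Type} [CommRing S] (σ : R →+* S) (c : Mon n d → R) :
    pol (fun α => σ (c α)) = MvPolynomial.map σ (pol c) := by
  unfold pol
  rw [map_sum]
  exact Finset.sum_congr rfl fun α _ => (map_monomial _ _ _).symm

theorem eval_zero_map {S : Type} [CommRing S] (σ : R →+* S) (p : MvPolynomial (Fin 3) R) :
    eval 0 (MvPolynomial.map σ p) = σ (eval 0 p) := by
  have h1 : ∀ (T : Type) [CommRing T] (q : MvPolynomial (Fin 3) T), eval 0 q = constantCoeff q := by
    intro T _ q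
    exact RingHom.congr_fun MvPolynomial.eval_zero q
  rw [h1, h1, constantCoeff_map]

theorem t3_map {S : Type} [CommRing S] (σ : R →+* S) (F : Mon 3 3 → R) (a b c : Fin 3) :
    t3 (fun β => σ (F β)) a b c = σ (t3 F a b c) := by
  unfold t3
  rw [pol_map, pderiv_map, pderiv_map, pderiv_map, eval_zero_map]

theorem t4_map {S : Type} [CommRing S] (σ : R →+* S) (f : Fin 3 × Mon 3 4 → R) (n a b c d : Fin 3) :
    t4 (fun p => σ (f p)) n a b c d = σ (t4 f n a b c d) := by
  unfold t4
  have h1 : cmp (fun p => σ (f p)) n = MvPolynomial.map σ (cmp f n) := pol_map σ _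
  rw [h1, pderiv_map, pderiv_map, pderiv_map, pderiv_map, eval_zero_map]

theorem fun_ {S : Type} [CommRing S] (σ : R →+* S) (F : Mon 3 3 → R) (f : Fin 3 × Mon 3 4 → R) :
    XX (fun β => σ (F β)) (fun p => σ (f p)) = (XX F f).map σ := by
  ext i j
  simp only [XX, Matrix.of_apply, Matrix.map_apply, t3_map, t4_map, map_sum, map_mul, map_intCast]

theorem lin (F : Mon 3 3 → R) (f f' : Fin 3 × Mon 3 4 → R) (a b : R) :
    XX F (fun p => a * f p + b * f' p) = a • XX F f + b • XX F f' := by
  ext i j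
  simp only [XX, Matrix.of_apply, Matrix.add_apply, Matrix.smul_apply, smul_eq_mul, t4_lin]
  simp only [Finset.mul_sum, ← Finset.sum_add_distrib]
  refine Finset.sum_congr rfl fun x1 _ => Finset.sum_congr rfl fun x2 _ => Finset.sum_congr rfl fun x3 _ =>
    Finset.sum_congr rfl fun x4 _ => Finset.sum_congr rfl fun x5 _ => Finset.sum_congr rfl fun x6 _ =>
    Finset.sum_congr rfl fun x7 _ => Finset.sum_congr rfl fun x8 _ => Finset.sum_congr rfl fun x9 _ => ?_
  ring

theorem tr (hT34 : S_T34) (F : Mon 3 3 → R) (f : Fin 3 × Mon 3 4 → R) : (2 : R) • (XX F f).trace = 0 := by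
  obtain ⟨-, -, -, h4, -⟩ := hT34 R
  have s12 : ∀ n a b c d : Fin 3, t4 f n a b c d = t4 f n b a c d := fun n a b c d => (h4 f n a b c d).1
  have s23 : ∀ n a b c d : Fin 3, t4 f n a b c d = t4 f n a c b d := fun n a b c d => (h4 f n a b c d).2.1
  have s34 : ∀ n a b c d : Fin 3, t4 f n a b c d = t4 f n a b d c := fun n a b c d => (h4 f n a b c d).2.2
  have s14 : ∀ n a b c d : Fin 3, t4 f n a b c d = t4 f n d b c a := by
    intro n a b c d
    rw [s34 n a b c d, s23 n a b d c, s12 n a d b c, s23 n d a b c, s34 n d b a c]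
  let G : Fin 3 → Fin 3 → R := fun i a => ∑ b, ∑ c, ∑ d, ∑ e, ∑ g, ∑ h, ∑ k, ∑ n,
    ((ep i a b * ep c d e * ep g h k : ℤ) : R) * t4 f n a c g i * t3 F n d h * t3 F b e k
  have hG : ∀ i a, G a i = -G i a := by
    intro i a
    simp only [G, ← Finset.sum_neg_distrib]
    refine Finset.sum_congr rfl fun x2 _ => Finset.sum_congr rfl fun x3 _ =>
      Finset.sum_congr rfl fun x4 _ => Finset.sum_congr rfl fun x5 _ => Finset.sum_congr rfl fun x6 _ =>
      Finset.sum_congr rfl fun x7 _ => Finset.sum_congr rfl fun x8 _ => Finset.sum_congr rfl fun x9 _ => ?_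
    rw [ep_swap i a x2, s14 x9 i x3 x6 a]
    push_cast
    ring
  have h1 : (XX F f).trace = ∑ i, ∑ a, G i a := by
    simp only [Matrix.trace, Matrix.diag_apply, XX, Matrix.of_apply, G]
  have h2 : ∑ i, ∑ a, G i a = -∑ i, ∑ a, G i a := by
    conv_lhs => rw [Finset.sum_comm]
    rw [← Finset.sum_neg_distrib]
    refine Finset.sum_congr rfl fun i _ => ?_
    rw [← Finset.sum_neg_distrib]
    exact Finset.sum_congr rfl fun a _ => hG i a
  rw [smul_eq_mul, two_mul, h1]
  nth_rewrite 1 [h2]
  exact neg_add_cancel _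

end TRXb

end Pool.Agent.Z15.MI
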