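import Pool.Agent.Z15.MI.Stm
import Pool.Agent.Z15.MH.T_INZ

set_option autoImplicit false

/-! (INW) the invariants are in `K(f̂)` (compare `MH/T_INZ.lean`). -/

namespace Pool.Agent.Z15.MI

open MvPolynomial Matrix Pool.Agent.Z15.ME Pool.Agent.Z15.MH

namespace INW

open Pool.Agent.Z15.MH.INZ (GG GG_det ext_mul_ext)

variable {k : ℕ}

theorem tt_map (hACT : ME.S_ACT) {R S : Type} [CommRing R] [CommRing S] (σ : R →+* S)
    (g g' : Matrix (Fin 3) (Fin 3) R) (y : Ix 2 (3 * k) → R) :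
    act (g.map σ) (g'.map σ) (fun i => σ (y i)) = fun i => σ (act g g' y i) :=
  (hACT 3 (3 * k + 1) R).2.2.2.2.2.2.2.2.2.2 S σ g g' y

theorem tt_mul (hACT : ME.S_ACT) {R : Type} [CommRing R] (g g' h h' : Matrix (Fin 3) (Fin 3) R)
    (y : Ix 2 (3 * k) → R) : act g g' (act h h' y) = act (g * h) (h' * g') y :=
  (hACT 3 (3 * k + 1) R).2.2.2.2.2.2.1 g g' h h' y

theorem tt_one (hACT : ME.S_ACT) {R : Type} [CommRing R] (y : Ix 2 (3 * k) → R) : act 1 1 y = y :=
  (hACT 3 (3 * k + 1) R).2.2.2.2.2.2.2.1 y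

theorem tt_smul (hACT : ME.S_ACT) {R : Type} [CommRing R] (g g' : Matrix (Fin 3) (Fin 3) R) (s : R)
    (y : Ix 2 (3 * k) → R) (p : Ix 2 (3 * k)) :
    act g (s • g') y p = s ^ (3 * k + 1) * act g g' y p := by
  have h1 := (hACT 3 (3 * k + 1) R).2.2.2.2.2.2.1 ((1 : R) • 1) (s • 1) g g' y
  have h2 := (hACT 3 (3 * k + 1) R).2.2.2.2.2.2.2.2.1 1 s (act g g' y)
  rw [h2, one_smul, one_mul, Matrix.mul_smul, Matrix.mul_one] at h1
  have h3 := congrFun h1 p
  rw [Matrix.one_mul] at h3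
  exact h3.symm

theorem pol1 (hACT : ME.S_ACT) {E : Type} [Field E] (c : Ix 2 (3 * k) → E) (i : Ix 2 (3 * k)) {S : Type}
    [Field S] [Algebra E S] (g g' : Matrix (Fin 3) (Fin 3) S) (hg : g * g' = 1) :
    aeval (fun p : Fin 3 × Fin 3 => g p.1 p.2) (act (GG E) (GG E).adjugate (fun q => C (c q)) i) =
      g.det ^ (3 * k + 1) * act g g' (fun q => algebraMap E S (c q)) i := by
  have hX : ((GG E).map
      ((aeval (fun p : Fin 3 × Fin 3 => g p.1 p.2) : MvPolynomial (Fin 3 × Fin 3) E →ₐ[E] S) :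
        MvPolynomial (Fin 3 × Fin 3) E →+* S)) = g := by
    ext i j
    simp
  have hA : ((GG E).adjugate.map
      ((aeval (fun p : Fin 3 × Fin 3 => g p.1 p.2) : MvPolynomial (Fin 3 × Fin 3) E →ₐ[E] S) :
        MvPolynomial (Fin 3 × Fin 3) E →+* S)) = g.det • g' := by
    have h1 := RingHom.map_adjugate
      ((aeval (fun p : Fin 3 × Fin 3 => g p.1 p.2) : MvPolynomial (Fin 3 × Fin 3) E →ₐ[E] S) :
        MvPolynomial (Fin 3 × Fin 3) E →+* S) (GG E)
    have h4 : (RingHom.mapMatrix ((aeval (fun p : Fin 3 × Fin 3 => g p.1 p.2) :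
        MvPolynomial (Fin 3 × Fin 3) E →ₐ[E] S) : MvPolynomial (Fin 3 × Fin 3) E →+* S)
        (GG E)) = g := hX
    rw [h4] at h1
    have h2 : g.adjugate = g.det • g' := by
      have h3 : g' * g = 1 := mul_eq_one_comm.mp hg
      calc g.adjugate = g' * g * g.adjugate := by rw [h3, one_mul]
        _ = g.det • g' := by
          rw [mul_assoc, Matrix.mul_adjugate, Matrix.mul_smul, Matrix.mul_one]
    rw [← h2]
    exact h1
  have h5 := congrFun (tt_map (k := k) hACT
    ((aeval (fun p : Fin 3 × Fin 3 => g p.1 p.2) : MvPolynomial (Fin 3 × Fin 3) E →ₐ[E] S) :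
        MvPolynomial (Fin 3 × Fin 3) E →+* S) (GG E) (GG E).adjugate fun q => C (c q)) i
  rw [hX, hA, tt_smul hACT] at h5
  have h6 : (fun i => ((aeval (fun p : Fin 3 × Fin 3 => g p.1 p.2) :
      MvPolynomial (Fin 3 × Fin 3) E →ₐ[E] S) : MvPolynomial (Fin 3 × Fin 3) E →+* S) (C (c i))) =
      fun q => algebraMap E S (c q) := by
    funext q
    simp
  rw [h6] at h5
  exact h5.symm

/-- a polynomial in the coordinates of the conjugates is, up to a power of the determinant, a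
polynomial in the entries of the matrix -/
theorem polyact (hACT : ME.S_ACT) (K E : Type) [Field K] [Field E] [Algebra K E] (c : Ix 2 (3 * k) → E)
    (P : MvPolynomial (Ix 2 (3 * k)) K) :
    ∃ (e : ℕ) (W : MvPolynomial (Fin 3 × Fin 3) E), ∀ (S : Type) [Field S] [Algebra E S]
      [Algebra K S] [IsScalarTower K E S] (g g' : Matrix (Fin 3) (Fin 3) S), g * g' = 1 →
      aeval (fun p : Fin 3 × Fin 3 => g p.1 p.2) W =
        g.det ^ e * aeval (act g g' fun q => algebraMap E S (c q)) P := by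
  induction P using MvPolynomial.induction_on with
  | C a =>
    refine ⟨0, C (algebraMap K E a), ?_⟩
    intro S _ _ _ _ g g' _
    rw [aeval_C, aeval_C, pow_zero, one_mul, ← IsScalarTower.algebraMap_apply]
  | add P Q hP hQ =>
    obtain ⟨e, W, hW⟩ := hP
    obtain ⟨e', W', hW'⟩ := hQ
    refine ⟨e + e', (GG E).det ^ e' * W + (GG E).det ^ e * W', ?_⟩
    intro S _ _ _ _ g g' hg
    rw [map_add, map_mul, map_mul, map_pow, map_pow, GG_det, hW S g g' hg, hW' S g g' hg, map_add]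
    ring
  | mul_X P i hP =>
    obtain ⟨e, W, hW⟩ := hP
    refine ⟨e + (3 * k + 1), W * act (GG E) (GG E).adjugate (fun q => C (c q)) i, ?_⟩
    intro S _ _ _ _ g g' hg
    rw [map_mul, pol1 hACT c i g g' hg, hW S g g' hg, map_mul, aeval_X]
    ring

end INW

open INW
open Pool.Agent.Z15.MH.INZ (GG GG_det ext_mul_ext)

theorem t_INW (hACT : ME.S_ACT) (hDEN : ME.S_DEN) : S_INW := by
  intro k K M _ _ _ _ D Ω _ _ _ _ _ _ F x hx
  have : Infinite K := inferInstance
  set y := D.f with hy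
  have hxv : x ∈ IntermediateField.adjoin K (Set.range y) := by
    rw [hy, D.gen]
    exact IntermediateField.mem_top
  set N := IntermediateField.adjoin K (Set.range F.fh) with hN
  obtain ⟨P, Q, hPQ⟩ := (IntermediateField.mem_adjoin_range_iff K y x).1 hxv
  by_cases hQ : aeval y Q = 0
  · rw [hPQ, hQ, div_zero, map_zero]
    exact N.zero_mem
  -- the identity for `g` over `K`
  have hv : ∀ (g : GP 2 K) (R : MvPolynomial (Ix 2 (3 * k)) K),
      D.φ g (aeval y R) = aeval (act (ext M g.1.1) (ext M g.1.2) y) R := by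
    intro g R
    have h1 := MvPolynomial.comp_aeval_apply (f := y) (D.φ g) R
    have h2 : (fun o => D.φ g (y o)) = act (ext M g.1.1) (ext M g.1.2) y :=
      funext fun p => D.hf g p
    rw [h2] at h1
    exact h1
  have hid : ∀ g : GP 2 K, aeval (act (ext M g.1.1) (ext M g.1.2) y) P * aeval y Q =
      aeval y P * aeval (act (ext M g.1.1) (ext M g.1.2) y) Q := by
    intro g
    have h3 : aeval (act (ext M g.1.1) (ext M g.1.2) y) Q ≠ 0 := by
      rw [← hv]
      exact (map_ne_zero (D.φ g)).2 hQ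
    have h4 := hx g
    rw [hPQ, map_div₀, hv, hv] at h4
    exact (div_eq_div_iff h3 hQ).1 h4
  -- polynomials
  obtain ⟨e, W, hW⟩ := INW.polyact hACT K M y P
  obtain ⟨e', W', hW'⟩ := INW.polyact hACT K M y Q
  have hfM : (fun q => algebraMap M M (y q)) = y := rfl
  have hZ : (GG M).det ^ e' * W * C (aeval y Q) - (GG M).det ^ e * C (aeval y P) * W' = 0 := by
    apply hDEN K M 3
    intro g hg
    have hg' : g * g⁻¹ = 1 := Matrix.mul_nonsing_inv g (isUnit_iff_ne_zero.2 hg)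
    have h1 := hid ⟨(g, g⁻¹), hg'⟩
    have hgM : ext (N := 2) M g * ext (N := 2) M g⁻¹ = 1 := ext_mul_ext g g⁻¹ hg'
    have h2 := hW M (ext (N := 2) M g) (ext (N := 2) M g⁻¹) hgM
    have h3 := hW' M (ext (N := 2) M g) (ext (N := 2) M g⁻¹) hgM
    have h4 := GG_det (E := M) (S := M) (ext (N := 2) M g)
    rw [hfM] at h2 h3
    have h5 : (fun p : Fin 3 × Fin 3 => algebraMap K M (g p.1 p.2)) =
        fun p => (ext (N := 2) M g) p.1 p.2 := rfl
    rw [MvPolynomial.aeval_eq_eval] at h2 h3 h4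
    rw [h5, map_sub, map_mul, map_mul, map_mul, map_mul, map_pow, map_pow, eval_C, eval_C]
    have h2' : eval (fun p : Fin 3 × Fin 3 => (ext (N := 2) M g) p.1 p.2) W =
      (ext (N := 2) M g).det ^ e * aeval (act (ext (N := 2) M g) (ext (N := 2) M g⁻¹) y) P := h2
    have h3' : eval (fun p : Fin 3 × Fin 3 => (ext (N := 2) M g) p.1 p.2) W' =
      (ext (N := 2) M g).det ^ e' * aeval (act (ext (N := 2) M g) (ext (N := 2) M g⁻¹) y) Q := h3
    have h4' : eval (fun p : Fin 3 × Fin 3 => (ext (N := 2) M g) p.1 p.2) (GG M).det =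
        (ext (N := 2) M g).det := h4
    rw [h2', h3', h4']
    have h1' : aeval (act (ext (N := 2) M g) (ext (N := 2) M g⁻¹) y) P * aeval y Q =
      aeval y P * aeval (act (ext (N := 2) M g) (ext (N := 2) M g⁻¹) y) Q := h1
    linear_combination (ext (N := 2) M g).det ^ e * (ext (N := 2) M g).det ^ e' * h1'
  obtain ⟨hBB, -, -, -, -, -⟩ := F.fr
  have hBB' : F.B' * F.B = 1 := mul_eq_one_comm.1 hBB
  have hBd : F.B.det ≠ 0 := by
    intro h0
    have h3 := congrArg Matrix.det hBB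
    rw [Matrix.det_mul, h0, zero_mul, Matrix.det_one] at h3
    exact zero_ne_one h3
  have hΩ : ∀ g g' : Matrix (Fin 3) (Fin 3) Ω, g * g' = 1 →
      aeval (act g g' fun q => algebraMap M Ω (y q)) P * algebraMap M Ω (aeval y Q) =
      algebraMap M Ω (aeval y P) * aeval (act g g' fun q => algebraMap M Ω (y q)) Q := by
    intro g g' hg
    have hgd : g.det ≠ 0 := by
      intro h0
      have h3 := congrArg Matrix.det hg
      rw [Matrix.det_mul, h0, zero_mul, Matrix.det_one] at h3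
      exact zero_ne_one h3
    have h1 := congrArg (aeval (fun p : Fin 3 × Fin 3 => g p.1 p.2)) hZ
    rw [map_sub, map_mul, map_mul, map_mul, map_mul, map_pow, map_pow, GG_det g, hW Ω g g' hg,
      hW' Ω g g' hg, map_zero, sub_eq_zero, aeval_C, aeval_C] at h1
    have h2 : g.det ^ e * g.det ^ e' ≠ 0 := mul_ne_zero (pow_ne_zero _ hgd) (pow_ne_zero _ hgd)
    apply mul_left_cancel₀ h2
    linear_combination h1
  -- the special point
  have hmem : ∀ i : Ix 2 (3 * k), act F.B' F.B (fun q => algebraMap M Ω (y q)) i ∈ N := fun i =>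
    IntermediateField.subset_adjoin K (Set.range F.fh) ⟨i, rfl⟩
  obtain ⟨uE, huE⟩ : ∃ uE : Ix 2 (3 * k) → N, ∀ p, algebraMap N Ω (uE p) =
      act F.B' F.B (fun q => algebraMap M Ω (y q)) p := ⟨fun p => ⟨_, hmem p⟩, fun p => rfl⟩
  have huE' : (fun q => algebraMap N Ω (uE q)) = act F.B' F.B (fun q => algebraMap M Ω (y q)) :=
    funext huE
  have hf' : act F.B F.B' (fun q => algebraMap N Ω (uE q)) = fun q => algebraMap M Ω (y q) := by
    rw [huE', INW.tt_mul hACT, hBB, INW.tt_one hACT]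
  -- a point with `Q ≠ 0`
  obtain ⟨g0, hg0, hQ0⟩ : ∃ g0 : Matrix (Fin 3) (Fin 3) K, g0.det ≠ 0 ∧
      aeval (act (ext (N := 2) N g0) (ext (N := 2) N g0⁻¹) uE) Q ≠ 0 := by
    by_contra hcon
    push Not at hcon
    obtain ⟨e1, W1, hW1⟩ := INW.polyact hACT K N uE Q
    have h1 : W1 = 0 := by
      apply hDEN K N 3
      intro g hg
      have hg' : g * g⁻¹ = 1 := Matrix.mul_nonsing_inv g (isUnit_iff_ne_zero.2 hg)
      have hgE : ext (N := 2) N g * ext (N := 2) N g⁻¹ = 1 := ext_mul_ext g g⁻¹ hg'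
      have h3 := hW1 N (ext (N := 2) N g) (ext (N := 2) N g⁻¹) hgE
      have h4 := hcon g hg
      have h5 : (fun q => algebraMap N N (uE q)) = uE := rfl
      rw [h5, h4, mul_zero, MvPolynomial.aeval_eq_eval] at h3
      exact h3
    have h2 := hW1 Ω F.B F.B' hBB
    rw [h1, map_zero, hf'] at h2
    have h3 : aeval (fun q => algebraMap M Ω (y q)) Q = 0 := by
      rcases mul_eq_zero.mp h2.symm with h | h
      · exact absurd h (pow_ne_zero _ hBd)
      · exact h
    have h6 := MvPolynomial.comp_aeval_apply (f := y) (IsScalarTower.toAlgHom K M Ω) Q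
    have h7 : algebraMap M Ω (aeval y Q) = 0 := h6.trans h3
    exact hQ ((map_eq_zero _).1 h7)
  -- the conclusion
  have hg0' : g0 * g0⁻¹ = 1 := Matrix.mul_nonsing_inv g0 (isUnit_iff_ne_zero.2 hg0)
  have hg0Ω : ext (N := 2) Ω g0 * ext (N := 2) Ω g0⁻¹ = 1 := ext_mul_ext g0 g0⁻¹ hg0'
  have hsp : act (ext (N := 2) Ω g0 * F.B') (F.B * ext (N := 2) Ω g0⁻¹)
      (fun q => algebraMap M Ω (y q)) =
      fun p => algebraMap N Ω (act (ext (N := 2) N g0) (ext (N := 2) N g0⁻¹) uE p) := by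
    have h12 := INW.tt_map hACT (algebraMap N Ω) (ext (N := 2) N g0) (ext (N := 2) N g0⁻¹) uE
    rw [← h12, ← INW.tt_mul hACT, ← huE']
    rfl
  have h1 := hΩ (ext (N := 2) Ω g0 * F.B') (F.B * ext (N := 2) Ω g0⁻¹) (by
    rw [mul_assoc, ← mul_assoc F.B', hBB', one_mul, hg0Ω])
  rw [hsp] at h1
  have h2 : ∀ R : MvPolynomial (Ix 2 (3 * k)) K,
      aeval (fun p => algebraMap N Ω (act (ext (N := 2) N g0) (ext (N := 2) N g0⁻¹) uE p)) R =
        algebraMap N Ω (aeval (act (ext (N := 2) N g0) (ext (N := 2) N g0⁻¹) uE) R) := by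
    intro R
    exact (MvPolynomial.comp_aeval_apply (f := act (ext (N := 2) N g0) (ext (N := 2) N g0⁻¹) uE)
      (IsScalarTower.toAlgHom K N Ω) R).symm
  rw [h2, h2] at h1
  have h5 : algebraMap N Ω (aeval (act (ext (N := 2) N g0) (ext (N := 2) N g0⁻¹) uE) Q) ≠ 0 :=
    (map_ne_zero _).2 hQ0
  have hQ' : algebraMap M Ω (aeval y Q) ≠ 0 := (map_ne_zero _).2 hQ
  have h6 : algebraMap M Ω x = algebraMap N Ω
      (aeval (act (ext (N := 2) N g0) (ext (N := 2) N g0⁻¹) uE) P /
        aeval (act (ext (N := 2) N g0) (ext (N := 2) N g0⁻¹) uE) Q) := by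
    rw [hPQ, map_div₀, map_div₀, div_eq_div_iff hQ' h5]
    exact h1.symm
  rw [h6]
  exact (aeval (act (ext (N := 2) N g0) (ext (N := 2) N g0⁻¹) uE) P /
        aeval (act (ext (N := 2) N g0) (ext (N := 2) N g0⁻¹) uE) Q : N).2

end Pool.Agent.Z15.MI
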